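import Pool.Agent.H.MP_7d3ffc_al.LC.Two

/-!
# Module LC/Abl: the fixed points of `P` are a line

`P` is a Sylow subgroup of `G`, `P ≤ K`, `ρ k`, `k ∈ K`, commutes with the average over `P`, so
`Y = fixSp ρ P` is `K`-stable (`stab_fix`), `Y ≠ 0` has no proper nonzero `K`-stable subspace, and the
quotient of `N_G(P)` by `P` is commutative. Claim: `Y` has dimension one.
Proof: let `L1 = ⨆ k ∈ K, MulAut.conj k • P`, it acts trivially on `Y` (`conj_triv`) and is normal in `K`, and `P` is a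
Sylow subgroup of it: every `k ∈ K` is `l n` with `l ∈ L1` and `n ∈ K` normalizing `P` (Frattini argument:
`MulAut.conj k • P` and `P` are Sylow subgroups of `L1`, so `MulAut.conj k • P = MulAut.conj l • P` for some
`l ∈ L1`, and `n = l⁻¹ k` normalizes `P`; or `Sylow.normalizer_sup_eq_top`). For `k = l n`, `k' = l' n'` and
`y ∈ Y`: `ρ k (ρ k' y) = ρ n (ρ n' y) = ρ (n n') y` (`Y` is `K`-stable and `L1` acts trivially;
`l n l' n' = l (n l' n⁻¹) n n'` with `n l' n⁻¹ ∈ L1`), and `n n' = (n n' n⁻¹ n'⁻¹) n' n` with the bracket in `P`, so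
`ρ (n n') y = ρ (n' n) y`. So the operators `ρ k`, `k ∈ K`, commute on `Y`. For `k ∈ K` let `c` be an
eigenvalue of `ρ k` on `Y` (`Module.End.exists_eigenvalue` for the restriction); the space
`{y ∈ Y | ρ k y = c y}` is `K`-stable, so it is `Y`. So every `ρ k` is a scalar on `Y`, every line in `Y`
is `K`-stable, so `Y` is a line (`finrank_span_singleton`).
-/

namespace Pool.Agent.H.MP_7d3ffc_al.LC

open Pool.Agent.H.MP_7d3ffc_al Pool.Agent.H.MP_7d3ffc_al.DC Pool.Agent.H.MP_7d3ffc_al.DF Module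
open scoped Pointwise

variable {G : Type*} [Group G] [Finite G] {V : Type*} [AddCommGroup V] [Module ℂ V]
  [FiniteDimensional ℂ V] {p : ℕ} [Fact p.Prime]

theorem Abl_dec (P : Sylow p G) (T : Subgroup G)
    (hP : (P : Subgroup G) ≤ T) {k : G} (hk : ((k • P : Sylow p G) : Subgroup G) ≤ T) :
    ∃ t ∈ T, ∃ n ∈ Subgroup.normalizer ((P : Subgroup G) : Set G), k = t * n := by
  obtain ⟨t, ht⟩ := MulAction.exists_smul_eq T (P.subtype hP) ((k • P).subtype hk)
  rw [Sylow.smul_subtype] at ht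
  have h1 : (t : G) • P = k • P := Sylow.subtype_injective ht
  refine ⟨t, t.2, (t : G)⁻¹ * k, ?_, by group⟩
  have h2 : ((t : G)⁻¹ * k) • P = P := by
    rw [mul_smul, ← h1]
    exact inv_smul_smul _ _
  exact Sylow.smul_eq_iff_mem_normalizer.1 h2

theorem line (P : Sylow p G) (ρ : Representation ℂ G V) (K : Subgroup G)
    (hPK : (P : Subgroup G) ≤ K)
    (hc : ∀ k ∈ K, ∀ v, av ρ (P : Subgroup G) (ρ k v) = ρ k (av ρ (P : Subgroup G) v))
    (hab : ∀ a ∈ Subgroup.normalizer ((P : Subgroup G) : Set G),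
      ∀ b ∈ Subgroup.normalizer ((P : Subgroup G) : Set G), a * b * a⁻¹ * b⁻¹ ∈ (P : Subgroup G))
    (h0 : fixSp ρ (P : Subgroup G) ≠ ⊥)
    (hirr : ∀ Z : Submodule ℂ V, Z ≤ fixSp ρ (P : Subgroup G) →
      (∀ k ∈ K, ∀ x ∈ Z, ρ k x ∈ Z) → Z = ⊥ ∨ Z = fixSp ρ (P : Subgroup G)) :
    finrank ℂ (fixSp ρ (P : Subgroup G)) = 1 := by
  have hstab : ∀ k ∈ K, ∀ x ∈ fixSp ρ (P : Subgroup G), ρ k x ∈ fixSp ρ (P : Subgroup G) :=
    fun k hk x hx => stab_fix ρ (hc k hk) hx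
  let T : Subgroup G :=
    { carrier := {g | g ∈ K ∧ ∀ x ∈ fixSp ρ (P : Subgroup G), ρ g x = x}
      mul_mem' := fun {a b} ha hb => ⟨K.mul_mem ha.1 hb.1, fun x hx => by
        rw [Two_mul, hb.2 x hx, ha.2 x hx]⟩
      one_mem' := ⟨K.one_mem, fun x _ => by rw [map_one]; rfl⟩
      inv_mem' := fun {a} ha => ⟨K.inv_mem ha.1, fun x hx => by
        have h1 := ha.2 x hx
        calc ρ a⁻¹ x = ρ a⁻¹ (ρ a x) := by rw [h1]
          _ = x := by rw [← Two_mul, inv_mul_cancel, map_one]; rfl⟩ }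
  have hPT : (P : Subgroup G) ≤ T := fun g hg => ⟨hPK hg, fun x hx => hx g hg⟩
  have hkT : ∀ k ∈ K, ((k • P : Sylow p G) : Subgroup G) ≤ T := by
    intro k hk g hg
    obtain ⟨m, hm, rfl⟩ := (Subgroup.mem_smul_pointwise_iff_exists _ _ _).1 hg
    have h2 : (MulAut.conj k • m : G) = k * m * k⁻¹ := by
      rw [MulAut.smul_def, MulAut.conj_apply]
    rw [h2]
    refine ⟨K.mul_mem (K.mul_mem hk (hPK hm)) (K.inv_mem hk), fun x hx => ?_⟩
    have h1 : ρ k⁻¹ x ∈ fixSp ρ (P : Subgroup G) := hstab k⁻¹ (K.inv_mem hk) x hx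
    rw [Two_mul, Two_mul, h1 m hm, ← Two_mul, mul_inv_cancel, map_one]
    rfl
  have hdec : ∀ k ∈ K, ∃ n ∈ K, n ∈ Subgroup.normalizer ((P : Subgroup G) : Set G) ∧
      ∀ x ∈ fixSp ρ (P : Subgroup G), ρ k x = ρ n x := by
    intro k hk
    obtain ⟨t, ht, n, hn, hkn⟩ := Abl_dec P T hPT (hkT k hk)
    have hnK : n ∈ K := by
      have h1 : n = t⁻¹ * k := by
        rw [hkn]
        group
      rw [h1]
      exact K.mul_mem (K.inv_mem ht.1) hk
    refine ⟨n, hnK, hn, fun x hx => ?_⟩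
    rw [hkn, Two_mul]
    exact ht.2 _ (hstab n hnK x hx)
  have hcomm : ∀ k ∈ K, ∀ k' ∈ K, ∀ x ∈ fixSp ρ (P : Subgroup G),
      ρ k (ρ k' x) = ρ k' (ρ k x) := by
    intro k hk k' hk' x hx
    obtain ⟨n, hn, hnN, hkn⟩ := hdec k hk
    obtain ⟨n', hn', hnN', hkn'⟩ := hdec k' hk'
    rw [hkn' x hx, hkn x hx, hkn _ (hstab n' hn' x hx), hkn' _ (hstab n hn x hx), ← Two_mul,
      ← Two_mul]
    have h1 : n * n' = (n * n' * n⁻¹ * n'⁻¹) * (n' * n) := by group
    rw [h1, Two_mul]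
    exact (hstab _ (K.mul_mem hn' hn) x hx) _ (hab n hnN n' hnN')
  have hsc : ∀ k ∈ K, ∃ c : ℂ, ∀ x ∈ fixSp ρ (P : Subgroup G), ρ k x = c • x := by
    intro k hk
    have hnt : Nontrivial (fixSp ρ (P : Subgroup G)) := Submodule.nontrivial_iff_ne_bot.2 h0
    obtain ⟨c, hc'⟩ := Module.End.exists_eigenvalue ((ρ k).restrict (hstab k hk))
    obtain ⟨y, hy⟩ := hc'.exists_hasEigenvector
    have hy1 : ρ k (y : V) = c • (y : V) := congrArg Subtype.val hy.apply_eq_smul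
    have hy0 : (y : V) ≠ 0 := fun h => hy.2 (Subtype.ext h)
    rcases hirr (fixSp ρ (P : Subgroup G) ⊓ Module.End.eigenspace (ρ k) c) inf_le_left
      (fun k' hk' x hx => ⟨hstab k' hk' x hx.1, by
        have h1 : ρ k x = c • x := Module.End.mem_eigenspace_iff.1 hx.2
        refine Module.End.mem_eigenspace_iff.2 ?_
        rw [hcomm k hk k' hk' x hx.1, h1, map_smul]⟩) with h | h
    · exfalso
      have h2 : (y : V) ∈ fixSp ρ (P : Subgroup G) ⊓ Module.End.eigenspace (ρ k) c :=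
        ⟨y.2, Module.End.mem_eigenspace_iff.2 hy1⟩
      rw [h] at h2
      exact hy0 ((Submodule.mem_bot ℂ).1 h2)
    · refine ⟨c, fun x hx => ?_⟩
      rw [← h] at hx
      exact Module.End.mem_eigenspace_iff.1 hx.2
  obtain ⟨y, hy, hy0⟩ := Submodule.exists_mem_ne_zero_of_ne_bot h0
  rcases hirr (Submodule.span ℂ {y})
    (by rw [Submodule.span_singleton_le_iff_mem]; exact hy) (fun k hk x hx => by
      obtain ⟨a, rfl⟩ := Submodule.mem_span_singleton.1 hx
      obtain ⟨c, hc'⟩ := hsc k hk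
      rw [map_smul, hc' y hy]
      exact Submodule.smul_mem _ _ (Submodule.smul_mem _ _
        (Submodule.mem_span_singleton_self y))) with h | h
  · exact absurd (Submodule.span_singleton_eq_bot.1 h) hy0
  · rw [← h]
    exact finrank_span_singleton hy0

end Pool.Agent.H.MP_7d3ffc_al.LC
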