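import Mathlib

/-!
# Module LC/Def: the definitions of the criterion

`P` is a subgroup of the group `G` (in the application a Sylow `p`-subgroup), `L` a set of linear
characters of `P`. The conjugate `g M g⁻¹` is written `MulAut.conj g • M`.
-/

namespace Pool.Agent.H.MP_7d3ffc_al.LC

open scoped Pointwise

variable {G : Type*} [Group G]

/-- `L` contains with `μ` all conjugates of `μ` under the normalizer of `P` -/
def Sta (P : Subgroup G) (L : Set (P →* ℂˣ)) : Prop :=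
  ∀ μ ∈ L, ∀ g ∈ Subgroup.normalizer (P : Set G), ∀ ν : P →* ℂˣ,
    (∀ x y : P, (y : G) = g * x * g⁻¹ → ν x = μ y) → ν ∈ L

/-- the common kernel of the linear characters in `L` -/
def cker (P : Subgroup G) (L : Set (P →* ℂˣ)) : Subgroup G := (⨅ μ ∈ L, μ.ker).map P.subtype

/-- the group generated by the normalizers of the subgroups between `P'` and `M` -/
def loc (P M : Subgroup G) : Subgroup G :=
  ⨆ Q ∈ {Q : Subgroup G | ⁅P, P⁆ ≤ Q ∧ Q ≤ M}, Subgroup.normalizer (Q : Set G)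

/-- the group generated by the normalizers of the subgroups `Q` between `P'` and `P` such that no
nontrivial `μ` in `L` is trivial on `Q` -/
def locOne (P : Subgroup G) (L : Set (P →* ℂˣ)) : Subgroup G :=
  ⨆ Q ∈ {Q : Subgroup G | ⁅P, P⁆ ≤ Q ∧ Q ≤ P ∧ ∀ μ ∈ L, μ ≠ 1 → ∃ x : P, (x : G) ∈ Q ∧ μ x ≠ 1},
    Subgroup.normalizer (Q : Set G)

/-- `M` has a partner: a different subgroup `M'` of the same order between `P'` and `P` such that modulo a
common subgroup `R` all elements of `M` and `M'` outside `R` are conjugate -/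
def IsPar (P M : Subgroup G) : Prop :=
  ∃ M' R : Subgroup G, ⁅P, P⁆ ≤ M' ∧ M' ≤ P ∧ M' ≠ M ∧ Nat.card M' = Nat.card M ∧ R ≤ M ⊓ M' ∧
    ∀ x ∈ M, ∀ y ∈ M', x ∉ R → y ∉ R → ∃ g : G, (∀ r ∈ R, g * r * g⁻¹ ∈ R) ∧
      g * x * g⁻¹ * y⁻¹ ∈ R

/-- (1) `K` is generated by the conjugates of `M` in `K` and by `K ∩ hKh⁻¹ ∩ h⁻¹Kh`; (2) the set `hMh` is
contained in the union of `K`, `KhK` and `Z`; (3) the only subset `S` of `G` which contains `K`, `h` and
`Z`, is stable under left and right multiplication with elements of `K`, and contains `ab` whenever it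
contains `a` and `b` and `M = (M ∩ a⁻¹Ma)(M ∩ bMb⁻¹)`, is `G` -/
def IsTwo (M K : Subgroup G) (Z : Set G) (h : G) : Prop :=
  K ≤ (⨆ k ∈ K, MulAut.conj k • M) ⊔ (K ⊓ MulAut.conj h • K ⊓ MulAut.conj h⁻¹ • K) ∧
  (∀ m ∈ M, h * m * h ∈ K ∨ (∃ k ∈ K, ∃ k' ∈ K, h * m * h = k * h * k') ∨ h * m * h ∈ Z) ∧
  ∀ S : Set G, (K : Set G) ⊆ S → h ∈ S → Z ⊆ S → (∀ k ∈ K, ∀ s ∈ S, k * s ∈ S ∧ s * k ∈ S) →
    (∀ a ∈ S, ∀ b ∈ S, (∀ m ∈ M, ∃ x ∈ M, ∃ y ∈ M, m = x * y ∧ a * x * a⁻¹ ∈ M ∧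
      b⁻¹ * y * b ∈ M) → a * b ∈ S) → S = Set.univ

/-- `h⁻¹Ph` is contained in the union of `K` and `KhK`, and `P'(P ∩ hKh⁻¹)` is not `P` -/
def IsExt (P K : Subgroup G) (h : G) : Prop :=
  (∀ u ∈ P, h⁻¹ * u * h ∈ K ∨ ∃ k ∈ K, ∃ k' ∈ K, h⁻¹ * u * h = k * h * k') ∧
    ⁅P, P⁆ ⊔ (P ⊓ MulAut.conj h • K) ≠ P

/-- the elements `g` such that `M` and `K ∩ gMg⁻¹` generate a group which contains a conjugate of `P`;
none if the trivial character is in `L` -/
def van (P M K : Subgroup G) (L : Set (P →* ℂˣ)) : Set G :=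
  {g | 1 ∉ L ∧ ∃ y : G, MulAut.conj y • P ≤ M ⊔ (K ⊓ MulAut.conj g • M)}

/-- the set `L` of linear characters of `P` is good for the prime `p`; here `M = cker P L` is the common
kernel of `L` and `K = loc P M`: `K` is everything, or `M` has a partner, or `p` is odd and
`IsTwo M K Z h` for some `h` with `Z = van P M K L`, or the trivial character is in `L`, the quotient of the
normalizer of `P` by `P` is commutative, the groups generated by `M` and `K ∩ gPg⁻¹` contain conjugates of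
`P`, and `IsTwo P K₁ ∅ h`, `IsExt P K₁ h` for some `h` with `K₁ = locOne P L` -/
def Good (p : ℕ) (P : Subgroup G) (L : Set (P →* ℂˣ)) : Prop :=
  loc P (cker P L) = ⊤ ∨ IsPar P (cker P L) ∨
    (p ≠ 2 ∧ ∃ h : G,
      IsTwo (cker P L) (loc P (cker P L)) (van P (cker P L) (loc P (cker P L)) L) h) ∨
    (1 ∈ L ∧ (∀ a ∈ Subgroup.normalizer (P : Set G), ∀ b ∈ Subgroup.normalizer (P : Set G),
        a * b * a⁻¹ * b⁻¹ ∈ P) ∧
      (∀ g : G, ∃ y : G, MulAut.conj y • P ≤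
        cker P L ⊔ (loc P (cker P L) ⊓ MulAut.conj g • P)) ∧
      ∃ h : G, IsTwo P (locOne P L) ∅ h ∧ IsExt P (locOne P L) h)

end Pool.Agent.H.MP_7d3ffc_al.LC
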