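import Pool.Agent.H.MP_7d3ffc_al.ThmA
import Pool.Agent.H.MP_7d3ffc_al.LC.Def
import Pool.Agent.H.MP_7d3ffc_al.DF.Av

/-!
# Module LC/Bas: the common kernel of the linear constituents

`P` is a subgroup of the finite group `G`, `cker P L` the common kernel of a set `L` of linear characters of
`P` (as a subgroup of `G`), `loc P M` the group generated by the normalizers of the `Q` with `P' ≤ Q ≤ M`.
Put `M = cker P (Lin ρ P)`, `K = loc P M`.

* `mem_cker`, `cker_le`, `comm_le_cker`: direct (`Subgroup.mem_map`, `Subgroup.mem_iInf`; the last one: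
  an element of `⁅P, P⁆` is the image of an element of `commutator P`, see the use of
  `Subgroup.map_commutator` in module DC/Crit; a homomorphism to a commutative group kills it).
* `fix_eq`: `fixSp_anti` gives `fixSp ρ M ≤ fixSp ρ Q`. Let `w ∈ fixSp ρ Q`. As `⁅P, P⁆ ≤ Q`, `w` is the sum
  of the `proj ρ P μ w` (`sum_proj_eq`, see module DC/Crit), and this is `0` for `μ ∉ Lin ρ P`
  (`proj_eq_zero_of_notMem`), and for `μ ∈ Lin ρ P` it is an eigenvector for `μ` (`rho_proj`), so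
  fixed by `M`.
* `av_eq`: `av Q v ∈ fixSp Q = fixSp M`, so `av Q v = av M (av Q v) = av M v` (`av_self`, `av_le`).
* `loc_comm`: the `k` with `∀ v, av M (ρ k v) = ρ k (av M v)` are a subgroup (closed under inverses:
  substitute `v = ρ k⁻¹ w`); it contains the normalizers of the `Q` by `av_eq` and `av_conj`.
* `le_loc`: `P` normalizes `⁅P, P⁆`, take `Q = ⁅P, P⁆`.
* `stab_fix`: `ρ k x = ρ k (av M x) = av M (ρ k x)`.
-/

namespace Pool.Agent.H.MP_7d3ffc_al.LC

open Pool.Agent.H.MP_7d3ffc_al Pool.Agent.H.MP_7d3ffc_al.DC Pool.Agent.H.MP_7d3ffc_al.DF Module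
open scoped Pointwise

variable {G : Type*} [Group G]

theorem mem_cker {P : Subgroup G} {L : Set (P →* ℂˣ)} {x : G} :
    x ∈ cker P L ↔ ∃ hx : x ∈ P, ∀ μ ∈ L, μ ⟨x, hx⟩ = 1 := by
  unfold cker
  rw [Subgroup.mem_map]
  constructor
  · rintro ⟨⟨y, hy⟩, h1, rfl⟩
    refine ⟨hy, fun μ hμ => ?_⟩
    rw [Subgroup.mem_iInf] at h1
    have h2 := h1 μ
    rw [Subgroup.mem_iInf] at h2
    exact MonoidHom.mem_ker.1 (h2 hμ)
  · rintro ⟨hx, h⟩
    refine ⟨⟨x, hx⟩, ?_, rfl⟩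
    rw [Subgroup.mem_iInf]
    intro μ
    rw [Subgroup.mem_iInf]
    intro hμ
    exact MonoidHom.mem_ker.2 (h μ hμ)

theorem cker_le (P : Subgroup G) (L : Set (P →* ℂˣ)) : cker P L ≤ P := fun _ hx =>
  (mem_cker.1 hx).1

theorem Bas_map (P : Subgroup G) : (commutator P).map P.subtype = ⁅P, P⁆ := by
  rw [commutator_def, Subgroup.map_commutator, ← MonoidHom.range_eq_map, Subgroup.range_subtype]

theorem comm_le_cker (P : Subgroup G) (L : Set (P →* ℂˣ)) : ⁅P, P⁆ ≤ cker P L := by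
  rw [← Bas_map, cker]
  refine Subgroup.map_mono ?_
  refine le_iInf fun μ => le_iInf fun _ => ?_
  exact Abelianization.commutator_subset_ker μ

theorem Bas_nrm {P : Subgroup G} {g : G} (hg : g ∈ P) {h : G} (hh : h ∈ ⁅P, P⁆) :
    g * h * g⁻¹ ∈ ⁅P, P⁆ := by
  have hhP : h ∈ P := Subgroup.commutator_le_self P hh
  have h1 : g * h * g⁻¹ * h⁻¹ ∈ ⁅P, P⁆ := Subgroup.commutator_mem_commutator hg hhP
  have h2 : g * h * g⁻¹ = g * h * g⁻¹ * h⁻¹ * h := by group
  rw [h2]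
  exact mul_mem h1 hh

theorem le_loc {P M : Subgroup G} (hM : ⁅P, P⁆ ≤ M) : P ≤ loc P M := by
  intro g hg
  unfold loc
  refine (le_iSup₂_of_le (f := fun (Q : Subgroup G)
    (_ : Q ∈ {Q : Subgroup G | ⁅P, P⁆ ≤ Q ∧ Q ≤ M}) => Subgroup.normalizer (Q : Set G))
    ⁅P, P⁆ ⟨le_rfl, hM⟩ le_rfl) ?_
  rw [Subgroup.mem_normalizer_iff]
  intro h
  constructor
  · intro hh
    exact Bas_nrm hg hh
  · intro hh
    have h1 := Bas_nrm (inv_mem hg) hh
    have h2 : g⁻¹ * (g * h * g⁻¹) * g⁻¹⁻¹ = h := by group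
    rw [h2] at h1
    exact h1

variable [Finite G] {V : Type*} [AddCommGroup V] [Module ℂ V] [FiniteDimensional ℂ V]

theorem fix_eq (ρ : Representation ℂ G V) (P Q : Subgroup G) (h1 : ⁅P, P⁆ ≤ Q)
    (h2 : Q ≤ cker P (Lin ρ P)) : fixSp ρ Q = fixSp ρ (cker P (Lin ρ P)) := by
  classical
  have _ := Fintype.ofFinite P
  have _ := Fintype.ofFinite (P →* ℂˣ)
  refine le_antisymm (fun w hw => ?_) (fixSp_anti ρ h2)
  have hsum : ∑ μ : P →* ℂˣ, proj ρ P μ w = w := by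
    refine sum_proj_eq ρ _ w fun x hx => hw _ (h1 ?_)
    rw [← Bas_map]
    exact Subgroup.mem_map_of_mem _ hx
  intro x hx
  obtain ⟨hxP, hxL⟩ := mem_cker.1 hx
  rw [← hsum, map_sum]
  refine Finset.sum_congr rfl fun μ _ => ?_
  by_cases hμ : μ ∈ Lin ρ P
  · have h3 := rho_proj ρ P μ w ⟨x, hxP⟩
    rw [hxL μ hμ, Units.val_one, one_smul] at h3
    exact h3
  · rw [proj_eq_zero_of_notMem ρ P μ hμ w, map_zero]

theorem av_eq (ρ : Representation ℂ G V) (P Q : Subgroup G) (h1 : ⁅P, P⁆ ≤ Q)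
    (h2 : Q ≤ cker P (Lin ρ P)) (v : V) : av ρ Q v = av ρ (cker P (Lin ρ P)) v := by
  have h3 := av_mem ρ Q v
  rw [fix_eq ρ P Q h1 h2] at h3
  rw [← av_self ρ (cker P (Lin ρ P)) h3]
  exact av_le ρ Q h2 v

theorem loc_comm (ρ : Representation ℂ G V) (P : Subgroup G) {k : G}
    (hk : k ∈ loc P (cker P (Lin ρ P))) (v : V) :
    av ρ (cker P (Lin ρ P)) (ρ k v) = ρ k (av ρ (cker P (Lin ρ P)) v) := by
  obtain ⟨K, hK⟩ : ∃ K : Subgroup G, ∀ k, k ∈ K ↔ ∀ v, av ρ (cker P (Lin ρ P)) (ρ k v) =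
      ρ k (av ρ (cker P (Lin ρ P)) v) := by
    refine ⟨{ carrier := {k | ∀ v, av ρ (cker P (Lin ρ P)) (ρ k v) =
                ρ k (av ρ (cker P (Lin ρ P)) v)}
              mul_mem' := ?_
              one_mem' := ?_
              inv_mem' := ?_ }, fun k => Iff.rfl⟩
    · intro a b ha hb w
      rw [map_mul, Module.End.mul_apply, Module.End.mul_apply, ha, hb]
    · intro w
      rw [map_one, Module.End.one_apply, Module.End.one_apply]
    · intro a ha w
      have h1 := ha (ρ a⁻¹ w)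
      have h2 : ρ a (ρ a⁻¹ w) = w := by
        rw [← Module.End.mul_apply, ← map_mul, mul_inv_cancel, map_one, Module.End.one_apply]
      rw [h2] at h1
      rw [h1]
      generalize av ρ (cker P (Lin ρ P)) (ρ a⁻¹ w) = z
      rw [← Module.End.mul_apply (ρ a⁻¹) (ρ a) z, ← map_mul, inv_mul_cancel, map_one,
        Module.End.one_apply]
  have hle : loc P (cker P (Lin ρ P)) ≤ K := by
    unfold loc
    refine iSup₂_le fun Q hQ => ?_
    intro g hg
    rw [hK]
    intro w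
    rw [Subgroup.mem_normalizer_iff] at hg
    rw [← av_eq ρ P Q hQ.1 hQ.2, ← av_eq ρ P Q hQ.1 hQ.2]
    exact av_conj ρ Q (fun m hm => (hg m).1 hm) w
  exact (hK k).1 (hle hk) v

theorem stab_fix (ρ : Representation ℂ G V) {M : Subgroup G} {k : G}
    (hk : ∀ v, av ρ M (ρ k v) = ρ k (av ρ M v)) {x : V} (hx : x ∈ fixSp ρ M) :
    ρ k x ∈ fixSp ρ M := by
  have h1 := hk x
  rw [av_self ρ M hx] at h1
  rw [← h1]
  exact av_mem ρ M _

end Pool.Agent.H.MP_7d3ffc_al.LC
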