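import Mathlib

/-!
# Module LC/BnD: split BN-pairs

`B` is the normalizer of `U`, and `T` is the intersection of `B` and `N`.
-/

namespace Pool.Agent.H.MP_7d3ffc_al.LC

/-- a split BN-pair in the group `S` with `B = N_S(U)` and Weyl group `W` -/
structure SplitBN.{u} {S : Type u} [Group S] (U : Subgroup S) where
  /-- the Weyl group `W`, its simple reflections `s i` and a function `len` such that every `w ≠ 1` has a simple
  reflection `s` with `len (s w) < len w` (for instance the length for the generators `s i`) -/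
  I : Type
  W : Type
  [groupW : Group W]
  s : I → W
  s_sq : ∀ i, s i * s i = 1
  len : W → ℕ
  len_lt : ∀ w, w ≠ 1 → ∃ i, len (s i * w) < len w
  /-- the subgroup `N` and the homomorphism of `N` to `W` with kernel `T = B ∩ N` -/
  N : Subgroup S
  π : N →* W
  ker : ∀ m : N, π m = 1 ↔ (m : S) ∈ Subgroup.normalizer (U : Set S)
  /-- representatives of the simple reflections -/
  n : I → N
  n_simple : ∀ i, π (n i) = s i
  /-- `S` is generated by `B` and `N` -/
  gen : Subgroup.normalizer (U : Set S) ⊔ N = ⊤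
  /-- `s B w` is contained in the union of `B w B` and `B s w B` -/
  bn : ∀ i, ∀ b ∈ Subgroup.normalizer (U : Set S), ∀ m : N,
    ∃ c ∈ Subgroup.normalizer (U : Set S), ∃ d ∈ Subgroup.normalizer (U : Set S),
      (n i : S) * b * m = c * m * d ∨ (n i : S) * b * m = c * ((n i : S) * m) * d
  /-- `s B s` is not `B` -/
  ne : ∀ i, ∃ b ∈ Subgroup.normalizer (U : Set S),
    (n i : S) * b * (n i : S)⁻¹ ∉ Subgroup.normalizer (U : Set S)
  /-- `B = U T` -/
  split : ∀ b ∈ Subgroup.normalizer (U : Set S), ∃ u ∈ U, ∃ t ∈ N,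
    t ∈ Subgroup.normalizer (U : Set S) ∧ b = u * t
  /-- the root groups of the simple roots: `U = (U ∩ s⁻¹ U s) X_s`, and `w⁻¹ X_s w` is contained in `U` if
  `len w < len (s w)` -/
  X : I → Subgroup S
  X_le : ∀ i, X i ≤ U
  dec : ∀ i, ∀ u ∈ U, ∃ v ∈ U, ∃ x ∈ X i, u = v * x ∧ (n i : S) * v * (n i : S)⁻¹ ∈ U
  root : ∀ i, ∀ m : N, len (π m) < len (s i * π m) →
    ∀ x ∈ X i, (m : S)⁻¹ * x * m ∈ U

attribute [instance] SplitBN.groupW

/-- induction over the Weyl group -/
theorem SplitBN.ind {S : Type*} [Group S] {U : Subgroup S} (D : SplitBN U) {q : D.W → Prop}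
    (h1 : q 1) (h2 : ∀ w i, q w → q (D.s i * w)) (w : D.W) : q w := by
  have key : ∀ (k : ℕ) (w : D.W), D.len w = k → q w := by
    intro k
    induction k using Nat.strong_induction_on with
    | _ k ih =>
      intro w hw
      by_cases h3 : w = 1
      · rw [h3]
        exact h1
      · obtain ⟨i, hi⟩ := D.len_lt w h3
        have h4 := h2 _ i (ih _ (by rw [← hw]; exact hi) (D.s i * w) rfl)
        rwa [← mul_assoc, D.s_sq, one_mul] at h4
  exact key _ w rfl

/-- `S` has a split BN-pair with `U` a Sylow `p`-subgroup such that every nontrivial linear character of `U` has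
at least `p` conjugates under `B`, the group `U / (U ∩ s⁻¹ U s)` is commutative for all simple reflections `s`
with at most one exception, and for `p = 2` the group `T` is commutative -/
def BNFactor.{u} (p : ℕ) (S : Type u) [Group S] : Prop :=
  ∃ (U : Subgroup S) (D : SplitBN U), IsPGroup p U ∧ ¬ p ∣ U.index ∧
    (∀ μ : U →* ℂˣ, μ ≠ 1 → p ≤ {ν : U →* ℂˣ | ∃ g ∈ Subgroup.normalizer (U : Set S),
      ∀ x y : U, (y : S) = g * x * g⁻¹ → ν x = μ y}.ncard) ∧
    (∀ i j, i ≠ j → (∀ u ∈ ⁅U, U⁆, (D.n i : S) * u * (D.n i : S)⁻¹ ∈ U) ∨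
      ∀ u ∈ ⁅U, U⁆, (D.n j : S) * u * (D.n j : S)⁻¹ ∈ U) ∧
    (p ≠ 2 ∨ ∀ s ∈ D.N, ∀ t ∈ D.N, s ∈ Subgroup.normalizer (U : Set S) →
      t ∈ Subgroup.normalizer (U : Set S) → s * t = t * s)

end Pool.Agent.H.MP_7d3ffc_al.LC
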