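import Pool.Agent.H.MP_7d3ffc_al.LC.Crt
import Pool.Agent.H.MP_7d3ffc_al.PGroup

/-!
# Module LC/Cor: two consequences of the criterion

* `ker_one`: if all characters in `L` are trivial then `cker P L = P` (`mem_cker`).
* `only_one`: the hypothesis `horb` on the number of the conjugates and the invariance of `L` give that every
  element of a set `L` with less than `p` elements is `1` (the conjugates of `μ` are all in `L`,
  `Set.ncard_le_ncard`).
* `of_gen`: `loc P (cker P L) = loc P P = ⊤` for such `L`.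
* `of_rank_one`: let `N = Subgroup.normalizer P`, `L ⊆ {1}` nonempty, so `cker P L = P`, `K = loc P P`. `N ≤ K`
  (take `Q = P`; `⁅P, P⁆ ≤ P`). If `K` is not `N`, it contains an element `k h k'` of `N h N`, so `h ∈ K` and
  `K = ⊤` (by `hG`): the first case of `Good`. Otherwise `K = N`; the third case of `Good` with this `h` (for `p = 2` the fourth
  one). `IsTwo`: (1) `P ≤ ⨆ k ∈ K, MulAut.conj k • P` (take `k = 1`) and `hN`; (2) by `hG`; (3) `S`
  contains `K`, `h` and is stable under multiplication with elements of `K`, so it contains `K h K` and is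
  everything by `hG`. `IsExt`: the first part is `hG` for the
  element `h⁻¹ u h`; the second part: `D = P ⊓ MulAut.conj h • N`; if `⁅P, P⁆ ⊔ D = P` then `D = P` because
  `⁅P, P⁆` consists of non-generators (`sup_commutator_ne_top` in module PGroup for the `p`-group `P`), so
  `P ≤ MulAut.conj h • N`, i.e. `MulAut.conj h⁻¹ • P ≤ N`; `P` is the only Sylow subgroup of
  `N`, so `MulAut.conj h⁻¹ • P = P` (equal cardinality; a `p`-subgroup of `N` is contained in `P` as
  `P` is normal in `N` of index prime to `p`), so `h ∈ N` and `N = ⊤ = K`, the first case.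
-/

namespace Pool.Agent.H.MP_7d3ffc_al.LC

open Pool.Agent.H.MP_7d3ffc_al Pool.Agent.H.MP_7d3ffc_al.DC Pool.Agent.H.MP_7d3ffc_al.DF Module
open scoped Pointwise

variable {G : Type*} [Group G] [Finite G] {V : Type*} [AddCommGroup V] [Module ℂ V]
  [FiniteDimensional ℂ V] {p : ℕ} [Fact p.Prime]

theorem Cor_one (P : Subgroup G)
    (horb : ∀ μ : P →* ℂˣ, μ ≠ 1 →
      p ≤ {ν : P →* ℂˣ | ∃ g ∈ Subgroup.normalizer (P : Set G),
        ∀ x y : P, (y : G) = g * x * g⁻¹ → ν x = μ y}.ncard)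
    (L : Set (P →* ℂˣ)) (hL : L.ncard < p)
    (hinv : ∀ μ ∈ L, ∀ g ∈ Subgroup.normalizer (P : Set G),
        ∀ ν : P →* ℂˣ, (∀ x y : P, (y : G) = g * x * g⁻¹ → ν x = μ y) → ν ∈ L) :
    ∀ μ ∈ L, μ = 1 := by
  intro μ hμ
  by_contra hne
  have h1 := horb μ hne
  have hfin : L.Finite := by
    have _ := Fintype.ofFinite (P →* ℂˣ)
    exact Set.toFinite L
  have h2 : {ν : P →* ℂˣ | ∃ g ∈ Subgroup.normalizer (P : Set G),
        ∀ x y : P, (y : G) = g * x * g⁻¹ → ν x = μ y}.ncard ≤ L.ncard := by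
    refine Set.ncard_le_ncard ?_ hfin
    rintro ν ⟨g, hg, hν⟩
    exact hinv μ hμ g hg ν hν
  omega

theorem Cor_cker (P : Subgroup G) (L : Set (P →* ℂˣ)) (hL : ∀ μ ∈ L, μ = 1) :
    cker P L = P := by
  refine le_antisymm (cker_le P L) fun x hx => ?_
  rw [mem_cker]
  refine ⟨hx, fun μ hμ => ?_⟩
  rw [hL μ hμ, MonoidHom.one_apply]

theorem Cor_comm_le (P : Subgroup G) : ⁅P, P⁆ ≤ P := Subgroup.commutator_le_self P

theorem Cor_le_loc (P : Subgroup G) : Subgroup.normalizer (P : Set G) ≤ loc P P := by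
  unfold loc
  exact le_iSup₂_of_le (f := fun (Q : Subgroup G)
    (_ : Q ∈ {Q : Subgroup G | ⁅P, P⁆ ≤ Q ∧ Q ≤ P}) => Subgroup.normalizer (Q : Set G))
    P ⟨Cor_comm_le P, le_rfl⟩ le_rfl

/-- a subgroup of the `p`-group `P` which supplements the commutator subgroup is `P` -/
theorem Cor_sup (P D : Subgroup G) (hP : IsPGroup p P) (hD : D ≤ P) (h : ⁅P, P⁆ ⊔ D = P) :
    D = P := by
  by_contra hne
  have h1 : D.subgroupOf P ≠ ⊤ := by
    intro h2
    exact hne (le_antisymm hD (Subgroup.subgroupOf_eq_top.1 h2))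
  refine sup_commutator_ne_top hP (D.subgroupOf P) h1 ?_
  have h3 : (D.subgroupOf P ⊔ commutator P).map P.subtype = (⊤ : Subgroup P).map P.subtype := by
    rw [Subgroup.map_sup, Bas_map, Subgroup.subgroupOf_map_subtype, inf_eq_left.2 hD,
      ← MonoidHom.range_eq_map, Subgroup.range_subtype, sup_comm]
    exact h
  exact Subgroup.map_injective P.subtype_injective h3

theorem Cor_card (P : Subgroup G) (φ : MulAut G) : Nat.card (φ • P : Subgroup G) = Nat.card P := by
  have e : P ≃* (φ • P : Subgroup G) := Subgroup.equivSMul φ P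
  exact (Nat.card_congr e.toEquiv).symm

/-- a conjugate of the Sylow subgroup `P` in the normalizer of `P` is `P` -/
theorem Cor_conj (P : Subgroup G) (hP : IsPGroup p P)
    (hmax : ∀ Q : Subgroup G, IsPGroup p Q → P ≤ Q → Q = P) (h : G)
    (hle : ∀ x ∈ P, h⁻¹ * x * h ∈ Subgroup.normalizer (P : Set G)) :
    h ∈ Subgroup.normalizer (P : Set G) := by
  obtain ⟨Q, hQdef⟩ : ∃ Q : Subgroup G, Q = MulAut.conj h⁻¹ • P := ⟨_, rfl⟩
  have hmem : ∀ y, y ∈ Q ↔ ∃ x ∈ P, h⁻¹ * x * h = y := by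
    intro y
    rw [hQdef, Subgroup.mem_smul_pointwise_iff_exists]
    constructor
    · rintro ⟨x, hx, rfl⟩
      refine ⟨x, hx, ?_⟩
      rw [MulAut.smul_def, MulAut.conj_apply, inv_inv]
    · rintro ⟨x, hx, rfl⟩
      refine ⟨x, hx, ?_⟩
      rw [MulAut.smul_def, MulAut.conj_apply, inv_inv]
  have hQ : IsPGroup p Q := by
    rw [hQdef]
    exact hP.of_equiv (Subgroup.equivSMul (MulAut.conj h⁻¹) P)
  have hQN : Q ≤ Subgroup.normalizer (P : Set G) := by
    intro y hy
    obtain ⟨x, hx, rfl⟩ := (hmem y).1 hy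
    exact hle x hx
  have h2 : IsPGroup p (P ⊔ Q : Subgroup G) := IsPGroup.to_sup_of_normal_left' hP hQ hQN
  have h3 : P ⊔ Q = P := hmax _ h2 le_sup_left
  have h4 : Q ≤ P := by
    rw [← h3]
    exact le_sup_right
  have hc : Nat.card Q = Nat.card P := by
    rw [hQdef]
    exact Cor_card P _
  have h5 : Q = P := Subgroup.eq_of_le_of_card_ge h4 hc.ge
  rw [Subgroup.mem_normalizer_iff'']
  intro x
  constructor
  · intro hx
    rw [← h5]
    exact (hmem _).2 ⟨x, hx, rfl⟩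
  · intro hx
    rw [← h5] at hx
    obtain ⟨y, hy, hxy⟩ := (hmem _).1 hx
    have h7 : y = x := by
      have h8 := congrArg (fun z => h * z * h⁻¹) hxy
      simpa [mul_assoc] using h8
    rw [← h7]
    exact hy

theorem Cor_locOne (P : Subgroup G) (L : Set (P →* ℂˣ)) (hL : ∀ μ ∈ L, μ = 1) :
    locOne P L = loc P P := by
  unfold locOne loc
  have h1 : {Q : Subgroup G | ⁅P, P⁆ ≤ Q ∧ Q ≤ P ∧ ∀ μ ∈ L, μ ≠ 1 →
      ∃ x : P, (x : G) ∈ Q ∧ μ x ≠ 1} = {Q : Subgroup G | ⁅P, P⁆ ≤ Q ∧ Q ≤ P} := by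
    ext Q
    exact ⟨fun h => ⟨h.1, h.2.1⟩, fun h => ⟨h.1, h.2, fun μ hμ hne => absurd (hL μ hμ) hne⟩⟩
  rw [h1]

theorem of_gen (P : Sylow p G)
    (hgen : (⨆ Q ∈ {Q : Subgroup G | ⁅(P : Subgroup G), (P : Subgroup G)⁆ ≤ Q ∧
          Q ≤ (P : Subgroup G)}, Subgroup.normalizer (Q : Set G)) = ⊤)
    (horb : ∀ μ : (P : Subgroup G) →* ℂˣ, μ ≠ 1 →
      p ≤ {ν : (P : Subgroup G) →* ℂˣ | ∃ g ∈ Subgroup.normalizer ((P : Subgroup G) : Set G),
        ∀ x y : (P : Subgroup G), (y : G) = g * x * g⁻¹ → ν x = μ y}.ncard)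
    (ρ : Representation ℂ G V) (hρ : ρ.IsIrreducible) (hd : p ∣ finrank ℂ V)
    (hne : (Lin ρ (P : Subgroup G)).Nonempty) : p ≤ (Lin ρ (P : Subgroup G)).ncard := by
  refine crit3 P (fun L _ hL2 hL3 => Or.inl ?_) ρ hρ hd hne
  rw [Cor_cker _ L (Cor_one _ horb L hL2 hL3)]
  exact hgen

theorem of_rank_one (P : Sylow p G) (h : G)
    (hG : ∀ g : G, g ∈ Subgroup.normalizer ((P : Subgroup G) : Set G) ∨
      ∃ k ∈ Subgroup.normalizer ((P : Subgroup G) : Set G),
        ∃ k' ∈ Subgroup.normalizer ((P : Subgroup G) : Set G), g = k * h * k')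
    (hN : Subgroup.normalizer ((P : Subgroup G) : Set G) ≤ (P : Subgroup G) ⊔
      (Subgroup.normalizer ((P : Subgroup G) : Set G) ⊓
        MulAut.conj h • Subgroup.normalizer ((P : Subgroup G) : Set G) ⊓
        MulAut.conj h⁻¹ • Subgroup.normalizer ((P : Subgroup G) : Set G)))
    (hab : p ≠ 2 ∨ ∀ a ∈ Subgroup.normalizer ((P : Subgroup G) : Set G),
      ∀ b ∈ Subgroup.normalizer ((P : Subgroup G) : Set G), a * b * a⁻¹ * b⁻¹ ∈ (P : Subgroup G))
    (horb : ∀ μ : (P : Subgroup G) →* ℂˣ, μ ≠ 1 →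
      p ≤ {ν : (P : Subgroup G) →* ℂˣ | ∃ g ∈ Subgroup.normalizer ((P : Subgroup G) : Set G),
        ∀ x y : (P : Subgroup G), (y : G) = g * x * g⁻¹ → ν x = μ y}.ncard)
    (ρ : Representation ℂ G V) (hρ : ρ.IsIrreducible) (hd : p ∣ finrank ℂ V)
    (hne : (Lin ρ (P : Subgroup G)).Nonempty) : p ≤ (Lin ρ (P : Subgroup G)).ncard := by
  refine crit3 P (fun L hL1 hL2 hL3 => ?_) ρ hρ hd hne
  have hone := Cor_one _ horb L hL2 hL3
  have hck := Cor_cker _ L hone
  have hmem : (1 : (P : Subgroup G) →* ℂˣ) ∈ L := by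
    obtain ⟨μ, hμ⟩ := hL1
    rw [← hone μ hμ]
    exact hμ
  have hNK := Cor_le_loc (P : Subgroup G)
  have hPN : (P : Subgroup G) ≤ Subgroup.normalizer ((P : Subgroup G) : Set G) :=
    Subgroup.le_normalizer
  have htop : h ∈ loc (P : Subgroup G) (P : Subgroup G) →
      loc (P : Subgroup G) (P : Subgroup G) = ⊤ := by
    intro hh
    rw [eq_top_iff]
    intro g _
    rcases hG g with h1 | ⟨k, hk, k', hk', rfl⟩
    · exact hNK h1
    · exact mul_mem (mul_mem (hNK hk) hh) (hNK hk')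
  unfold Good
  rw [hck]
  by_cases hh : h ∈ loc (P : Subgroup G) (P : Subgroup G)
  · exact Or.inl (htop hh)
  have hKN : loc (P : Subgroup G) (P : Subgroup G) =
      Subgroup.normalizer ((P : Subgroup G) : Set G) := by
    refine le_antisymm (fun g hg => ?_) hNK
    rcases hG g with h1 | ⟨k, hk, k', hk', rfl⟩
    · exact h1
    · exfalso
      apply hh
      have h2 := mul_mem (mul_mem (inv_mem (hNK hk)) hg) (inv_mem (hNK hk'))
      have h3 : k⁻¹ * (k * h * k') * k'⁻¹ = h := by group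
      rwa [h3] at h2
  have hlo := Cor_locOne (P : Subgroup G) L hone
  have htwo : IsTwo (P : Subgroup G) (Subgroup.normalizer ((P : Subgroup G) : Set G)) ∅ h := by
    refine ⟨?_, ?_, ?_⟩
    · refine hN.trans (sup_le_sup ?_ le_rfl)
      refine le_iSup₂_of_le (f := fun (k : G)
        (_ : k ∈ Subgroup.normalizer ((P : Subgroup G) : Set G)) =>
        MulAut.conj k • (P : Subgroup G)) 1 (one_mem _) ?_
      rw [map_one, one_smul]
    · intro m _
      rcases hG (h * m * h) with h1 | h1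
      · exact Or.inl h1
      · exact Or.inr (Or.inl h1)
    · intro S hS1 hS2 _ hS3 _
      refine Set.eq_univ_of_forall fun g => ?_
      rcases hG g with h1 | ⟨k, hk, k', hk', rfl⟩
      · exact hS1 h1
      · exact (hS3 k' hk' _ (hS3 k hk h hS2).1).2
  rw [hlo, hKN]
  rcases hab with hp2 | hab
  · refine Or.inr (Or.inr (Or.inl ⟨hp2, h, htwo.1, fun m hm => ?_, ?_⟩))
    · rcases htwo.2.1 m hm with h1 | h1 | h1
      · exact Or.inl h1
      · exact Or.inr (Or.inl h1)
      · exact h1.elim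
    · exact fun S hS1 hS2 _ hS3 hS4 => htwo.2.2 S hS1 hS2 (Set.empty_subset _) hS3 hS4
  refine Or.inr (Or.inr (Or.inr ⟨hmem, hab, fun g => ⟨1, ?_⟩, h, htwo, ?_, ?_⟩))
  · rw [map_one, one_smul]
    exact le_sup_left
  · intro u _
    exact hG (h⁻¹ * u * h)
  · intro heq
    have h1 := Cor_sup (P : Subgroup G) ((P : Subgroup G) ⊓ MulAut.conj h •
      Subgroup.normalizer ((P : Subgroup G) : Set G)) P.isPGroup' inf_le_left heq
    have h2 : (P : Subgroup G) ≤ MulAut.conj h • Subgroup.normalizer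
        ((P : Subgroup G) : Set G) := h1.ge.trans inf_le_right
    apply hh
    apply hNK
    refine Cor_conj (P : Subgroup G) P.isPGroup' (fun Q hQ1 hQ2 => P.is_maximal' hQ1 hQ2) h
      fun x hx => ?_
    obtain ⟨y, hy, hxy⟩ := (Subgroup.mem_smul_pointwise_iff_exists _ _ _).1 (h2 hx)
    rw [MulAut.smul_def, MulAut.conj_apply] at hxy
    have h3 : h⁻¹ * x * h = y := by
      rw [← hxy]
      group
    rw [h3]
    exact hy

end Pool.Agent.H.MP_7d3ffc_al.LC
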