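import Pool.Agent.H.MP_7d3ffc_al.LC.BnD
import Pool.Agent.H.MP_7d3ffc_al.LC.Cor

/-!
# Module LC/Bna: the normalizers of the subgroups between `P'` and `P` in a group with a split BN-pair

`loc P P` is generated by the normalizers of the subgroups between `⁅P, P⁆` and `P`.
* `bn_sq`: `n i * n i` is in the kernel (`s_sq`).
* `bn_good`: `Q = P ⊓ MulAut.conj (n i)⁻¹ • P` = the `v ∈ P` with `n i * v * (n i)⁻¹ ∈ P`. It contains `⁅P, P⁆`. `n i`
  normalizes it: for `v ∈ P`, `n i * v * (n i)⁻¹ = t * ((n i)⁻¹ * v * n i) * t⁻¹` with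
  `t = n i * n i ∈ N_G(P)` (`bn_sq`), so this is in `P` if and only if `(n i)⁻¹ * v * n i ∈ P`.
* `bn_top`: for all `w` and all `m : N` with `π m = w`: `m ∈ K` (`D.ind`: for `w = 1`
  `ker`; for `s i * w` the element `(n i)⁻¹ * m`); then `gen`.
-/

namespace Pool.Agent.H.MP_7d3ffc_al.LC

open scoped Pointwise

variable {G : Type*} [Group G] {P : Subgroup G} (D : SplitBN P)

theorem bn_sq (i : D.I) : (D.n i : G) * D.n i ∈ Subgroup.normalizer (P : Set G) := by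
  have h := (D.ker (D.n i * D.n i)).1
    (by rw [map_mul, D.n_simple, D.s_sq])
  exact h

theorem bn_good (i : D.I) (hi : ∀ u ∈ ⁅P, P⁆, (D.n i : G) * u * (D.n i : G)⁻¹ ∈ P) :
    (D.n i : G) ∈ loc P P := by
  have hsq := bn_sq D i
  rw [Subgroup.mem_normalizer_iff] at hsq
  have hs : ∀ v : G, v ∈ P ↔
      (D.n i : G) * ((D.n i : G) * v * (D.n i : G)⁻¹) * (D.n i : G)⁻¹ ∈ P := by
    intro v
    have h1 : (D.n i : G) * ((D.n i : G) * v * (D.n i : G)⁻¹) * (D.n i : G)⁻¹ =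
        (D.n i : G) * D.n i * v * ((D.n i : G) * D.n i)⁻¹ := by group
    rw [h1]
    exact hsq v
  have hQ : ∀ v : G, v ∈ P ⊓ P.comap (MulAut.conj (D.n i : G)).toMonoidHom ↔
      v ∈ P ∧ (D.n i : G) * v * (D.n i : G)⁻¹ ∈ P := fun v => Iff.rfl
  have hn : (D.n i : G) ∈ Subgroup.normalizer
      ((P ⊓ P.comap (MulAut.conj (D.n i : G)).toMonoidHom : Subgroup G) : Set G) := by
    rw [Subgroup.mem_normalizer_iff]
    intro v
    rw [hQ, hQ, ← hs v]
    exact And.comm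
  have hle : ⁅P, P⁆ ≤ P ⊓ P.comap (MulAut.conj (D.n i : G)).toMonoidHom := by
    intro u hu
    rw [hQ]
    exact ⟨Subgroup.commutator_le_self P hu, hi u hu⟩
  unfold loc
  have h2 := le_iSup₂_of_le (f := fun (Q : Subgroup G)
    (_ : Q ∈ {Q : Subgroup G | ⁅P, P⁆ ≤ Q ∧ Q ≤ P}) => Subgroup.normalizer (Q : Set G))
    (P ⊓ P.comap (MulAut.conj (D.n i : G)).toMonoidHom) ⟨hle, inf_le_left⟩ le_rfl
  exact h2 hn

theorem bn_top (K : Subgroup G) (hB : Subgroup.normalizer (P : Set G) ≤ K)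
    (hn : ∀ i, (D.n i : G) ∈ K) : K = ⊤ := by
  have key : ∀ w : D.W, ∀ m : D.N, D.π m = w → (m : G) ∈ K := by
    intro w
    refine D.ind (q := fun w => ∀ m : D.N, D.π m = w → (m : G) ∈ K) ?_ ?_ w
    · intro m hm
      exact hB ((D.ker m).1 hm)
    · intro w i ih m hm
      have h1 : D.π ((D.n i)⁻¹ * m) = w := by
        rw [map_mul, map_inv, D.n_simple, hm, inv_mul_cancel_left]
      have h3 : (D.n i : G)⁻¹ * (m : G) ∈ K := ih _ h1
      have h4 : (m : G) = (D.n i : G) * ((D.n i : G)⁻¹ * (m : G)) := by group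
      rw [h4]
      exact K.mul_mem (hn i) h3
  rw [eq_top_iff, ← D.gen]
  exact sup_le hB fun m hm => key _ ⟨m, hm⟩ rfl

end Pool.Agent.H.MP_7d3ffc_al.LC
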