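import Pool.Agent.H.MP_7d3ffc_al.LC.BnD

/-!
# Module LC/Bnb: the Bruhat decomposition and reduced products

* `bn_bruhat`: the set `E` of the `c * m * d` (`c, d ∈ B = N_G(P)`, `m ∈ N`) is stable under left multiplication by
  `B` and by the `n i` (`bn`), so by `N` (every `m ∈ N` is a product of the `n i` and an element of the
  kernel: `D.ind` on `π m`), so by `B ⊔ N = ⊤` (`gen`,
  `Subgroup.closure_induction` for the union, or the stabilizer of `E` under left multiplication as a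
  subgroup); it contains `1`.
* `bn_all`: let `S` be as in the statement. Claim: `(m : G) ∈ S` for all `m : D.N`, by induction on
  `D.len (D.π m)`. If `π m = 1` then `m ∈ B ≤ K ⊆ S`. Otherwise there is `i` with
  `len (s i * π m) < len (π m)` (`len_lt`); `m' = (n i)⁻¹ * m`,
  `π m' = s i * π m`, `len (s i * π m') = len (π m) > len (π m')`. `m' ∈ S` by induction. If
  `n i ∈ K` then `m = n i * m' ∈ S` by `hK`. Otherwise `i = a` (`ha`) and `hprod` applies to `n a` and `m'`: for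
  `u ∈ P` take `v, x` from `dec`: `u = v * x`, `n a * v * (n a)⁻¹ ∈ P`, and
  `m'⁻¹ * x * m' ∈ P` by `root`. Then `bn_bruhat` and `hK`.
-/

namespace Pool.Agent.H.MP_7d3ffc_al.LC

variable {G : Type*} [Group G] {P : Subgroup G} (D : SplitBN P)

theorem bn_bruhat (g : G) : ∃ c ∈ Subgroup.normalizer (P : Set G), ∃ m : D.N,
    ∃ d ∈ Subgroup.normalizer (P : Set G), g = c * m * d := by
  obtain ⟨E, hE⟩ : ∃ E : G → Prop, ∀ g, E g ↔ ∃ c ∈ Subgroup.normalizer (P : Set G), ∃ m : D.N,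
    ∃ d ∈ Subgroup.normalizer (P : Set G), g = c * m * d := ⟨_, fun g => Iff.rfl⟩
  rw [← hE]
  have h1 : ∀ b ∈ Subgroup.normalizer (P : Set G), ∀ g, E g → E (b * g) := by
    intro b hb g hg
    obtain ⟨c, hc, m, d, hd, rfl⟩ := (hE g).1 hg
    exact (hE _).2 ⟨b * c, mul_mem hb hc, m, d, hd, by simp only [mul_assoc]⟩
  have h2 : ∀ i, ∀ g, E g → E ((D.n i : G) * g) := by
    intro i g hg
    obtain ⟨c, hc, m, d, hd, rfl⟩ := (hE g).1 hg
    obtain ⟨c', hc', d', hd', h | h⟩ := D.bn i c hc m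
    · refine (hE _).2 ⟨c', hc', m, d' * d, mul_mem hd' hd, ?_⟩
      rw [← mul_assoc, ← mul_assoc, h, mul_assoc (c' * (m : G))]
    · refine (hE _).2 ⟨c', hc', D.n i * m, d' * d, mul_mem hd' hd, ?_⟩
      rw [← mul_assoc, ← mul_assoc, h, mul_assoc (c' * ((D.n i : G) * m))]
      rfl
  have h3 : ∀ w : D.W, ∀ m : D.N, D.π m = w → ∀ g, E g → E ((m : G) * g) := by
    intro w
    refine D.ind
      (q := fun w => ∀ m : D.N, D.π m = w → ∀ g, E g → E ((m : G) * g)) ?_ ?_ w
    · intro m hm g hg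
      exact h1 _ ((D.ker m).1 hm) g hg
    · intro w i ih m hm g hg
      have h4 : D.π ((D.n i)⁻¹ * m) = w := by
        rw [map_mul, map_inv, D.n_simple, hm, inv_mul_cancel_left]
      have h5 := h2 i _ (ih _ h4 g hg)
      have h6 : (D.n i : G) * ((((D.n i)⁻¹ * m : D.N) : G) * g) = (m : G) * g := by
        rw [Subgroup.coe_mul, Subgroup.coe_inv, mul_assoc, mul_inv_cancel_left]
      rwa [h6] at h5
  let T : Subgroup G :=
    { carrier := {x | (∀ g, E g → E (x * g)) ∧ ∀ g, E g → E (x⁻¹ * g)}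
      mul_mem' := by
        rintro x y ⟨hx, hx'⟩ ⟨hy, hy'⟩
        refine ⟨fun g hg => ?_, fun g hg => ?_⟩
        · rw [mul_assoc]
          exact hx _ (hy _ hg)
        · rw [mul_inv_rev, mul_assoc]
          exact hy' _ (hx' _ hg)
      one_mem' := by
        refine ⟨fun g hg => ?_, fun g hg => ?_⟩
        · rwa [one_mul]
        · rwa [inv_one, one_mul]
      inv_mem' := by
        rintro x ⟨hx, hx'⟩
        refine ⟨hx', fun g hg => ?_⟩
        rw [inv_inv]
        exact hx _ hg }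
  have h4 : (⊤ : Subgroup G) ≤ T := by
    rw [← D.gen]
    refine sup_le ?_ ?_
    · exact fun b hb => ⟨h1 b hb, h1 _ (inv_mem hb)⟩
    · exact fun m hm => ⟨h3 _ ⟨m, hm⟩ rfl, h3 _ ⟨m⁻¹, inv_mem hm⟩ rfl⟩
  have h5 : E 1 := (hE 1).2 ⟨1, one_mem _, 1, 1, one_mem _, by
    rw [Subgroup.coe_one, mul_one, mul_one]⟩
  have h6 := (h4 (Subgroup.mem_top g)).1 1 h5
  rwa [mul_one] at h6

theorem bn_all (K : Subgroup G) (hB : Subgroup.normalizer (P : Set G) ≤ K) (a : D.I)
    (ha : ∀ i, i ≠ a → (D.n i : G) ∈ K) (S : Set G) (hS : (K : Set G) ⊆ S)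
    (haS : (D.n a : G) ∈ S) (hK : ∀ k ∈ K, ∀ s ∈ S, k * s ∈ S ∧ s * k ∈ S)
    (hprod : ∀ x ∈ S, ∀ y ∈ S, (∀ m ∈ P, ∃ u ∈ P, ∃ v ∈ P, m = u * v ∧ x * u * x⁻¹ ∈ P ∧
      y⁻¹ * v * y ∈ P) → x * y ∈ S) : S = Set.univ := by
  have key : ∀ (k : ℕ) (m : D.N), D.len (D.π m) = k → (m : G) ∈ S := by
    intro k
    induction k using Nat.strong_induction_on with
    | _ k ih =>
      intro m hm
      by_cases h1 : D.π m = 1
      · exact hS (hB ((D.ker m).1 h1))
      · obtain ⟨i, hi'⟩ := D.len_lt _ h1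
        have h2 : D.π ((D.n i)⁻¹ * m) = D.s i * D.π m := by
          rw [map_mul, map_inv, D.n_simple, inv_eq_of_mul_eq_one_right (D.s_sq i)]
        have h3 : (((D.n i)⁻¹ * m : D.N) : G) ∈ S :=
          ih _ (by rw [← hm]; exact hi') _ (by rw [h2])
        have h4 : (D.n i : G) * (((D.n i)⁻¹ * m : D.N) : G) = m := by
          rw [Subgroup.coe_mul, Subgroup.coe_inv, mul_inv_cancel_left]
        by_cases hia : i = a
        · subst hia
          rw [← h4]
          refine hprod _ haS _ h3 fun u hu => ?_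
          obtain ⟨v, hv, x, hx, h5, h6⟩ := D.dec i u hu
          refine ⟨v, hv, x, D.X_le i hx, h5, h6, ?_⟩
          refine D.root i _ ?_ x hx
          rw [h2, ← mul_assoc, D.s_sq, one_mul]
          exact hi'
        · rw [← h4]
          exact (hK _ (ha i hia) _ h3).1
  refine Set.eq_univ_of_forall fun g => ?_
  obtain ⟨c, hc, m, d, hd, rfl⟩ := bn_bruhat D g
  exact (hK d (hB hd) _ (hK c (hB hc) _ (key _ m rfl)).1).2

end Pool.Agent.H.MP_7d3ffc_al.LC
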