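import Pool.Agent.H.MP_7d3ffc_al.LC.BnD

/-!
# Module LC/Bnc: the Frattini argument in a group with a split BN-pair

`P` a Sylow subgroup, `N_G(P) ≤ K`, `h ∈ N`. Let `K0 = ⨆ k ∈ K, MulAut.conj k • P ≤ K` (it contains `P`). For
`k ∈ K` the subgroups `P` and `MulAut.conj k • P` of `K0` are Sylow subgroups of `K0` (Sylow in `G`), so
`MulAut.conj k • P = MulAut.conj k0 • P` with `k0 ∈ K0`, so `k0⁻¹ * k ∈ N_G(P)` and `k0⁻¹ * k = u * t` with
`u ∈ P`, `t ∈ T = N ∩ N_G(P)` (`split`). `t` is in `K`, and `h t h⁻¹`, `h⁻¹ t h` are in `T ≤ K` (`T` is the kernel of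
`π`, normal in `N`). So `k = k0 * u * t` is in the right hand side.
-/

namespace Pool.Agent.H.MP_7d3ffc_al.LC

open scoped Pointwise

theorem Bnc_conj {G : Type*} [Group G] (K : Subgroup G) (h t : G) :
    t ∈ MulAut.conj h • K ↔ h⁻¹ * t * h ∈ K := by
  rw [Subgroup.mem_pointwise_smul_iff_inv_smul_mem, ← map_inv, MulAut.smul_def,
    MulAut.conj_apply, inv_inv]

theorem bn_frat {G : Type*} [Group G] [Finite G] {p : ℕ} [Fact p.Prime] (P : Sylow p G)
    (D : SplitBN (P : Subgroup G)) (K : Subgroup G)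
    (hB : Subgroup.normalizer ((P : Subgroup G) : Set G) ≤ K) (h : D.N) :
    K ≤ (⨆ k ∈ K, MulAut.conj k • (P : Subgroup G)) ⊔
      (K ⊓ MulAut.conj (h : G) • K ⊓ MulAut.conj (h : G)⁻¹ • K) := by
  intro k hk
  obtain ⟨K0, hK0⟩ : ∃ K0 : Subgroup G, K0 = ⨆ k ∈ K, MulAut.conj k • (P : Subgroup G) := ⟨_, rfl⟩
  rw [← hK0]
  have hle : ∀ l ∈ K, ((l • P : Sylow p G) : Subgroup G) ≤ K0 := by
    intro l hl
    rw [hK0]
    exact le_iSup₂_of_le (f := fun (k : G) (_ : k ∈ K) => MulAut.conj k • (P : Subgroup G)) l hl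
      le_rfl
  have hP : (P : Subgroup G) ≤ K0 := by
    have h1 := hle 1 K.one_mem
    rwa [one_smul] at h1
  obtain ⟨k0, hk0⟩ := MulAction.exists_smul_eq K0 (P.subtype hP) ((k • P).subtype (hle k hk))
  rw [Sylow.smul_subtype] at hk0
  have h1 : (k0 : G) • P = k • P := Sylow.subtype_injective hk0
  have h2 : (k0 : G)⁻¹ * k ∈ Subgroup.normalizer ((P : Subgroup G) : Set G) := by
    refine Sylow.smul_eq_iff_mem_normalizer.1 ?_
    rw [mul_smul, ← h1, inv_smul_smul]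
  obtain ⟨u, hu, t, htN, htB, hut⟩ := D.split _ h2
  have ht1 : D.π ⟨t, htN⟩ = 1 := (D.ker ⟨t, htN⟩).2 htB
  have hconj : ∀ m : D.N, (m : G)⁻¹ * t * m ∈ K := by
    intro m
    have h3 : D.π (m⁻¹ * ⟨t, htN⟩ * m) = 1 := by
      rw [map_mul, map_mul, ht1, mul_one, ← map_mul, inv_mul_cancel, map_one]
    exact hB ((D.ker _).1 h3)
  have e : k = (k0 : G) * u * t := by
    rw [mul_assoc, ← hut, mul_inv_cancel_left]
  rw [e]
  refine Subgroup.mul_mem _ (Subgroup.mul_mem _ ?_ ?_) ?_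
  · exact Subgroup.mem_sup_left k0.2
  · exact Subgroup.mem_sup_left (hP hu)
  · refine Subgroup.mem_sup_right ?_
    refine ⟨⟨hB htB, ?_⟩, ?_⟩
    · exact (Bnc_conj K (h : G) t).2 (hconj h)
    · refine (Bnc_conj K (h : G)⁻¹ t).2 ?_
      have h3 := hconj h⁻¹
      rwa [InvMemClass.coe_inv] at h3

end Pool.Agent.H.MP_7d3ffc_al.LC
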