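import Pool.Agent.H.MP_7d3ffc_al.LC.BnD
import Pool.Agent.H.MP_7d3ffc_al.LC.Cor

/-!
# Module LC/Bnd: the condition `IsExt` and the commutative quotient in a group with a split BN-pair

* `bn_ab`: `a = u * s`, `b = v * t` with `u, v ∈ P`, `s, t ∈ T` (`split`); `P` is normal in `N_G(P)` and `s, t` commute.
* `bn_ext`: `h = n a`, `K` a subgroup with `N_G(P) ≤ K` and `h ∉ K`. `h * h ∈ N_G(P)` (`hsq`). Suppose
  `P' ⊔ (P ⊓ h K h⁻¹) = P`. By `Cor_sup` (module LC/Cor) `P ⊓ h K h⁻¹ = P`, i.e. `h⁻¹ P h ≤ K`. By `ne` there is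
  `b ∈ N_G(P)` with `h * b * h⁻¹ ∉ N_G(P)`; `b = u * t` (`split`), `h * t * h⁻¹ ∈ N_G(P)` (kernel of `π`), so
  `g = h * u * h⁻¹ ∉ N_G(P)`. `g = h * h * (h⁻¹ * u * h) * (h * h)⁻¹ ∈ K`. By `bn` for `u` and `m = h⁻¹`:
  `g = c * h⁻¹ * d` or `g = c * (h * h⁻¹) * d`; the second is impossible (`g ∉ N_G(P)`), so
  `h⁻¹ = c⁻¹ * g * d⁻¹ ∈ K`, a contradiction.
-/

namespace Pool.Agent.H.MP_7d3ffc_al.LC

open scoped Pointwise

theorem bn_ab {G : Type*} [Group G] {P : Subgroup G} (D : SplitBN P)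
    (hT : ∀ s ∈ D.N, ∀ t ∈ D.N, s ∈ Subgroup.normalizer (P : Set G) →
      t ∈ Subgroup.normalizer (P : Set G) → s * t = t * s) (a : G)
    (ha : a ∈ Subgroup.normalizer (P : Set G)) (b : G)
    (hb : b ∈ Subgroup.normalizer (P : Set G)) : a * b * a⁻¹ * b⁻¹ ∈ P := by
  obtain ⟨u, hu, s, hsN, hs, rfl⟩ := D.split a ha
  obtain ⟨v, hv, t, htN, ht, rfl⟩ := D.split b hb
  have h1 : s * v * s⁻¹ ∈ P := (Subgroup.mem_normalizer_iff.1 hs v).1 hv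
  have h2 : t * u⁻¹ * t⁻¹ ∈ P := (Subgroup.mem_normalizer_iff.1 ht u⁻¹).1 (inv_mem hu)
  have h3 : s * t = t * s := hT s hsN t htN hs ht
  have h5 : s * t * s⁻¹ = t := by
    rw [h3]
    group
  have h4 : u * s * (v * t) * (u * s)⁻¹ * (v * t)⁻¹ =
      u * (s * v * s⁻¹) * (t * u⁻¹ * t⁻¹) * v⁻¹ := by
    calc u * s * (v * t) * (u * s)⁻¹ * (v * t)⁻¹
        = u * (s * v * s⁻¹) * (s * t * s⁻¹) * u⁻¹ * t⁻¹ * v⁻¹ := by group
      _ = u * (s * v * s⁻¹) * (t * u⁻¹ * t⁻¹) * v⁻¹ := by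
        rw [h5]
        group
  rw [h4]
  exact mul_mem (mul_mem (mul_mem hu h1) h2) (inv_mem hv)

theorem bn_ext {G : Type*} [Group G] [Finite G] {p : ℕ} [Fact p.Prime] (P : Subgroup G)
    (hP : IsPGroup p P) (D : SplitBN P) (K : Subgroup G)
    (hB : Subgroup.normalizer (P : Set G) ≤ K) (a : D.I)
    (hsq : (D.n a : G) * D.n a ∈ Subgroup.normalizer (P : Set G)) (ha : (D.n a : G) ∉ K) :
    ⁅P, P⁆ ⊔ (P ⊓ MulAut.conj (D.n a : G) • K) ≠ P := by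
  intro heq
  have h1 : P ⊓ MulAut.conj (D.n a : G) • K = P := Cor_sup P _ hP inf_le_left heq
  have h2 : ∀ x ∈ P, (D.n a : G)⁻¹ * x * (D.n a : G) ∈ K := by
    intro x hx
    rw [← h1] at hx
    obtain ⟨y, hy, hxy⟩ := (Subgroup.mem_smul_pointwise_iff_exists _ _ _).1 hx.2
    rw [MulAut.smul_def, MulAut.conj_apply] at hxy
    have h3 : (D.n a : G)⁻¹ * x * (D.n a : G) = y := by
      rw [← hxy]
      group
    rw [h3]
    exact hy
  obtain ⟨b, hb, hb2⟩ := D.ne a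
  obtain ⟨u, hu, t, htN, ht, rfl⟩ := D.split b hb
  have h4 : (D.n a : G) * t * (D.n a : G)⁻¹ ∈ Subgroup.normalizer (P : Set G) := by
    have h5 : D.π ⟨t, htN⟩ = 1 := (D.ker ⟨t, htN⟩).2 ht
    have h6 : D.π (D.n a * ⟨t, htN⟩ * (D.n a)⁻¹) = 1 := by
      rw [map_mul, map_mul, h5, mul_one, map_inv, mul_inv_cancel]
    exact (D.ker _).1 h6
  have h7 : (D.n a : G) * u * (D.n a : G)⁻¹ ∉ Subgroup.normalizer (P : Set G) := by
    intro h8
    apply hb2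
    have h9 := mul_mem h8 h4
    have h10 : (D.n a : G) * u * (D.n a : G)⁻¹ * ((D.n a : G) * t * (D.n a : G)⁻¹) =
        (D.n a : G) * (u * t) * (D.n a : G)⁻¹ := by group
    rwa [h10] at h9
  have h11 : (D.n a : G) * u * (D.n a : G)⁻¹ ∈ K := by
    have h12 := mul_mem (mul_mem (hB hsq) (h2 u hu)) (inv_mem (hB hsq))
    have h13 : (D.n a : G) * D.n a * ((D.n a : G)⁻¹ * u * (D.n a : G)) *
        ((D.n a : G) * D.n a)⁻¹ = (D.n a : G) * u * (D.n a : G)⁻¹ := by group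
    rwa [h13] at h12
  obtain ⟨c, hc, d, hd, h14 | h14⟩ := D.bn a u (Subgroup.le_normalizer hu) (D.n a)⁻¹
  · apply ha
    have h15 : (((D.n a)⁻¹ : D.N) : G) = (D.n a : G)⁻¹ := rfl
    rw [h15] at h14
    rw [h14] at h11
    have h16 := mul_mem (mul_mem (inv_mem (hB hc)) h11) (inv_mem (hB hd))
    have h17 : c⁻¹ * (c * (D.n a : G)⁻¹ * d) * d⁻¹ = (D.n a : G)⁻¹ := by group
    rw [h17] at h16
    exact inv_mem_iff.1 h16
  · apply h7
    have h15 : (((D.n a)⁻¹ : D.N) : G) = (D.n a : G)⁻¹ := rfl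
    rw [h15, mul_inv_cancel, mul_one] at h14
    rw [h14]
    exact mul_mem hc hd

end Pool.Agent.H.MP_7d3ffc_al.LC
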