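import Pool.Agent.H.MP_7d3ffc_al.LC.Bna
import Pool.Agent.H.MP_7d3ffc_al.LC.Bnb
import Pool.Agent.H.MP_7d3ffc_al.LC.Bnc
import Pool.Agent.H.MP_7d3ffc_al.LC.Bnd

/-!
# Module LC/Bne: Q1 for groups with a split BN-pair
-/

namespace Pool.Agent.H.MP_7d3ffc_al.LC

open Pool.Agent.H.MP_7d3ffc_al Pool.Agent.H.MP_7d3ffc_al.DC Pool.Agent.H.MP_7d3ffc_al.DF Module
open scoped Pointwise

variable {G : Type*} [Group G] [Finite G] {V : Type*} [AddCommGroup V] [Module ℂ V]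
  [FiniteDimensional ℂ V] {p : ℕ} [Fact p.Prime]

theorem of_bn (P : Sylow p G) (D : SplitBN (P : Subgroup G))
    (horb : ∀ μ : (P : Subgroup G) →* ℂˣ, μ ≠ 1 →
      p ≤ {ν : (P : Subgroup G) →* ℂˣ | ∃ g ∈ Subgroup.normalizer ((P : Subgroup G) : Set G),
        ∀ x y : (P : Subgroup G), (y : G) = g * x * g⁻¹ → ν x = μ y}.ncard)
    (hbad : ∀ i j, i ≠ j →
      (∀ u ∈ ⁅(P : Subgroup G), (P : Subgroup G)⁆, (D.n i : G) * u * (D.n i : G)⁻¹ ∈
        (P : Subgroup G)) ∨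
      ∀ u ∈ ⁅(P : Subgroup G), (P : Subgroup G)⁆, (D.n j : G) * u * (D.n j : G)⁻¹ ∈
        (P : Subgroup G))
    (hT : p ≠ 2 ∨ ∀ s ∈ D.N, ∀ t ∈ D.N,
      s ∈ Subgroup.normalizer ((P : Subgroup G) : Set G) →
      t ∈ Subgroup.normalizer ((P : Subgroup G) : Set G) → s * t = t * s)
    (ρ : Representation ℂ G V) (hρ : ρ.IsIrreducible) (hd : p ∣ finrank ℂ V)
    (hne : (Lin ρ (P : Subgroup G)).Nonempty) : p ≤ (Lin ρ (P : Subgroup G)).ncard := by
  have hNK := Cor_le_loc (P : Subgroup G)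
  have hPN : (P : Subgroup G) ≤ Subgroup.normalizer ((P : Subgroup G) : Set G) :=
    Subgroup.le_normalizer
  refine crit3 P (fun L hL1 hL2 hL3 => ?_) ρ hρ hd hne
  have hone := Cor_one _ horb L hL2 hL3
  have hck := Cor_cker _ L hone
  have hmem : (1 : (P : Subgroup G) →* ℂˣ) ∈ L := by
    obtain ⟨μ, hμ⟩ := hL1
    rw [← hone μ hμ]
    exact hμ
  have hlo := Cor_locOne (P : Subgroup G) L hone
  unfold Good
  rw [hck, hlo]
  by_cases hall : ∀ i, (D.n i : G) ∈ loc (P : Subgroup G) (P : Subgroup G)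
  · exact Or.inl (bn_top D _ hNK hall)
  push Not at hall
  obtain ⟨a, ha⟩ := hall
  have hgood : ∀ i, i ≠ a → (D.n i : G) ∈ loc (P : Subgroup G) (P : Subgroup G) := by
    intro i hi
    rcases hbad i a hi with h1 | h1
    · exact bn_good D i h1
    · exact absurd (bn_good D a h1) ha
  have hsq := bn_sq D a
  have hba : ∀ u ∈ (P : Subgroup G), (D.n a : G) * u * D.n a ∈
      loc (P : Subgroup G) (P : Subgroup G) ∨
      ∃ k ∈ loc (P : Subgroup G) (P : Subgroup G), ∃ k' ∈ loc (P : Subgroup G) (P : Subgroup G),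
        (D.n a : G) * u * D.n a = k * D.n a * k' := by
    intro u hu
    obtain ⟨c, hc, d, hd, h1 | h1⟩ := D.bn a u (hPN hu) (D.n a)
    · exact Or.inr ⟨c, hNK hc, d, hNK hd, h1⟩
    · refine Or.inl ?_
      rw [h1]
      exact mul_mem (mul_mem (hNK hc) (hNK hsq)) (hNK hd)
  have htwo : IsTwo (P : Subgroup G) (loc (P : Subgroup G) (P : Subgroup G)) ∅ (D.n a : G) := by
    refine ⟨bn_frat P D _ hNK (D.n a), fun m hm => ?_, ?_⟩
    · rcases hba m hm with h1 | h1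
      · exact Or.inl h1
      · exact Or.inr (Or.inl h1)
    · exact fun S hS1 hS2 _ hS3 hS4 => bn_all D _ hNK a hgood S hS1 hS2 hS3 hS4
  rcases hT with hp2 | hT
  · refine Or.inr (Or.inr (Or.inl ⟨hp2, D.n a, htwo.1, fun m hm => ?_, ?_⟩))
    · rcases hba m hm with h1 | h1
      · exact Or.inl h1
      · exact Or.inr (Or.inl h1)
    · exact fun S hS1 hS2 _ hS3 hS4 => htwo.2.2 S hS1 hS2 (Set.empty_subset _) hS3 hS4
  refine Or.inr (Or.inr (Or.inr ⟨hmem, fun x hx y hy => bn_ab D hT x hx y hy,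
    fun g => ⟨1, ?_⟩, D.n a, htwo, ?_, bn_ext (p := p) (P : Subgroup G) P.isPGroup' D _ hNK a
      hsq ha⟩))
  · rw [map_one, one_smul]
    exact le_sup_left
  · intro u hu
    have h2 : (D.n a : G)⁻¹ * u * D.n a = ((D.n a : G) * D.n a)⁻¹ * ((D.n a : G) * u * D.n a) := by
      group
    rw [h2]
    rcases hba u hu with h1 | ⟨k, hk, k', hk', h1⟩
    · exact Or.inl (mul_mem (inv_mem (hNK hsq)) h1)
    · refine Or.inr ⟨((D.n a : G) * D.n a)⁻¹ * k, mul_mem (inv_mem (hNK hsq)) hk, k', hk', ?_⟩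
      rw [h1]
      simp only [mul_assoc]

end Pool.Agent.H.MP_7d3ffc_al.LC
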