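import Pool.Agent.H.MP_7d3ffc_al.LC.Two

/-!
# Module LC/Ext: a nontrivial linear constituent in the case of two double cosets, `M = P`

* `exists_nu`: `N = ⁅P, P⁆ ⊔ D` is a proper subgroup of `P` which contains the commutator subgroup; pull
  it back to `P` (`Subgroup.subgroupOf`): it is normal, the quotient is a nontrivial finite commutative group,
  which has a nontrivial homomorphism to `ℂˣ`
  (`CommGroup.exists_apply_ne_one_of_hasEnoughRootsOfUnity`, see the proof of `sum_linear_characters` in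
  module Lin or `exists_extension` in module ThmC); compose it with the quotient map.
* `ext_case`: let `e = av ρ P`, `X = fixSp ρ P`, `X1' = e ρ(h) X1`; `X` is the direct sum of `X1` and `X1'`
  (`two_top` with `M = P`, `Z = ∅`, and the hypothesis `h5`). Let `q : V → V` be linear with `q ∘ e = q`,
  `q x = x` for `x ∈ X1` and `q x = 0` for `x ∈ X1'` (compose `e` with the projection of `X` to `X1` along
  `X1'`, or extend: `LinearMap.exists_extend`; e.g. take a complement). For `g = k h k'` and `x ∈ X1`: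
  `e (ρ g x) = ρ k (e ρ h (ρ k' x)) ∈ X1'` (`two_stab`), so `q (ρ g x) = 0`. For an element `g ∈ K` whose order
  is a power of `p` and `x ∈ X`: `ρ g x = x`: `P` is a Sylow subgroup of `K`, so a `K`-conjugate of `g` is in
  `P` and `X` is `K`-stable. Let `D = P ⊓ MulAut.conj h • K`, `ν` from `exists_nu`, `0 ≠ x ∈ X1`,
  `z = ∑ u : P, ν(u)⁻¹ ρ(u) (ρ h x)` (up to a scalar `proj ρ P ν (ρ h x)`). Then
  `q (ρ h⁻¹ z) = ∑ u, ν(u)⁻¹ q (ρ (h⁻¹ u h) x)`. If `u ∈ D` the term is `q x = x` (`ν u = 1`, and `h⁻¹ u h` is in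
  `K` of `p`-power order); if `u ∉ D` then `h⁻¹ u h ∉ K`, so it is in `K h K` by `h6` and the term is `0`. So
  the sum is `|D| x ≠ 0`, `z ≠ 0`, and `z` is an eigenvector for `ν` (`rho_proj`): `ν ∈ Lin ρ P`.
-/

namespace Pool.Agent.H.MP_7d3ffc_al.LC

open Pool.Agent.H.MP_7d3ffc_al Pool.Agent.H.MP_7d3ffc_al.DC Pool.Agent.H.MP_7d3ffc_al.DF Module
open scoped Pointwise

variable {G : Type*} [Group G]

variable [Finite G]

theorem exists_nu (P D : Subgroup G) (hD : D ≤ P) (h : ⁅P, P⁆ ⊔ D ≠ P) :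
    ∃ ν : P →* ℂˣ, ν ≠ 1 ∧ ∀ u : P, (u : G) ∈ D → ν u = 1 := by
  classical
  have hle : ⁅P, P⁆ ⊔ D ≤ P := sup_le (Subgroup.commutator_le.mpr fun a ha b hb =>
    P.mul_mem (P.mul_mem (P.mul_mem ha hb) (P.inv_mem ha)) (P.inv_mem hb)) hD
  have hx : ∃ x : P, (x : G) ∉ ⁅P, P⁆ ⊔ D := by
    by_contra hcon
    push Not at hcon
    exact h (le_antisymm hle fun y hy => hcon ⟨y, hy⟩)
  obtain ⟨x, hx⟩ := hx
  let N : Subgroup P := (⁅P, P⁆ ⊔ D).subgroupOf P
  let H : Subgroup (Abelianization P) := N.map Abelianization.of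
  have hcN : commutator P ≤ N := by
    intro y hy
    have h1 : (y : G) ∈ (commutator P).map P.subtype := Subgroup.mem_map_of_mem P.subtype hy
    have h2 : (commutator P).map P.subtype = ⁅P, P⁆ := by
      rw [commutator_def, Subgroup.map_commutator, ← MonoidHom.range_eq_map, Subgroup.range_subtype]
    rw [h2] at h1
    exact Subgroup.mem_subgroupOf.mpr (Subgroup.mem_sup_left h1)
  have hne : (QuotientGroup.mk (Abelianization.of x) : Abelianization P ⧸ H) ≠ 1 := by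
    intro h1
    have h2 : Abelianization.of x ∈ H := (QuotientGroup.eq_one_iff _).mp h1
    obtain ⟨n, hn, hnx⟩ := Subgroup.mem_map.mp h2
    have h3 : Abelianization.of (n⁻¹ * x) = 1 := by
      rw [map_mul, map_inv, hnx, inv_mul_cancel]
    have h4 : n⁻¹ * x ∈ commutator P := (QuotientGroup.eq_one_iff _).mp h3
    have h5 : x ∈ N := by
      have h6 := N.mul_mem hn (hcN h4)
      rwa [mul_inv_cancel_left] at h6
    exact hx (Subgroup.mem_subgroupOf.mp h5)
  obtain ⟨φ, hφ⟩ :=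
    CommGroup.exists_apply_ne_one_of_hasEnoughRootsOfUnity (Abelianization P ⧸ H) ℂ hne
  refine ⟨(φ.comp (QuotientGroup.mk' H)).comp Abelianization.of, fun h1 => ?_, fun u hu => ?_⟩
  · exact hφ (DFunLike.congr_fun h1 x)
  · have h2 : Abelianization.of u ∈ H :=
      Subgroup.mem_map_of_mem _ (Subgroup.mem_subgroupOf.mpr (Subgroup.mem_sup_right hu))
    have h3 : (QuotientGroup.mk' H) (Abelianization.of u) = 1 := (QuotientGroup.eq_one_iff _).mpr h2
    change φ ((QuotientGroup.mk' H) (Abelianization.of u)) = 1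
    rw [h3, map_one]

private theorem Ext_conj {p : ℕ} [Fact p.Prime] (P : Sylow p G) (K : Subgroup G)
    (hPK : (P : Subgroup G) ≤ K) {g : G} (hg : g ∈ K) {n : ℕ} (hn : g ^ p ^ n = 1) :
    g ∈ ⨆ k ∈ K, MulAut.conj k • (P : Subgroup G) := by
  let g' : K := ⟨g, hg⟩
  have hg' : g' ^ p ^ n = 1 := Subtype.ext hn
  have hp : IsPGroup p (Subgroup.zpowers g') := by
    rintro ⟨y, hy⟩
    obtain ⟨j, hj⟩ := Subgroup.mem_zpowers_iff.mp hy
    refine ⟨n, Subtype.ext ?_⟩
    change y ^ p ^ n = 1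
    rw [← hj, ← zpow_natCast, ← zpow_mul, mul_comm, zpow_mul, zpow_natCast, hg', one_zpow]
  obtain ⟨Q, hQ⟩ := hp.exists_le_sylow
  obtain ⟨k, hk⟩ := MulAction.exists_smul_eq K (P.subtype hPK) Q
  have h1 : g' ∈ (Q : Subgroup K) := hQ (Subgroup.mem_zpowers g')
  rw [← hk, Sylow.coe_subgroup_smul, Subgroup.mem_pointwise_smul_iff_inv_smul_mem] at h1
  have h2 : (k : G)⁻¹ * g * (k : G) ∈ (P : Subgroup G) := by
    have h3 : (((MulAut.conj k)⁻¹ • g' : K) : G) ∈ (P : Subgroup G) := h1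
    have h4 : (((MulAut.conj k)⁻¹ • g' : K) : G) = (k : G)⁻¹ * g * (k : G) := by
      rw [← map_inv]
      simp [g']
    rwa [h4] at h3
  refine Subgroup.mem_iSup_of_mem (k : G) (Subgroup.mem_iSup_of_mem k.2 ?_)
  rw [Subgroup.mem_pointwise_smul_iff_inv_smul_mem, ← map_inv]
  simpa [MulAut.smul_def, MulAut.conj_apply] using h2

/-- every character which is trivial on `P ∩ hKh⁻¹` occurs -/
theorem ext_all {V : Type*} [AddCommGroup V] [Module ℂ V] [FiniteDimensional ℂ V]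
    {p : ℕ} [Fact p.Prime] (P : Sylow p G) (ρ : Representation ℂ G V) (hρ : ρ.IsIrreducible)
    (K : Subgroup G) (hPK : (P : Subgroup G) ≤ K)
    (hc : ∀ k ∈ K, ∀ v, av ρ (P : Subgroup G) (ρ k v) = ρ k (av ρ (P : Subgroup G) v)) {h : G}
    (hh : IsTwo (P : Subgroup G) K ∅ h) (he : IsExt (P : Subgroup G) K h)
    (X1 : Submodule ℂ V) (h1 : X1 ≤ fixSp ρ (P : Subgroup G)) (h2 : X1 ≠ ⊥)
    (h3 : ∀ k ∈ K, ∀ x ∈ X1, ρ k x ∈ X1)
    (h5 : X1 ⊓ X1.map (av ρ (P : Subgroup G) ∘ₗ ρ h) = ⊥)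
    (ν : (P : Subgroup G) →* ℂˣ)
    (hν : ∀ u : (P : Subgroup G), (u : G) ∈ (P : Subgroup G) ⊓ MulAut.conj h • K → ν u = 1) :
    ν ∈ Lin ρ (P : Subgroup G) := by
  classical
  let _ : Fintype (P : Subgroup G) := Fintype.ofFinite _
  set e : V →ₗ[ℂ] V := av ρ (P : Subgroup G) with he0
  set X1' : Submodule ℂ V := X1.map (e ∘ₗ ρ h) with hX1'
  obtain ⟨W, hW, hWc⟩ := (disjoint_iff.mpr h5).symm.exists_isCompl
  let π : V →ₗ[ℂ] X1 := Submodule.projectionOnto X1 W hWc.symm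
  have hπ1 : ∀ x : V, x ∈ X1 → ((π x : X1) : V) = x := fun x hx => by
    have h7 := Submodule.projectionOnto_apply_left hWc.symm ⟨x, hx⟩
    exact congrArg Subtype.val h7
  have hπ2 : ∀ x : V, x ∈ X1' → π x = 0 := fun x hx =>
    Submodule.projectionOnto_apply_of_mem_right hWc.symm (hW hx)
  have hstab : ∀ k ∈ K, ∀ x ∈ X1', ρ k x ∈ X1' := two_stab ρ hPK hc hh X1 h1 h3
  have hK0 : ∀ k ∈ K, ∀ k' ∈ K, ∀ x ∈ X1, π (e (ρ (k * h * k') x)) = 0 := by
    intro k hk k' hk' x hx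
    rw [map_mul, map_mul, Module.End.mul_apply, Module.End.mul_apply, hc k hk]
    exact hπ2 _ (hstab k hk _ ⟨ρ k' x, h3 k' hk' x hx, rfl⟩)
  obtain ⟨x, hx, hx0⟩ := Submodule.exists_mem_ne_zero_of_ne_bot h2
  have hex : e x = x := av_self ρ _ (h1 hx)
  have hmemD : ∀ u : (P : Subgroup G), h⁻¹ * (u : G) * h ∈ K →
      (u : G) ∈ (P : Subgroup G) ⊓ MulAut.conj h • K := by
    intro u hu
    refine Subgroup.mem_inf.mpr ⟨u.2, ?_⟩
    rw [Subgroup.mem_pointwise_smul_iff_inv_smul_mem, ← map_inv]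
    simpa [MulAut.smul_def, MulAut.conj_apply] using hu
  have hDmem : ∀ u : (P : Subgroup G), (u : G) ∈ (P : Subgroup G) ⊓ MulAut.conj h • K →
      h⁻¹ * (u : G) * h ∈ K := by
    intro u hu
    have h7 := (Subgroup.mem_inf.mp hu).2
    rw [Subgroup.mem_pointwise_smul_iff_inv_smul_mem, ← map_inv] at h7
    simpa [MulAut.smul_def, MulAut.conj_apply] using h7
  have hterm : ∀ u : (P : Subgroup G), (((ν u)⁻¹ : ℂˣ) : ℂ) •
      ((π (e (ρ (h⁻¹ * (u : G) * h) x)) : X1) : V) =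
      if (u : G) ∈ (P : Subgroup G) ⊓ MulAut.conj h • K then x else 0 := by
    intro u
    split_ifs with hu
    · have hk : h⁻¹ * (u : G) * h ∈ K := hDmem u hu
      obtain ⟨n, hn⟩ := P.isPGroup' u
      have hn' : (u : G) ^ p ^ n = 1 := by
        rw [← Subgroup.coe_pow, hn, Subgroup.coe_one]
      have hpow : (h⁻¹ * (u : G) * h) ^ p ^ n = 1 := by
        have h8 := conj_pow (i := p ^ n) (a := h⁻¹) (b := (u : G))
        rw [inv_inv, hn'] at h8
        rw [h8]
        group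
      have h9 := conj_triv ρ hc (Ext_conj P K hPK hk hpow) (h1 hx)
      rw [h9, hex, hπ1 x hx, hν u hu, inv_one, Units.val_one, one_smul]
    · rcases he.1 (u : G) u.2 with h7 | ⟨k, hk, k', hk', h7⟩
      · exact absurd (hmemD u h7) hu
      · rw [h7, hK0 k hk k' hk' x hx, ZeroMemClass.coe_zero, smul_zero]
  set z : V := proj ρ (P : Subgroup G) ν (ρ h x) with hz
  have hqz : ((π (e (ρ h⁻¹ z)) : X1) : V) = (Nat.card (P : Subgroup G) : ℂ)⁻¹ •
      ((Finset.univ.filter fun u : (P : Subgroup G) =>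
        (u : G) ∈ (P : Subgroup G) ⊓ MulAut.conj h • K).card • x) := by
    have h7 : z = (Nat.card (P : Subgroup G) : ℂ)⁻¹ •
        ∑ u : (P : Subgroup G), (((ν u)⁻¹ : ℂˣ) : ℂ) • ρ (u : G) (ρ h x) := proj_apply ρ _ ν _
    rw [h7, map_smul, map_smul, map_smul, map_sum, map_sum, map_sum, Submodule.coe_smul,
      Submodule.coe_sum]
    congr 1
    rw [← Finset.sum_const, Finset.sum_filter]
    refine Finset.sum_congr rfl fun u _ => ?_
    have h11 : ρ h⁻¹ (ρ (u : G) (ρ h x)) = ρ (h⁻¹ * (u : G) * h) x := by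
      rw [map_mul, map_mul, Module.End.mul_apply, Module.End.mul_apply]
    rw [← hterm u, map_smul, map_smul, map_smul, Submodule.coe_smul, h11]
  have hz0 : z ≠ 0 := by
    intro h7
    rw [h7, map_zero, map_zero, map_zero, ZeroMemClass.coe_zero] at hqz
    have hcard : (Nat.card (P : Subgroup G) : ℂ) ≠ 0 := Nat.cast_ne_zero.mpr Nat.card_pos.ne'
    rcases smul_eq_zero.mp hqz.symm with h8 | h8
    · exact inv_ne_zero hcard h8
    · rw [← Nat.cast_smul_eq_nsmul ℂ] at h8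
      rcases smul_eq_zero.mp h8 with h9 | h9
      · have h10 : (Finset.univ.filter fun u : (P : Subgroup G) =>
            (u : G) ∈ (P : Subgroup G) ⊓ MulAut.conj h • K).card = 0 := Nat.cast_eq_zero.mp h9
        rw [Finset.card_eq_zero, Finset.filter_eq_empty_iff] at h10
        exact h10 (Finset.mem_univ (1 : (P : Subgroup G))) (one_mem _)
      · exact hx0 h9
  exact (mem_Lin_iff ρ _ ν).mpr ⟨z, hz0, fun u => rho_proj ρ _ ν _ u⟩

/-- a nontrivial character of a `p`-group has at least `p` powers -/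
theorem many {p : ℕ} [Fact p.Prime] (P : Sylow p G) (D : Subgroup G)
    (hD : D ≤ (P : Subgroup G)) (h : ⁅(P : Subgroup G), (P : Subgroup G)⁆ ⊔ D ≠ (P : Subgroup G))
    (L : Set ((P : Subgroup G) →* ℂˣ))
    (hL : ∀ ν : (P : Subgroup G) →* ℂˣ, (∀ u : (P : Subgroup G), (u : G) ∈ D → ν u = 1) →
      ν ∈ L) : p ≤ L.ncard := by
  have hp : p.Prime := Fact.out
  obtain ⟨ν, hν1, hν⟩ := exists_nu (P : Subgroup G) D hD h
  have h1 : ((Subgroup.zpowers ν : Subgroup ((P : Subgroup G) →* ℂˣ)) :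
      Set ((P : Subgroup G) →* ℂˣ)) ⊆ L := by
    rintro μ ⟨i, rfl⟩
    refine hL _ fun u hu => ?_
    change (ν ^ i) u = 1
    rw [MonoidHom.zpow_apply, hν u hu, one_zpow]
  have h2 : p ∣ orderOf ν := by
    obtain ⟨k, hk⟩ := P.isPGroup'.exists_card_eq
    have h3 : orderOf ν ∣ p ^ k := by
      refine orderOf_dvd_of_pow_eq_one ?_
      refine MonoidHom.ext fun u => ?_
      change (ν u) ^ p ^ k = 1
      rw [← map_pow, ← hk, pow_card_eq_one', map_one]
    obtain ⟨m, _, hm⟩ := (Nat.dvd_prime_pow hp).1 h3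
    rcases Nat.eq_zero_or_pos m with h4 | h4
    · rw [h4, pow_zero, orderOf_eq_one_iff] at hm
      exact absurd hm hν1
    · rw [hm]
      exact dvd_pow_self p h4.ne'
  have h3 : 0 < orderOf ν := orderOf_pos ν
  calc p ≤ orderOf ν := Nat.le_of_dvd h3 h2
    _ = Nat.card (Subgroup.zpowers ν) := (Nat.card_zpowers ν).symm
    _ = ((Subgroup.zpowers ν : Subgroup ((P : Subgroup G) →* ℂˣ)) :
      Set ((P : Subgroup G) →* ℂˣ)).ncard := rfl
    _ ≤ L.ncard := Set.ncard_le_ncard h1 (Set.toFinite _)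

end Pool.Agent.H.MP_7d3ffc_al.LC
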