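import Pool.Agent.H.MP_7d3ffc_al.LC.Bas

/-!
# Module LC/Lo: the stabilizer of the fixed points of `P`

`locOne P L` is generated by the normalizers of the `Q` with `P' ≤ Q ≤ P` such that no `μ ≠ 1` in `L` is trivial
on `Q`. Put `L = Lin ρ P`.
* `norm_le`: take `Q = P` (a character trivial on `P` is `1`).
* `fixOne_eq`: `fixSp_anti` gives one inclusion. Let `w ∈ fixSp ρ Q`; `w` is the sum of the `proj ρ P μ w`
  (`sum_proj_eq`, see the proof of `fix_eq` in module LC/Bas), and this is `0` for `μ ∉ Lin ρ P`. For `μ ≠ 1` in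
  `Lin ρ P` take `x ∈ Q` with `μ x ≠ 1`: `proj μ w = proj μ (ρ x w) = μ x • proj μ w` (`proj_rho`), so
  `proj μ w = 0`. So `w = proj 1 w` is fixed by `P` (`rho_proj`).
* `avOne_eq`, `locOne_comm`: as `av_eq`, `loc_comm` in module LC/Bas.
-/

namespace Pool.Agent.H.MP_7d3ffc_al.LC

open Pool.Agent.H.MP_7d3ffc_al Pool.Agent.H.MP_7d3ffc_al.DC Pool.Agent.H.MP_7d3ffc_al.DF Module
open scoped Pointwise

variable {G : Type*} [Group G]

theorem norm_le (P : Subgroup G) (L : Set (P →* ℂˣ)) :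
    Subgroup.normalizer (P : Set G) ≤ locOne P L := by
  unfold locOne
  refine le_iSup₂_of_le (f := fun (Q : Subgroup G)
    (_ : Q ∈ {Q : Subgroup G | ⁅P, P⁆ ≤ Q ∧ Q ≤ P ∧
      ∀ μ ∈ L, μ ≠ 1 → ∃ x : P, (x : G) ∈ Q ∧ μ x ≠ 1}) => Subgroup.normalizer (Q : Set G))
    P ⟨Subgroup.commutator_le_self P, le_rfl, fun μ _ hμ => ?_⟩ le_rfl
  by_contra hcon
  push Not at hcon
  exact hμ (MonoidHom.ext fun x => hcon x x.2)

variable [Finite G] {V : Type*} [AddCommGroup V] [Module ℂ V] [FiniteDimensional ℂ V]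

theorem fixOne_eq (ρ : Representation ℂ G V) (P Q : Subgroup G) (h1 : ⁅P, P⁆ ≤ Q) (h2 : Q ≤ P)
    (h3 : ∀ μ ∈ Lin ρ P, μ ≠ 1 → ∃ x : P, (x : G) ∈ Q ∧ μ x ≠ 1) :
    fixSp ρ Q = fixSp ρ P := by
  classical
  have _ := Fintype.ofFinite P
  have _ := Fintype.ofFinite (P →* ℂˣ)
  refine le_antisymm (fun w hw => ?_) (fixSp_anti ρ h2)
  have hsum : ∑ μ : P →* ℂˣ, proj ρ P μ w = w := by
    refine sum_proj_eq ρ _ w fun x hx => hw _ (h1 ?_)
    rw [← Bas_map]
    exact Subgroup.mem_map_of_mem _ hx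
  rw [Finset.sum_eq_single (1 : P →* ℂˣ)] at hsum
  · intro x hx
    have h4 := rho_proj ρ P 1 w ⟨x, hx⟩
    rw [hsum, MonoidHom.one_apply, Units.val_one, one_smul] at h4
    exact h4
  · intro μ _ hμ1
    by_cases hμ : μ ∈ Lin ρ P
    · obtain ⟨x, hxQ, hx⟩ := h3 μ hμ hμ1
      have h4 := proj_rho ρ P μ w x
      rw [hw _ hxQ] at h4
      have h5 : (((μ x : ℂˣ) : ℂ) - 1) • proj ρ P μ w = 0 := by
        rw [sub_smul, one_smul, ← h4, sub_self]
      rcases smul_eq_zero.1 h5 with h6 | h6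
      · exact absurd (Units.ext (sub_eq_zero.1 h6)) hx
      · exact h6
    · exact proj_eq_zero_of_notMem ρ P μ hμ w
  · intro h
    exact absurd (Finset.mem_univ _) h

theorem avOne_eq (ρ : Representation ℂ G V) (P Q : Subgroup G) (h1 : ⁅P, P⁆ ≤ Q) (h2 : Q ≤ P)
    (h3 : ∀ μ ∈ Lin ρ P, μ ≠ 1 → ∃ x : P, (x : G) ∈ Q ∧ μ x ≠ 1) (v : V) :
    av ρ Q v = av ρ P v := by
  have h4 := av_mem ρ Q v
  rw [fixOne_eq ρ P Q h1 h2 h3] at h4
  rw [← av_self ρ P h4]
  exact av_le ρ Q h2 v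

theorem locOne_comm (ρ : Representation ℂ G V) (P : Subgroup G) {k : G}
    (hk : k ∈ locOne P (Lin ρ P)) (v : V) : av ρ P (ρ k v) = ρ k (av ρ P v) := by
  obtain ⟨K, hK⟩ : ∃ K : Subgroup G, ∀ k, k ∈ K ↔ ∀ v, av ρ P (ρ k v) = ρ k (av ρ P v) := by
    refine ⟨{ carrier := {k | ∀ v, av ρ P (ρ k v) = ρ k (av ρ P v)}
              mul_mem' := ?_
              one_mem' := ?_
              inv_mem' := ?_ }, fun k => Iff.rfl⟩
    · intro a b ha hb w
      rw [map_mul, Module.End.mul_apply, Module.End.mul_apply, ha, hb]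
    · intro w
      rw [map_one, Module.End.one_apply, Module.End.one_apply]
    · intro a ha w
      have h1 := ha (ρ a⁻¹ w)
      have h2 : ρ a (ρ a⁻¹ w) = w := by
        rw [← Module.End.mul_apply, ← map_mul, mul_inv_cancel, map_one, Module.End.one_apply]
      rw [h2] at h1
      rw [h1]
      generalize av ρ P (ρ a⁻¹ w) = z
      rw [← Module.End.mul_apply (ρ a⁻¹) (ρ a) z, ← map_mul, inv_mul_cancel, map_one,
        Module.End.one_apply]
  have hle : locOne P (Lin ρ P) ≤ K := by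
    unfold locOne
    refine iSup₂_le fun Q hQ => ?_
    intro g hg
    rw [hK]
    intro w
    rw [Subgroup.mem_normalizer_iff] at hg
    rw [← avOne_eq ρ P Q hQ.1 hQ.2.1 hQ.2.2, ← avOne_eq ρ P Q hQ.1 hQ.2.1 hQ.2.2]
    exact av_conj ρ Q (fun m hm => (hg m).1 hm) w
  exact (hK k).1 (hle hk) v

end Pool.Agent.H.MP_7d3ffc_al.LC
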