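import Pool.Agent.H.MP_7d3ffc_al.LC.Bas
import Pool.Agent.H.MP_7d3ffc_al.DC.PiB

/-!
# Module LC/Nc: the fixed points of `M` are irreducible if those of `P` are a line

`M ≤ P ≤ K`, `P` a Sylow subgroup of `G`, `ρ k`, `k ∈ K`, commutes with `av ρ M`, so `X = fixSp ρ M` is
`K`-stable; for all `g` the group generated by `M` and `K ∩ g P g⁻¹` contains a conjugate of `P`;
`Y = fixSp ρ P` is a line (`Y ≤ X`). Claim `nc`: `X` has no proper nonzero `K`-stable subspaces.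
* `nc_mem`: every nonzero `K`-stable `Z ≤ X` contains `Y`. There are `x ∈ Z`, `g ∈ G` with
  `av ρ P (ρ g x) ≠ 0`: otherwise the span of all `ρ g x` is a `G`-stable nonzero subspace, so it is `V`
  (irreducibility), and `av ρ P = 0`, but `Y ≠ 0`. Let `D = K ⊓ MulAut.conj g⁻¹ • P`. For `d ∈ D`:
  `av ρ P (ρ g (ρ d x)) = av ρ P (ρ (g d g⁻¹) (ρ g x)) = av ρ P (ρ g x)`, so by `av_map` (module DF/Av)
  `av ρ P (ρ g (av ρ D x)) = av ρ P (ρ g x) ≠ 0`. So `x' = av ρ D x` is not `0`; it is in `Z` (`D ≤ K`, `Z` is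
  `K`-stable; `av` is a multiple of a sum, `proj_apply`) and fixed by `D` and by `M`, so by a conjugate
  `MulAut.conj y • P ≤ M ⊔ D ≤ K` (hypothesis `hN` for `g⁻¹`). `P` and this conjugate are Sylow subgroups of `K`, so
  `MulAut.conj k • (MulAut.conj y • P) = P` for some `k ∈ K` (see `Ext_conj` in module LC/Ext for the use of
  `Sylow.subtype`, `MulAction.exists_smul_eq`). Then `ρ k x' ∈ Z` is a nonzero vector in `Y`, and `Y` is a line.
* `nc`: let `Z ≤ X` be `K`-stable and not `0`. Maschke for the representation of `K` on `V` (Mathlib: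
  `ComplementedLattice (Subrepresentation τ)`, see module DC/PiB): `Z` has a `K`-stable complement `C` in `V`. By
  the modular law `X = Z ⊔ (C ⊓ X)`. If `C ⊓ X ≠ 0` it contains `Y` (`nc_mem`), and `Y ≤ Z`, so `Y ≤ Z ⊓ C = 0`,
  a contradiction. So `X = Z`.
-/

namespace Pool.Agent.H.MP_7d3ffc_al.LC

open Pool.Agent.H.MP_7d3ffc_al Pool.Agent.H.MP_7d3ffc_al.DC Pool.Agent.H.MP_7d3ffc_al.DF Module
open scoped Pointwise

variable {G : Type*} [Group G] [Finite G] {V : Type*} [AddCommGroup V] [Module ℂ V]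
  [FiniteDimensional ℂ V] {p : ℕ} [Fact p.Prime]

omit [Finite G] [FiniteDimensional ℂ V] in
theorem Nc_mul (ρ : Representation ℂ G V) (g h : G) (v : V) : ρ (g * h) v = ρ g (ρ h v) := by
  rw [map_mul, Module.End.mul_apply]

omit [Finite G] [FiniteDimensional ℂ V] in
/-- fixed by two subgroups, so by the subgroup which they generate -/
theorem Nc_sup (ρ : Representation ℂ G V) {M D : Subgroup G} {x : V} (h1 : x ∈ fixSp ρ M)
    (h2 : x ∈ fixSp ρ D) : x ∈ fixSp ρ (M ⊔ D) := by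
  obtain ⟨S, hS⟩ : ∃ S : Subgroup G, ∀ g, g ∈ S ↔ ρ g x = x := by
    refine ⟨{ carrier := {g | ρ g x = x}
              mul_mem' := ?_
              one_mem' := ?_
              inv_mem' := ?_ }, fun g => Iff.rfl⟩
    · intro a b ha hb
      show ρ (a * b) x = x
      rw [Nc_mul, hb, ha]
    · show ρ 1 x = x
      rw [map_one, Module.End.one_apply]
    · intro a ha
      have ha' : ρ a x = x := ha
      show ρ a⁻¹ x = x
      conv_lhs => rw [← ha']
      rw [← Nc_mul, inv_mul_cancel, map_one, Module.End.one_apply]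
  have h3 : M ⊔ D ≤ S := sup_le (fun g hg => (hS g).2 (h1 g hg)) fun g hg => (hS g).2 (h2 g hg)
  exact fun g hg => (hS g).1 (h3 hg)

omit [FiniteDimensional ℂ V] in
/-- a vector fixed by a conjugate of `P` inside `K` is moved by an element of `K` to one fixed by `P` -/
theorem Nc_conj (P : Sylow p G) (ρ : Representation ℂ G V) (K : Subgroup G)
    (hPK : (P : Subgroup G) ≤ K) (y : G) (hy : MulAut.conj y • (P : Subgroup G) ≤ K) {x : V}
    (hx : x ∈ fixSp ρ (MulAut.conj y • (P : Subgroup G))) :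
    ∃ k ∈ K, ρ k x ∈ fixSp ρ (P : Subgroup G) := by
  have hQ : ((y • P : Sylow p G) : Subgroup G) = MulAut.conj y • (P : Subgroup G) :=
    Sylow.coe_subgroup_smul
  have hQK : ((y • P : Sylow p G) : Subgroup G) ≤ K := by
    rw [hQ]
    exact hy
  obtain ⟨k, hk⟩ := MulAction.exists_smul_eq K ((y • P : Sylow p G).subtype hQK) (P.subtype hPK)
  refine ⟨k, k.2, fun u hu => ?_⟩
  have h1 : (⟨u, hPK hu⟩ : K) ∈ ((P.subtype hPK : Sylow p K) : Subgroup K) := hu
  rw [← hk, Sylow.coe_subgroup_smul, Subgroup.mem_pointwise_smul_iff_inv_smul_mem] at h1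
  have h2 : (k : G)⁻¹ * u * (k : G) ∈ MulAut.conj y • (P : Subgroup G) := by
    have h3 : (((MulAut.conj k)⁻¹ • (⟨u, hPK hu⟩ : K) : K) : G) ∈
        ((y • P : Sylow p G) : Subgroup G) := h1
    have h4 : (((MulAut.conj k)⁻¹ • (⟨u, hPK hu⟩ : K) : K) : G) = (k : G)⁻¹ * u * (k : G) := by
      rw [← map_inv]
      simp
    rw [h4, hQ] at h3
    exact h3
  have h5 := hx _ h2
  have h6 : u * (k : G) = (k : G) * ((k : G)⁻¹ * u * (k : G)) := by group
  rw [← Nc_mul, h6, Nc_mul, h5]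

theorem nc_mem (P : Sylow p G) (ρ : Representation ℂ G V) (hρ : ρ.IsIrreducible)
    (M K : Subgroup G) (hMP : M ≤ (P : Subgroup G)) (hPK : (P : Subgroup G) ≤ K)
    (hN : ∀ g : G, ∃ y : G, MulAut.conj y • (P : Subgroup G) ≤
      M ⊔ (K ⊓ MulAut.conj g • (P : Subgroup G)))
    (hY : finrank ℂ (fixSp ρ (P : Subgroup G)) = 1) (Z : Submodule ℂ V) (hZ : Z ≤ fixSp ρ M)
    (hZ0 : Z ≠ ⊥) (hZK : ∀ k ∈ K, ∀ x ∈ Z, ρ k x ∈ Z) : fixSp ρ (P : Subgroup G) ≤ Z := by
  have hY0 : fixSp ρ (P : Subgroup G) ≠ ⊥ := by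
    intro h
    rw [h, finrank_bot] at hY
    exact zero_ne_one hY
  obtain ⟨g, x, hxZ, hgx⟩ : ∃ g : G, ∃ x ∈ Z, av ρ (P : Subgroup G) (ρ g x) ≠ 0 := by
    by_contra hcon
    push Not at hcon
    let V0 : Submodule ℂ V := Submodule.span ℂ {v | ∃ g : G, ∃ x ∈ Z, v = ρ g x}
    have hV0 : ∀ (g : G) (v : V), v ∈ V0 → ρ g v ∈ V0 := by
      intro g v hv
      refine Submodule.span_induction ?_ ?_ ?_ ?_ hv
      · rintro _ ⟨g', x, hx, rfl⟩
        exact Submodule.subset_span ⟨g * g', x, hx, (Nc_mul ρ g g' x).symm⟩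
      · rw [map_zero]
        exact V0.zero_mem
      · intro x y _ _ hx hy
        rw [map_add]
        exact V0.add_mem hx hy
      · intro c x _ hx
        rw [map_smul]
        exact V0.smul_mem c hx
    have htop : V0 = ⊤ := by
      rcases hρ.eq_bot_or_eq_top ⟨V0, fun g v hv => hV0 g v hv⟩ with h5 | h5
      · exfalso
        apply hZ0
        have h6 : V0 = ⊥ := congrArg Subrepresentation.toSubmodule h5
        rw [eq_bot_iff, ← h6]
        intro x hx
        refine Submodule.subset_span ⟨1, x, hx, ?_⟩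
        rw [map_one, Module.End.one_apply]
      · exact congrArg Subrepresentation.toSubmodule h5
    have h7 : ∀ v ∈ V0, av ρ (P : Subgroup G) v = 0 := by
      intro v hv
      refine Submodule.span_induction ?_ ?_ ?_ ?_ hv
      · rintro _ ⟨g, x, hx, rfl⟩
        exact hcon g x hx
      · exact map_zero _
      · intro x y _ _ hx hy
        rw [map_add, hx, hy, add_zero]
      · intro c x _ hx
        rw [map_smul, hx, smul_zero]
    apply hY0
    rw [Submodule.eq_bot_iff]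
    intro y hy
    rw [← av_self ρ _ hy]
    exact h7 y (by rw [htop]; exact Submodule.mem_top)
  set D : Subgroup G := K ⊓ MulAut.conj g⁻¹ • (P : Subgroup G) with hD
  set x' : V := av ρ D x with hx'
  have hDP : ∀ d ∈ D, g * d * g⁻¹ ∈ (P : Subgroup G) := by
    intro d hd
    have h1 := (Subgroup.mem_inf.1 hd).2
    rw [Subgroup.mem_pointwise_smul_iff_inv_smul_mem, ← map_inv, inv_inv] at h1
    simpa [MulAut.smul_def, MulAut.conj_apply] using h1
  have hx'0 : x' ≠ 0 := by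
    intro h0
    have h1 : (av ρ (P : Subgroup G) ∘ₗ ρ g) (av ρ D x) =
        (av ρ (P : Subgroup G) ∘ₗ ρ g) x := by
      refine av_map ρ D _ x fun d hd => ?_
      show av ρ (P : Subgroup G) (ρ g (ρ d x)) = av ρ (P : Subgroup G) (ρ g x)
      have h2 : ρ g (ρ d x) = ρ (g * d * g⁻¹) (ρ g x) := by
        rw [← Nc_mul, ← Nc_mul]
        congr 2
        group
      rw [h2]
      exact av_rho ρ _ (hDP d hd) _
    rw [← hx', h0, map_zero] at h1
    exact hgx h1.symm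
  have hx'Z : x' ∈ Z := by
    have h1 : Z.mkQ (av ρ D x) = Z.mkQ x := by
      refine av_map ρ D _ x fun d hd => ?_
      have h2 : ρ d x ∈ Z := hZK d (Subgroup.mem_inf.1 hd).1 x hxZ
      rw [Submodule.mkQ_apply, Submodule.mkQ_apply, (Submodule.Quotient.mk_eq_zero Z).2 h2,
        (Submodule.Quotient.mk_eq_zero Z).2 hxZ]
    rw [Submodule.mkQ_apply, Submodule.mkQ_apply, (Submodule.Quotient.mk_eq_zero Z).2 hxZ,
      Submodule.Quotient.mk_eq_zero] at h1
    exact h1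
  have hfix : x' ∈ fixSp ρ (M ⊔ D) := Nc_sup ρ (hZ hx'Z) (av_mem ρ D x)
  obtain ⟨y, hy⟩ := hN g⁻¹
  have hyK : MulAut.conj y • (P : Subgroup G) ≤ K :=
    hy.trans (sup_le (hMP.trans hPK) inf_le_left)
  obtain ⟨k, hk, hkx⟩ := Nc_conj P ρ K hPK y hyK (fixSp_anti ρ hy hfix)
  have hkx0 : ρ k x' ≠ 0 := by
    intro h0
    apply hx'0
    have h1 : ρ k⁻¹ (ρ k x') = x' := by
      rw [← Nc_mul, inv_mul_cancel, map_one, Module.End.one_apply]
    rw [← h1, h0, map_zero]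
  intro v hv
  obtain ⟨c, hc⟩ := exists_smul_eq_of_finrank_eq_one hY
    (x := (⟨ρ k x', hkx⟩ : fixSp ρ (P : Subgroup G)))
    (fun h0 => hkx0 (congrArg Subtype.val h0)) ⟨v, hv⟩
  have h2 : c • ρ k x' = v := congrArg Subtype.val hc
  rw [← h2]
  exact Z.smul_mem c (hZK k hk _ hx'Z)

theorem nc (P : Sylow p G) (ρ : Representation ℂ G V) (hρ : ρ.IsIrreducible)
    (M K : Subgroup G) (hMP : M ≤ (P : Subgroup G)) (hPK : (P : Subgroup G) ≤ K)
    (hc : ∀ k ∈ K, ∀ v, av ρ M (ρ k v) = ρ k (av ρ M v))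
    (hN : ∀ g : G, ∃ y : G, MulAut.conj y • (P : Subgroup G) ≤
      M ⊔ (K ⊓ MulAut.conj g • (P : Subgroup G)))
    (hY : finrank ℂ (fixSp ρ (P : Subgroup G)) = 1) (Z : Submodule ℂ V) (hZ : Z ≤ fixSp ρ M)
    (hZK : ∀ k ∈ K, ∀ x ∈ Z, ρ k x ∈ Z) : Z = ⊥ ∨ Z = fixSp ρ M := by
  rw [or_iff_not_imp_left]
  intro hZ0
  obtain ⟨τ, hτ⟩ : ∃ τ : Representation ℂ K V, ∀ (k : K) (v : V), τ k v = ρ k v :=
    ⟨ρ.comp K.subtype, fun _ _ => rfl⟩
  obtain ⟨C, hC, hZC⟩ := PiB_compl τ Z fun k v hv => by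
    rw [hτ]
    exact hZK k k.2 v hv
  have hXK : ∀ k ∈ K, ∀ x ∈ C ⊓ fixSp ρ M, ρ k x ∈ C ⊓ fixSp ρ M := by
    intro k hk x hx
    refine Submodule.mem_inf.2 ⟨?_, stab_fix ρ (hc k hk) (Submodule.mem_inf.1 hx).2⟩
    have h1 := hC ⟨k, hk⟩ x (Submodule.mem_inf.1 hx).1
    rwa [hτ] at h1
  have hmod : Z ⊔ C ⊓ fixSp ρ M = fixSp ρ M := by
    rw [← sup_inf_assoc_of_le C hZ, hZC.sup_eq_top, top_inf_eq]
  have hY1 := nc_mem P ρ hρ M K hMP hPK hN hY Z hZ hZ0 hZK
  by_cases hCX : C ⊓ fixSp ρ M = ⊥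
  · rw [hCX, sup_bot_eq] at hmod
    exact hmod
  · exfalso
    have hY2 := nc_mem P ρ hρ M K hMP hPK hN hY (C ⊓ fixSp ρ M) inf_le_right hCX hXK
    have h3 : fixSp ρ (P : Subgroup G) = ⊥ := by
      rw [eq_bot_iff]
      exact hZC.disjoint hY1 (hY2.trans inf_le_left)
    rw [h3, finrank_bot] at hY
    exact zero_ne_one hY

end Pool.Agent.H.MP_7d3ffc_al.LC
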