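import Pool.Agent.H.MP_7d3ffc_al.LC.Bas

/-!
# Module LC/Par: partners

Put `M = cker P (Lin ρ P)`. `par_false`: a partner `M'` of `M` does not exist. Proof: if `M ≤ R` then
`M = R ≤ M'` and `M = M'` by the cardinality. Otherwise the sums of the character over the cosets `R x`,
`x ∈ M` outside `R` and `x ∈ M'` outside `R`, are all equal (`assoc_conj`, `assoc_mul` in module DC/Assoc; take
`x0 ∈ M`, `y0 ∈ M'` outside `R` (`M' ≤ R` is impossible in the same way) and compare: see the proof of `crit2`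
in module DC/Crit2), so `fixSp ρ M` and `fixSp ρ M'` have the same dimension (`finrank_fixSp_eq`). By
`fix_eq` for `Q = ⁅P, P⁆`: `fixSp ρ M' ≤ fixSp ρ ⁅P, P⁆ = fixSp ρ M`, so `fixSp ρ M' = fixSp ρ M`. Let
`μ ∈ Lin ρ P` with eigenvector `v` (`mem_Lin_iff`): `v` is fixed by `M` (`mem_cker`), so by `M'`, so `μ` is
trivial on `M'`. Hence `M' ≤ M`, and `M' = M` by the cardinality, a contradiction.
-/

namespace Pool.Agent.H.MP_7d3ffc_al.LC

open Pool.Agent.H.MP_7d3ffc_al Pool.Agent.H.MP_7d3ffc_al.DC Pool.Agent.H.MP_7d3ffc_al.DF Module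
open scoped Pointwise

variable {G : Type*} [Group G]

theorem par_false [Finite G] {V : Type*} [AddCommGroup V] [Module ℂ V] [FiniteDimensional ℂ V]
    (ρ : Representation ℂ G V) (P : Subgroup G) : ¬ IsPar P (cker P (Lin ρ P)) := by
  classical
  rintro ⟨M', R, hM1, hM2, hne, hcard, hR, hcon⟩
  obtain ⟨M, hMdef⟩ : ∃ M, M = cker P (Lin ρ P) := ⟨_, rfl⟩
  rw [← hMdef] at hne hcard hR hcon
  have : Fintype R := Fintype.ofFinite _
  have hRM : R ≤ M := hR.trans inf_le_left
  have hRM' : R ≤ M' := hR.trans inf_le_right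
  -- the dimensions
  have hfin : finrank ℂ (fixSp ρ M) = finrank ℂ (fixSp ρ M') := by
    by_cases hMR : M ≤ R
    · have e1 : M = R := le_antisymm hMR hRM
      have e2 : R = M' := by
        refine Subgroup.eq_of_le_of_card_ge hRM' ?_
        rw [hcard, e1]
      rw [← e2, e1]
    · obtain ⟨x0, hx0, hx0R⟩ := SetLike.not_le_iff_exists.1 hMR
      have hMR' : ¬ M' ≤ R := by
        intro h
        refine hMR ?_
        have e1 : M' = R := le_antisymm h hRM'
        have e2 : R = M := by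
          refine Subgroup.eq_of_le_of_card_ge hRM ?_
          rw [← hcard, e1]
        exact e2.symm.le
      obtain ⟨y0, hy0, hy0R⟩ := SetLike.not_le_iff_exists.1 hMR'
      have key : ∀ x ∈ M, ∀ y ∈ M', x ∉ R → y ∉ R →
          ∑ r : R, ρ.character ((r : G) * x) = ∑ r : R, ρ.character ((r : G) * y) := by
        intro x hx y hy hxR hyR
        obtain ⟨g, hg1, hg2⟩ := hcon x hx y hy hxR hyR
        exact assoc_conj ρ R hg1 hg2
      refine finrank_fixSp_eq ρ hRM hRM' hcard.symm (∑ r : R, ρ.character ((r : G) * y0)) ?_ ?_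
      · exact fun x hx hxR => key x hx y0 hy0 hxR hy0R
      · intro y hy hyR
        rw [← key x0 hx0 y hy hx0R hyR, key x0 hx0 y0 hy0 hx0R hy0R]
  have h1 : fixSp ρ ⁅P, P⁆ = fixSp ρ M := by
    rw [hMdef]
    exact fix_eq ρ P _ le_rfl (comm_le_cker P _)
  have h2 : fixSp ρ M' ≤ fixSp ρ M := by
    rw [← h1]
    exact fixSp_anti ρ hM1
  have h3 : fixSp ρ M' = fixSp ρ M := Submodule.eq_of_le_of_finrank_eq h2 hfin.symm
  refine hne (Subgroup.eq_of_le_of_card_ge ?_ hcard.ge)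
  intro x hx
  rw [hMdef, mem_cker]
  refine ⟨hM2 hx, fun μ hμ => ?_⟩
  obtain ⟨v, hv0, hv⟩ := (mem_Lin_iff ρ _ μ).1 hμ
  have hvM : v ∈ fixSp ρ M := by
    intro y hy
    rw [hMdef, mem_cker] at hy
    obtain ⟨hyP, hy⟩ := hy
    have e1 := hv ⟨y, hyP⟩
    rw [hy μ hμ, Units.val_one, one_smul] at e1
    exact e1
  rw [← h3] at hvM
  have e1 := hv ⟨x, hM2 hx⟩
  have e0 : ρ x v = v := hvM x hx
  have e2 : (((μ ⟨x, hM2 hx⟩ : ℂˣ) : ℂ) - 1) • v = 0 := by
    rw [sub_smul, one_smul, ← e1]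
    show ρ x v - v = 0
    rw [e0, sub_self]
  rcases smul_eq_zero.1 e2 with e4 | e4
  · exact Units.ext (sub_eq_zero.1 e4)
  · exact absurd e4 hv0

end Pool.Agent.H.MP_7d3ffc_al.LC
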