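import Pool.Agent.H.MP_7d3ffc_al.LC.Bas

/-!
# Module LC/Two: the case of two double cosets

`M ≤ K` are subgroups of the finite group `G`, `e = av ρ M` the average over `M`, `X = fixSp ρ M` its image;
all `ρ k`, `k ∈ K`, commute with `e`. `Z` is a set of elements with `e ρ(g) x = 0` for `g ∈ Z`, `x ∈ X`.
`X1 ≤ X` is a nonzero `K`-stable subspace without proper nonzero `K`-stable subspaces, `h ∈ G`,
`X1' = e ρ(h) X1` and `X2 = X1 + X1'`. `IsTwo M K Z h` are the hypotheses on `h`.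

* `conj_triv`: for `k ∈ K`, `m ∈ M`, `x ∈ X`: `ρ (k m k⁻¹) x = x`, since `ρ k⁻¹ x ∈ X` (`stab_fix`); so all elements
  of `⨆ k ∈ K, MulAut.conj k • M` act trivially on `X` (the elements which act trivially on `X` are a
  subgroup).
* `two_stab`: `X1'` is `K`-stable: the elements of `K` which map `X1'` onto `X1'` are a subgroup
  (or: `g` and `g⁻¹` map `X1'` into itself); it contains the conjugates of `M` (`conj_triv`, `X1' ≤ X`), and for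
  `l = h k h⁻¹ ∈ K`, `k ∈ K`: `ρ l (e ρ h x) = e (ρ l (ρ h x)) = e ρ h (ρ k x)`. Use the first hypothesis on `h`.
* `two_sub`: `S = {g | ∀ x ∈ X2, e (ρ g x) ∈ X2}` satisfies all conditions of the third hypothesis on `h`:
  `K ⊆ S`: `e (ρ k x) = ρ k (e x) = ρ k x` and `X2` is `K`-stable. `h ∈ S`: for `x ∈ X1`, `e ρ h x ∈ X1'`; for
  `y = e ρ h x ∈ X1'`: `e ρ h y` is the average over `m ∈ M` of `e ρ(h m h) x` (as a linear map of the vector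
  `ρ h x`: use `proj_apply` for `av`), and each of these vectors is in `X2`: if `h m h ∈ K` it is in `X1`, if
  `h m h = k h k'` it is `ρ k (e ρ h (ρ k' x)) ∈ X1'`, if `h m h ∈ Z` it is `0`. `Z ⊆ S`: the vector is `0`
  (`X2 ≤ X`). `k s ∈ S`, `s k ∈ S`: `e ρ k = ρ k e` and `X2` is `K`-stable. Products: if `a`, `b ∈ S` and each
  `m ∈ M` is `x y` with `x`, `y ∈ M`, `a x a⁻¹ ∈ M`, `b⁻¹ y b ∈ M`, then for `z ∈ X2`:
  `e ρ a ρ m (ρ b z) = e ρ(a x a⁻¹) ρ a ρ b ρ(b⁻¹ y b) z = e ρ(a b) z` for all `m ∈ M`, so by `av_map` (module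
  DF/Av) for the map `e ∘ ρ a` and the vector `ρ b z`: `e ρ a (e ρ b z) = e ρ(a b) z`, and
  `e ρ b z ∈ X2`. So `S` is everything.
* `two_top`: `X2 = X`: the vectors `v` with `e v ∈ X2`... let `V0` be the span of all `ρ g x`, `g ∈ G`,
  `x ∈ X2`; it is `G`-stable and not `0`, so it is `V` (irreducibility, as in module DC/Crit); for `y ∈ X`,
  `y = e y` is in `e V0 ≤ X2`.
* `two_dim`: the space `{x ∈ X1 | e ρ h x = 0}` is `K`-stable (conjugates of `M`: trivial action;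
  `l = h⁻¹ k h ∈ K`: `e ρ h ρ l x = e ρ k ρ h x = ρ k (e ρ h x) = 0`), so it is `X1` or `0`. If it is `X1`,
  then `X1' = 0` and `X = X1`. If it is `0`, `X1'` has the same dimension as `X1`. `X1 ⊓ X1'` is `K`-stable: if it
  is `X1`, then `X1 ≤ X1'`, so `X1' = X1 = X` by dimension; if it is `0`, `finrank X = 2 * finrank X1`
  (`Submodule.finrank_sup_add_finrank_inf_eq`).
-/

namespace Pool.Agent.H.MP_7d3ffc_al.LC

open Pool.Agent.H.MP_7d3ffc_al Pool.Agent.H.MP_7d3ffc_al.DC Pool.Agent.H.MP_7d3ffc_al.DF Module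
open scoped Pointwise

variable {G : Type*} [Group G]

variable [Finite G] {V : Type*} [AddCommGroup V] [Module ℂ V] [FiniteDimensional ℂ V]

theorem Two_mul (ρ : Representation ℂ G V) (a b : G) (v : V) : ρ (a * b) v = ρ a (ρ b v) := by
  rw [map_mul]
  rfl

theorem Two_avmem (ρ : Representation ℂ G V) (M : Subgroup G) (Φ : V →ₗ[ℂ] V)
    (W : Submodule ℂ V) (v : V) (h : ∀ m ∈ M, Φ (ρ m v) ∈ W) : Φ (av ρ M v) ∈ W := by
  let _ := Fintype.ofFinite M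
  have h1 : av ρ M v = (Nat.card M : ℂ)⁻¹ • ∑ x : M, ((((1 : M →* ℂˣ) x)⁻¹ : ℂˣ) : ℂ) •
      ρ (x : G) v := proj_apply ρ M 1 v
  rw [h1, map_smul, map_sum]
  refine W.smul_mem _ (W.sum_mem fun x _ => ?_)
  rw [map_smul]
  exact W.smul_mem _ (h x x.2)

theorem conj_triv (ρ : Representation ℂ G V) {M K : Subgroup G}
    (hc : ∀ k ∈ K, ∀ v, av ρ M (ρ k v) = ρ k (av ρ M v)) {g : G}
    (hg : g ∈ ⨆ k ∈ K, MulAut.conj k • M) {x : V} (hx : x ∈ fixSp ρ M) : ρ g x = x := by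
  let T : Subgroup G :=
    { carrier := {g | ∀ x ∈ fixSp ρ M, ρ g x = x}
      mul_mem' := fun {a b} ha hb x hx => by rw [Two_mul, hb x hx, ha x hx]
      one_mem' := fun x _ => by rw [map_one]; rfl
      inv_mem' := fun {a} ha x hx => by
        have h1 := ha x hx
        calc ρ a⁻¹ x = ρ a⁻¹ (ρ a x) := by rw [h1]
          _ = x := by rw [← Two_mul, inv_mul_cancel, map_one]; rfl }
  have hle : (⨆ k ∈ K, MulAut.conj k • M) ≤ T := by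
    refine iSup₂_le fun k hk => ?_
    intro g hg x hx
    obtain ⟨m, hm, rfl⟩ := (Subgroup.mem_smul_pointwise_iff_exists _ _ _).1 hg
    have h1 : ρ k⁻¹ x ∈ fixSp ρ M := stab_fix ρ (hc k⁻¹ (K.inv_mem hk)) hx
    have h2 : (MulAut.conj k • m : G) = k * m * k⁻¹ := by
      rw [MulAut.smul_def, MulAut.conj_apply]
    rw [h2, Two_mul, Two_mul, h1 m hm, ← Two_mul, mul_inv_cancel, map_one]
    rfl
  exact hle hg x hx

theorem Two_gen (ρ : Representation ℂ G V) {M K L : Subgroup G}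
    (hc : ∀ k ∈ K, ∀ v, av ρ M (ρ k v) = ρ k (av ρ M v))
    (hK : K ≤ (⨆ k ∈ K, MulAut.conj k • M) ⊔ L) (Y : Submodule ℂ V) (hY : Y ≤ fixSp ρ M)
    (hL : ∀ l ∈ L, ∀ x ∈ Y, ρ l x ∈ Y) : ∀ k ∈ K, ∀ x ∈ Y, ρ k x ∈ Y := by
  let A : Subgroup G :=
    { carrier := {g | ∀ x ∈ Y, ρ g x ∈ Y ∧ ρ g⁻¹ x ∈ Y}
      mul_mem' := fun {a b} ha hb x hx => by
        refine ⟨?_, ?_⟩
        · rw [Two_mul]
          exact (ha _ (hb x hx).1).1
        · rw [mul_inv_rev, Two_mul]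
          exact (hb _ (ha x hx).2).2
      one_mem' := fun x hx => by
        rw [inv_one, map_one]
        exact ⟨hx, hx⟩
      inv_mem' := fun {a} ha x hx => by
        rw [inv_inv]
        exact ⟨(ha x hx).2, (ha x hx).1⟩ }
  have h1 : (⨆ k ∈ K, MulAut.conj k • M) ≤ A := by
    intro g hg x hx
    rw [conj_triv ρ hc hg (hY hx), conj_triv ρ hc (Subgroup.inv_mem _ hg) (hY hx)]
    exact ⟨hx, hx⟩
  have h2 : L ≤ A := fun l hl x hx => ⟨hL l hl x hx, hL l⁻¹ (L.inv_mem hl) x hx⟩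
  intro k hk x hx
  exact ((hK.trans (sup_le h1 h2)) hk x hx).1

theorem Two_conj {K : Subgroup G} {h l : G} (hl : l ∈ MulAut.conj h • K) :
    ∃ k ∈ K, l * h = h * k := by
  obtain ⟨k, hk, rfl⟩ := (Subgroup.mem_smul_pointwise_iff_exists _ _ _).1 hl
  refine ⟨k, hk, ?_⟩
  rw [MulAut.smul_def, MulAut.conj_apply]
  group

theorem Two_conj' {K : Subgroup G} {h l : G} (hl : l ∈ MulAut.conj h⁻¹ • K) :
    ∃ k ∈ K, h * l = k * h := by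
  obtain ⟨k, hk, rfl⟩ := (Subgroup.mem_smul_pointwise_iff_exists _ _ _).1 hl
  refine ⟨k, hk, ?_⟩
  rw [MulAut.smul_def, MulAut.conj_apply]
  group

theorem Two_le (ρ : Representation ℂ G V) (M : Subgroup G) (h : G) (X1 : Submodule ℂ V) :
    X1.map (av ρ M ∘ₗ ρ h) ≤ fixSp ρ M := by
  rintro _ ⟨x, -, rfl⟩
  exact av_mem ρ M (ρ h x)

theorem two_stab (ρ : Representation ℂ G V) {M K : Subgroup G} (hMK : M ≤ K)
    (hc : ∀ k ∈ K, ∀ v, av ρ M (ρ k v) = ρ k (av ρ M v)) {Z : Set G} {h : G}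
    (hh : IsTwo M K Z h) (X1 : Submodule ℂ V) (h1 : X1 ≤ fixSp ρ M)
    (h3 : ∀ k ∈ K, ∀ x ∈ X1, ρ k x ∈ X1) :
    ∀ k ∈ K, ∀ x ∈ X1.map (av ρ M ∘ₗ ρ h), ρ k x ∈ X1.map (av ρ M ∘ₗ ρ h) := by
  refine Two_gen ρ hc hh.1 _ (Two_le ρ M h X1) ?_
  rintro l ⟨⟨hl1, hl2⟩, -⟩ _ ⟨x, hx, rfl⟩
  obtain ⟨k, hk, hlk⟩ := Two_conj hl2
  refine ⟨ρ k x, h3 k hk x hx, ?_⟩
  show av ρ M (ρ h (ρ k x)) = ρ l (av ρ M (ρ h x))
  rw [← Two_mul, ← hlk, Two_mul, hc l hl1]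

theorem two_sub (ρ : Representation ℂ G V) {M K : Subgroup G} (hMK : M ≤ K)
    (hc : ∀ k ∈ K, ∀ v, av ρ M (ρ k v) = ρ k (av ρ M v)) {Z : Set G}
    (hZ : ∀ g ∈ Z, ∀ x ∈ fixSp ρ M, av ρ M (ρ g x) = 0) {h : G}
    (hh : IsTwo M K Z h) (X1 : Submodule ℂ V) (h1 : X1 ≤ fixSp ρ M)
    (h3 : ∀ k ∈ K, ∀ x ∈ X1, ρ k x ∈ X1) (g : G) {x : V}
    (hx : x ∈ X1 ⊔ X1.map (av ρ M ∘ₗ ρ h)) :
    av ρ M (ρ g x) ∈ X1 ⊔ X1.map (av ρ M ∘ₗ ρ h) := by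
  have hst := two_stab ρ hMK hc hh X1 h1 h3
  have hle1 : X1 ≤ X1 ⊔ X1.map (av ρ M ∘ₗ ρ h) := le_sup_left
  have hle2 : X1.map (av ρ M ∘ₗ ρ h) ≤ X1 ⊔ X1.map (av ρ M ∘ₗ ρ h) := le_sup_right
  have hfix : X1 ⊔ X1.map (av ρ M ∘ₗ ρ h) ≤ fixSp ρ M := sup_le h1 (Two_le ρ M h X1)
  have hK2 : ∀ k ∈ K, ∀ x ∈ X1 ⊔ X1.map (av ρ M ∘ₗ ρ h),
      ρ k x ∈ X1 ⊔ X1.map (av ρ M ∘ₗ ρ h) := by
    intro k hk x hx
    obtain ⟨y, hy, z, hz, rfl⟩ := Submodule.mem_sup.1 hx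
    rw [map_add]
    exact add_mem (hle1 (h3 k hk y hy)) (hle2 (hst k hk z hz))
  have hS := hh.2.2 {g | ∀ x ∈ X1 ⊔ X1.map (av ρ M ∘ₗ ρ h),
    av ρ M (ρ g x) ∈ X1 ⊔ X1.map (av ρ M ∘ₗ ρ h)} ?_ ?_ ?_ ?_ ?_
  · have hg : g ∈ {g | ∀ x ∈ X1 ⊔ X1.map (av ρ M ∘ₗ ρ h),
        av ρ M (ρ g x) ∈ X1 ⊔ X1.map (av ρ M ∘ₗ ρ h)} := by
      rw [hS]
      exact Set.mem_univ g
    exact hg x hx
  · intro k hk x hx
    rw [hc k hk, av_self ρ M (hfix hx)]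
    exact hK2 k hk x hx
  · intro x hx
    obtain ⟨y, hy, z, ⟨w, hw, rfl⟩, rfl⟩ := Submodule.mem_sup.1 hx
    rw [map_add, map_add]
    refine add_mem (hle2 ⟨y, hy, rfl⟩) ?_
    show (av ρ M ∘ₗ ρ h) (av ρ M (ρ h w)) ∈ _
    refine Two_avmem ρ M (av ρ M ∘ₗ ρ h) _ (ρ h w) fun m hm => ?_
    show av ρ M (ρ h (ρ m (ρ h w))) ∈ _
    rw [← Two_mul, ← Two_mul]
    rcases hh.2.1 m hm with h5 | ⟨k, hk, k', hk', h5⟩ | h5
    · rw [hc _ h5, av_self ρ M (h1 hw)]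
      exact hle1 (h3 _ h5 w hw)
    · rw [h5, mul_assoc, Two_mul, Two_mul, hc k hk]
      exact hle2 (hst k hk _ ⟨ρ k' w, h3 k' hk' w hw, rfl⟩)
    · rw [hZ _ h5 w (h1 hw)]
      exact Submodule.zero_mem _
  · intro z hz x hx
    rw [hZ z hz x (hfix hx)]
    exact Submodule.zero_mem _
  · intro k hk s hs
    refine ⟨fun x hx => ?_, fun x hx => ?_⟩
    · rw [Two_mul, hc k hk]
      exact hK2 k hk _ (hs x hx)
    · rw [Two_mul]
      exact hs _ (hK2 k hk x hx)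
  · intro a ha b hb hab z hz
    have h6 : (av ρ M ∘ₗ ρ a) (av ρ M (ρ b z)) = (av ρ M ∘ₗ ρ a) (ρ b z) := by
      refine av_map ρ M (av ρ M ∘ₗ ρ a) (ρ b z) fun m hm => ?_
      obtain ⟨x, hx, y, hy, hxy, hax, hby⟩ := hab m hm
      show av ρ M (ρ a (ρ m (ρ b z))) = av ρ M (ρ a (ρ b z))
      have h7 : a * m * b = (a * x * a⁻¹) * (a * (b * (b⁻¹ * y * b))) := by
        rw [hxy]
        group
      rw [← Two_mul, ← Two_mul, h7, Two_mul, av_rho ρ M hax, Two_mul, Two_mul,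
        (hfix hz) _ hby]
    have h8 : av ρ M (ρ (a * b) z) = av ρ M (ρ a (av ρ M (ρ b z))) := by
      rw [Two_mul]
      exact h6.symm
    rw [h8]
    exact ha _ (hb z hz)

theorem two_top (ρ : Representation ℂ G V) (hρ : ρ.IsIrreducible) {M K : Subgroup G}
    (hMK : M ≤ K) (hc : ∀ k ∈ K, ∀ v, av ρ M (ρ k v) = ρ k (av ρ M v)) {Z : Set G}
    (hZ : ∀ g ∈ Z, ∀ x ∈ fixSp ρ M, av ρ M (ρ g x) = 0) {h : G}
    (hh : IsTwo M K Z h) (X1 : Submodule ℂ V) (h1 : X1 ≤ fixSp ρ M) (h2 : X1 ≠ ⊥)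
    (h3 : ∀ k ∈ K, ∀ x ∈ X1, ρ k x ∈ X1) :
    fixSp ρ M = X1 ⊔ X1.map (av ρ M ∘ₗ ρ h) := by
  refine le_antisymm ?_ (sup_le h1 (Two_le ρ M h X1))
  let V0 : Submodule ℂ V := Submodule.span ℂ
    {v | ∃ g : G, ∃ x ∈ X1 ⊔ X1.map (av ρ M ∘ₗ ρ h), v = ρ g x}
  have hV0 : ∀ (g : G) (v : V), v ∈ V0 → ρ g v ∈ V0 := by
    intro g v hv
    refine Submodule.span_induction ?_ ?_ ?_ ?_ hv
    · rintro _ ⟨g', x, hx, rfl⟩
      refine Submodule.subset_span ⟨g * g', x, hx, ?_⟩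
      rw [Two_mul]
    · rw [map_zero]
      exact V0.zero_mem
    · intro x y _ _ hx hy
      rw [map_add]
      exact V0.add_mem hx hy
    · intro c x _ hx
      rw [map_smul]
      exact V0.smul_mem c hx
  have htop : V0 = ⊤ := by
    rcases hρ.eq_bot_or_eq_top ⟨V0, fun g v hv => hV0 g v hv⟩ with h5 | h5
    · exfalso
      apply h2
      have h6 : V0 = ⊥ := congrArg Subrepresentation.toSubmodule h5
      rw [eq_bot_iff, ← h6]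
      intro x hx
      refine Submodule.subset_span ⟨1, x, le_sup_left (a := X1) hx, ?_⟩
      rw [map_one]
      rfl
    · exact congrArg Subrepresentation.toSubmodule h5
  intro y hy
  have h7 : ∀ v ∈ V0, av ρ M v ∈ X1 ⊔ X1.map (av ρ M ∘ₗ ρ h) := by
    intro v hv
    refine Submodule.span_induction ?_ ?_ ?_ ?_ hv
    · rintro _ ⟨g, x, hx, rfl⟩
      exact two_sub ρ hMK hc hZ hh X1 h1 h3 g hx
    · rw [map_zero]
      exact Submodule.zero_mem _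
    · intro x y _ _ hx hy
      rw [map_add]
      exact Submodule.add_mem _ hx hy
    · intro c x _ hx
      rw [map_smul]
      exact Submodule.smul_mem _ c hx
  have h8 := h7 y (by rw [htop]; exact Submodule.mem_top)
  rwa [av_self ρ M hy] at h8

theorem two_dim (ρ : Representation ℂ G V) (hρ : ρ.IsIrreducible) {M K : Subgroup G}
    (hMK : M ≤ K) (hc : ∀ k ∈ K, ∀ v, av ρ M (ρ k v) = ρ k (av ρ M v)) {Z : Set G}
    (hZ : ∀ g ∈ Z, ∀ x ∈ fixSp ρ M, av ρ M (ρ g x) = 0) {h : G}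
    (hh : IsTwo M K Z h) (X1 : Submodule ℂ V) (h1 : X1 ≤ fixSp ρ M) (h2 : X1 ≠ ⊥)
    (h3 : ∀ k ∈ K, ∀ x ∈ X1, ρ k x ∈ X1)
    (h4 : ∀ Y : Submodule ℂ V, Y ≤ X1 → (∀ k ∈ K, ∀ x ∈ Y, ρ k x ∈ Y) → Y = ⊥ ∨ Y = X1) :
    fixSp ρ M = X1 ∨ (X1 ⊓ X1.map (av ρ M ∘ₗ ρ h) = ⊥ ∧
      finrank ℂ (fixSp ρ M) = 2 * finrank ℂ X1) := by
  have htop := two_top ρ hρ hMK hc hZ hh X1 h1 h2 h3
  have hst := two_stab ρ hMK hc hh X1 h1 h3
  have hker : ∀ k ∈ K, ∀ x ∈ X1 ⊓ LinearMap.ker (av ρ M ∘ₗ ρ h),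
      ρ k x ∈ X1 ⊓ LinearMap.ker (av ρ M ∘ₗ ρ h) := by
    refine Two_gen ρ hc hh.1 (X1 ⊓ LinearMap.ker (av ρ M ∘ₗ ρ h)) ((inf_le_left (a := X1)).trans h1) ?_
    rintro l ⟨⟨hl1, -⟩, hl3⟩ x ⟨hx1, hx2⟩
    obtain ⟨k, hk, hlk⟩ := Two_conj' hl3
    refine ⟨h3 l hl1 x hx1, ?_⟩
    have hx3 : av ρ M (ρ h x) = 0 := hx2
    show av ρ M (ρ h (ρ l x)) = 0
    rw [← Two_mul, hlk, Two_mul, hc k hk, hx3, map_zero]
  rcases h4 (X1 ⊓ LinearMap.ker (av ρ M ∘ₗ ρ h)) inf_le_left hker with h5 | h5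
  · -- injective on `X1`
    have hinj : Function.Injective ((av ρ M ∘ₗ ρ h).domRestrict X1) := by
      rw [← LinearMap.ker_eq_bot, eq_bot_iff]
      intro x hx
      have h6 : (x : V) ∈ X1 ⊓ LinearMap.ker (av ρ M ∘ₗ ρ h) := ⟨x.2, hx⟩
      rw [h5] at h6
      exact Subtype.ext h6
    have hdim : finrank ℂ (X1.map (av ρ M ∘ₗ ρ h)) = finrank ℂ X1 := by
      rw [← LinearMap.range_domRestrict]
      exact LinearMap.finrank_range_of_inj hinj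
    have hinf : ∀ k ∈ K, ∀ x ∈ X1 ⊓ X1.map (av ρ M ∘ₗ ρ h),
        ρ k x ∈ X1 ⊓ X1.map (av ρ M ∘ₗ ρ h) :=
      fun k hk x hx => ⟨h3 k hk x hx.1, hst k hk x hx.2⟩
    rcases h4 (X1 ⊓ X1.map (av ρ M ∘ₗ ρ h)) inf_le_left hinf with h7 | h7
    · right
      refine ⟨h7, ?_⟩
      have h8 := Submodule.finrank_sup_add_finrank_inf_eq X1 (X1.map (av ρ M ∘ₗ ρ h))
      rw [← htop, h7, finrank_bot, hdim] at h8
      omega
    · left
      have h8 : X1 ≤ X1.map (av ρ M ∘ₗ ρ h) := inf_eq_left.1 h7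
      have h9 := Submodule.eq_of_le_of_finrank_eq h8 hdim.symm
      rw [← h9, sup_idem] at htop
      exact htop
  · left
    have h6 : X1.map (av ρ M ∘ₗ ρ h) = ⊥ := by
      rw [eq_bot_iff]
      rintro _ ⟨x, hx, rfl⟩
      have h7 : x ∈ X1 ⊓ LinearMap.ker (av ρ M ∘ₗ ρ h) := by
        rw [h5]
        exact hx
      exact h7.2
    rw [htop, h6, sup_bot_eq]

end Pool.Agent.H.MP_7d3ffc_al.LC
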