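import Pool.Agent.H.MP_7d3ffc_al.LC.Irr
import Pool.Agent.H.MP_7d3ffc_al.LC.Two
import Pool.Agent.H.MP_7d3ffc_al.LC.Par
import Pool.Agent.H.MP_7d3ffc_al.LC.Ext
import Pool.Agent.H.MP_7d3ffc_al.LC.Lo
import Pool.Agent.H.MP_7d3ffc_al.LC.Abl
import Pool.Agent.H.MP_7d3ffc_al.LC.Nc

/-!
# Module LC/Crt: the criterion
-/

namespace Pool.Agent.H.MP_7d3ffc_al.LC

open Pool.Agent.H.MP_7d3ffc_al Pool.Agent.H.MP_7d3ffc_al.DC Pool.Agent.H.MP_7d3ffc_al.DF Module
open scoped Pointwise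

variable {G : Type*} [Group G]

variable [Finite G] {V : Type*} [AddCommGroup V] [Module ℂ V] [FiniteDimensional ℂ V]

theorem van_zero (ρ : Representation ℂ G V) (P : Subgroup G) {g : G}
    (hg : g ∈ van P (cker P (Lin ρ P)) (loc P (cker P (Lin ρ P))) (Lin ρ P)) {x : V}
    (hx : x ∈ fixSp ρ (cker P (Lin ρ P))) : av ρ (cker P (Lin ρ P)) (ρ g x) = 0 := by
  obtain ⟨h1, y, hy⟩ := hg
  have hfix : ∀ l ∈ cker P (Lin ρ P) ⊔ (loc P (cker P (Lin ρ P)) ⊓ MulAut.conj g •
      cker P (Lin ρ P)), ρ l (av ρ (cker P (Lin ρ P)) (ρ g x)) =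
        av ρ (cker P (Lin ρ P)) (ρ g x) := by
    let A : Subgroup G :=
      { carrier := {l | ρ l (av ρ (cker P (Lin ρ P)) (ρ g x)) = av ρ (cker P (Lin ρ P)) (ρ g x)}
        one_mem' := by simp
        mul_mem' := fun {a b} ha hb => by
          change ρ (a * b) _ = _
          rw [map_mul, Module.End.mul_apply, hb, ha]
        inv_mem' := fun {a} ha => by
          change ρ a⁻¹ _ = _
          have ha' : ρ a (av ρ (cker P (Lin ρ P)) (ρ g x)) =
            av ρ (cker P (Lin ρ P)) (ρ g x) := ha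
          nth_rewrite 1 [← ha']
          rw [← Module.End.mul_apply, ← map_mul, inv_mul_cancel, map_one, Module.End.one_apply] }
    have hA : cker P (Lin ρ P) ⊔ (loc P (cker P (Lin ρ P)) ⊓ MulAut.conj g •
        cker P (Lin ρ P)) ≤ A := by
      refine sup_le (fun l hl => ?_) fun l hl => ?_
      · exact rho_av ρ _ hl _
      · obtain ⟨hl1, hl2⟩ := hl
        obtain ⟨m, hm, rfl⟩ := Subgroup.mem_smul_pointwise_iff_exists _ _ _ |>.1 hl2
        change ρ _ (av ρ _ _) = _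
        rw [← loc_comm ρ P hl1, MulAut.smul_def, MulAut.conj_apply]
        congr 1
        rw [← Module.End.mul_apply, ← map_mul, inv_mul_cancel_right, map_mul,
          Module.End.mul_apply, hx m hm]
    exact fun l hl => hA hl
  by_contra h0
  apply h1
  rw [mem_Lin_iff]
  refine ⟨ρ y⁻¹ (av ρ (cker P (Lin ρ P)) (ρ g x)), ?_, fun u => ?_⟩
  · intro h2
    apply h0
    have h3 := congrArg (ρ y) h2
    rwa [← Module.End.mul_apply, ← map_mul, mul_inv_cancel, map_one, Module.End.one_apply,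
      map_zero] at h3
  · rw [MonoidHom.one_apply, Units.val_one, one_smul]
    have h2 : y * u * y⁻¹ ∈ MulAut.conj y • P := by
      have := Subgroup.smul_mem_pointwise_smul (u : G) (MulAut.conj y) P u.2
      simpa [MulAut.smul_def] using this
    have h3 := hfix _ (hy h2)
    have h4 : ρ (u : G) (ρ y⁻¹ (av ρ (cker P (Lin ρ P)) (ρ g x))) =
        ρ y⁻¹ (ρ (y * u * y⁻¹) (av ρ (cker P (Lin ρ P)) (ρ g x))) := by
      generalize av ρ (cker P (Lin ρ P)) (ρ g x) = w
      rw [← Module.End.mul_apply, ← Module.End.mul_apply, ← map_mul, ← map_mul]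
      congr 2
      group
    rw [h4, h3]

theorem lin_inv (ρ : Representation ℂ G V) (P : Subgroup G) {μ ν : P →* ℂˣ} (hμ : μ ∈ Lin ρ P)
    {g : G} (hg : g ∈ Subgroup.normalizer (P : Set G))
    (hν : ∀ x y : P, (y : G) = g * x * g⁻¹ → ν x = μ y) : ν ∈ Lin ρ P := by
  obtain ⟨v, hv0, hv⟩ := (mem_Lin_iff _ _ _).1 hμ
  rw [mem_Lin_iff]
  refine ⟨ρ g⁻¹ v, ?_, fun x => ?_⟩
  · intro h2
    apply hv0
    have h3 := congrArg (ρ g) h2
    rwa [← Module.End.mul_apply, ← map_mul, mul_inv_cancel, map_one, Module.End.one_apply,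
      map_zero] at h3
  · have h1 : g * x * g⁻¹ ∈ P := (Subgroup.mem_normalizer_iff.1 hg x).1 x.2
    have h2 := hν x ⟨_, h1⟩ rfl
    have h3 := hv ⟨_, h1⟩
    rw [h2, ← map_smul, ← h3, ← Module.End.mul_apply, ← Module.End.mul_apply, ← map_mul,
      ← map_mul]
    congr 2
    simp only
    group

theorem crit3 {p : ℕ} [Fact p.Prime] (P : Sylow p G)
    (hcrit : ∀ L : Set ((P : Subgroup G) →* ℂˣ), L.Nonempty → L.ncard < p →
      (∀ μ ∈ L, ∀ g ∈ Subgroup.normalizer ((P : Subgroup G) : Set G),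
        ∀ ν : (P : Subgroup G) →* ℂˣ, (∀ x y : (P : Subgroup G), (y : G) = g * x * g⁻¹ →
          ν x = μ y) → ν ∈ L) → Good p (P : Subgroup G) L)
    (ρ : Representation ℂ G V) (hρ : ρ.IsIrreducible) (hd : p ∣ finrank ℂ V)
    (hne : (Lin ρ (P : Subgroup G)).Nonempty) : p ≤ (Lin ρ (P : Subgroup G)).ncard := by
  have hp : p.Prime := Fact.out
  by_contra hlt
  have hlt' : (Lin ρ (P : Subgroup G)).ncard < p := not_le.1 hlt
  have hgood := hcrit (Lin ρ (P : Subgroup G)) hne hlt' fun μ hμ g hg ν hν =>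
    lin_inv ρ _ hμ hg hν
  have hcM := comm_le_cker (P : Subgroup G) (Lin ρ (P : Subgroup G))
  have hPK : (P : Subgroup G) ≤ loc (P : Subgroup G) (cker (P : Subgroup G)
    (Lin ρ (P : Subgroup G))) := le_loc hcM
  have hMK : cker (P : Subgroup G) (Lin ρ (P : Subgroup G)) ≤ loc (P : Subgroup G)
    (cker (P : Subgroup G) (Lin ρ (P : Subgroup G))) := (cker_le _ _).trans hPK
  have hc : ∀ k ∈ loc (P : Subgroup G) (cker (P : Subgroup G) (Lin ρ (P : Subgroup G))), ∀ v,
      av ρ (cker (P : Subgroup G) (Lin ρ (P : Subgroup G))) (ρ k v) =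
        ρ k (av ρ (cker (P : Subgroup G) (Lin ρ (P : Subgroup G))) v) :=
    fun k hk v => loc_comm ρ _ hk v
  have hX : fixSp ρ (cker (P : Subgroup G) (Lin ρ (P : Subgroup G))) ≠ ⊥ := by
    intro h0
    obtain ⟨μ, hμ⟩ := hne
    obtain ⟨v, hv0, hv⟩ := (mem_Lin_iff _ _ _).1 hμ
    have h1 : v ∈ fixSp ρ (cker (P : Subgroup G) (Lin ρ (P : Subgroup G))) := by
      intro x hx
      obtain ⟨hx1, hx2⟩ := mem_cker.1 hx
      have h2 := hv ⟨x, hx1⟩
      rw [hx2 μ hμ, Units.val_one, one_smul] at h2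
      exact h2
    rw [h0] at h1
    exact hv0 ((Submodule.mem_bot ℂ).1 h1)
  obtain ⟨X1, h1, h2, h3, h4⟩ := exists_irr ρ (loc (P : Subgroup G) (cker (P : Subgroup G)
    (Lin ρ (P : Subgroup G)))) _ hX fun k hk x hx => stab_fix ρ (hc k hk) hx
  have hfe := fix_eq ρ (P : Subgroup G) ⁅(P : Subgroup G), (P : Subgroup G)⁆ le_rfl hcM
  have h5 : ¬ p ∣ finrank ℂ X1 := irr_dim P ρ _ hPK X1 (by rw [hfe]; exact h1) h2 h3 h4 hlt'
  have h6 : p ∣ finrank ℂ (fixSp ρ (cker (P : Subgroup G) (Lin ρ (P : Subgroup G)))) := by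
    rw [← hfe]
    exact (Nat.modEq_zero_iff_dvd.1 (((dim_mod (P : Subgroup G) P.isPGroup' ρ).symm.trans
      (Nat.modEq_zero_iff_dvd.2 hd))))
  rcases hgood with h7 | h7 | ⟨hp2, h, h7⟩ | ⟨h11, hab, hN, h, h7, h8⟩
  · apply h5
    let A : Subrepresentation ρ :=
      { toSubmodule := X1
        apply_mem_toSubmodule := fun g x hx => h3 g (by rw [h7]; trivial) x hx }
    rcases hρ.eq_bot_or_eq_top A with h9 | h9
    · exact absurd (congrArg Subrepresentation.toSubmodule h9) h2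
    · have h10 : X1 = ⊤ := congrArg Subrepresentation.toSubmodule h9
      rw [h10, finrank_top]
      exact hd
  · exact par_false ρ _ h7
  · rcases two_dim ρ hρ hMK hc (fun g hg x hx => van_zero ρ _ hg hx) h7 X1 h1 h2 h3 h4 with
      h9 | ⟨h9, h10⟩
    · rw [h9] at h6
      exact h5 h6
    · rw [h10] at h6
      rcases hp.dvd_mul.1 h6 with h11 | h11
      · exact hp2 ((Nat.prime_dvd_prime_iff_eq hp Nat.prime_two).1 h11)
      · exact h5 h11
  · -- the trivial character is in `Lin`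
    have hN1 : Subgroup.normalizer ((P : Subgroup G) : Set G) ≤ locOne (P : Subgroup G)
        (Lin ρ (P : Subgroup G)) := norm_le _ _
    have hP1 : (P : Subgroup G) ≤ locOne (P : Subgroup G) (Lin ρ (P : Subgroup G)) :=
      Subgroup.le_normalizer.trans hN1
    have hc1 : ∀ k ∈ locOne (P : Subgroup G) (Lin ρ (P : Subgroup G)), ∀ v,
        av ρ (P : Subgroup G) (ρ k v) = ρ k (av ρ (P : Subgroup G) v) :=
      fun k hk v => locOne_comm ρ _ hk v
    have hY : fixSp ρ (P : Subgroup G) ≠ ⊥ := by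
      intro h0
      obtain ⟨v, hv0, hv⟩ := (mem_Lin_iff _ _ _).1 h11
      have h12 : v ∈ fixSp ρ (P : Subgroup G) := by
        intro x hx
        have h13 := hv ⟨x, hx⟩
        rw [MonoidHom.one_apply, Units.val_one, one_smul] at h13
        exact h13
      rw [h0] at h12
      exact hv0 ((Submodule.mem_bot ℂ).1 h12)
    obtain ⟨Y1, k1, k2, k3, k4⟩ := exists_irr ρ (locOne (P : Subgroup G)
      (Lin ρ (P : Subgroup G))) _ hY fun k hk x hx => stab_fix ρ (hc1 k hk) hx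
    rcases two_dim ρ hρ hP1 hc1 (fun g hg => absurd hg (Set.notMem_empty g)) h7 Y1 k1 k2 k3 k4
      with h9 | ⟨h9, _⟩
    · rw [← h9] at k4
      have hline := line P ρ _ hP1 hc1 hab hY k4
      have hirr := nc P ρ hρ _ _ (cker_le _ _) hPK hc hN hline
      apply h5
      rcases hirr X1 h1 h3 with h10 | h10
      · exact absurd h10 h2
      · rw [h10]
        exact h6
    · have hall := ext_all P ρ hρ _ hP1 hc1 h7 h8 Y1 k1 k2 k3 h9
      exact absurd (many P _ inf_le_left h8.2 _ hall) (not_le.2 hlt')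

end Pool.Agent.H.MP_7d3ffc_al.LC
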