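import Pool.Agent.H.MP_7d3ffc_al.LC.Cor
import Pool.Agent.H.MP_7d3ffc_al.DN.Ppi

/-!
# Module LC/Fin: homomorphic images of direct products as normal subgroups of index prime to `p`
-/

namespace Pool.Agent.H.MP_7d3ffc_al.LC

open Pool.Agent.H.MP_7d3ffc_al Pool.Agent.H.MP_7d3ffc_al.DC Pool.Agent.H.MP_7d3ffc_al.DN Module
open scoped Pointwise

theorem Fin_card.{u} {k : ℕ} {S : Fin k → Type u} [∀ i, Group (S i)]
    (U : ∀ i, Subgroup (S i)) :
    Nat.card (Subgroup.pi Set.univ U) = ∏ i, Nat.card (U i) := by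
  rw [← Nat.card_pi]
  exact Nat.card_congr
    { toFun := fun f i => ⟨f.1 i, f.2 i trivial⟩
      invFun := fun g => ⟨fun i => g i, fun i _ => (g i).2⟩
      left_inv := fun f => rfl
      right_inv := fun g => rfl }

theorem Fin_index.{u} {k : ℕ} {S : Fin k → Type u} [∀ i, Group (S i)]
    [∀ i, Finite (S i)] (U : ∀ i, Subgroup (S i)) :
    (Subgroup.pi Set.univ U).index = ∏ i, (U i).index := by
  have h1 := (Subgroup.pi Set.univ U).index_mul_card
  rw [Fin_card, Nat.card_pi] at h1
  have h2 : ∏ i, Nat.card (S i) = (∏ i, (U i).index) * ∏ i, Nat.card (U i) := by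
    rw [← Finset.prod_mul_distrib]
    exact Finset.prod_congr rfl fun i _ => ((U i).index_mul_card).symm
  rw [h2] at h1
  exact Nat.eq_of_mul_eq_mul_right (Finset.prod_pos fun i _ => Nat.card_pos) h1

theorem Fin_pgroup.{u} {p : ℕ} [Fact p.Prime] {k : ℕ} {S : Fin k → Type u}
    [∀ i, Group (S i)] [∀ i, Finite (S i)] (U : ∀ i, Subgroup (S i))
    (h : ∀ i, IsPGroup p (U i)) : IsPGroup p (Subgroup.pi Set.univ U) := by
  choose m hm using fun i => (h i).exists_card_eq
  refine IsPGroup.of_card (n := ∑ i, m i) ?_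
  rw [Fin_card, Finset.prod_congr rfl fun i _ => hm i, Finset.prod_pow_eq_pow_sum]

/-- Q1 for groups with a normal subgroup of index prime to `p` which is a homomorphic image of a
direct product of groups with the property of Q1 -/
theorem main_q1.{u, v, w} {p : ℕ} [Fact p.Prime] {k : ℕ} {S : Fin k → Type w}
    [∀ i, Group (S i)] [∀ i, Finite (S i)] (Q : ∀ i, Sylow p (S i))
    (hQ : ∀ i, Q1At.{w, v} p (S i) (Q i : Subgroup (S i))) {G : Type u} [Group G] [Finite G]
    (π : (∀ i, S i) →* G) (hN : π.range.Normal)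
    (hidx : ¬ p ∣ π.range.index) {V : Type v} [AddCommGroup V] [Module ℂ V]
    [FiniteDimensional ℂ V] (P : Sylow p G) (ρ : Representation ℂ G V) (hρ : ρ.IsIrreducible)
    (hd : p ∣ finrank ℂ V) (hne : (Lin ρ (P : Subgroup G)).Nonempty) :
    p ≤ (Lin ρ (P : Subgroup G)).ncard := by
  have hp : p.Prime := Fact.out
  obtain ⟨W, σ, hσ, hdW, hne', hle⟩ := constituent_sylow π.range hidx P ρ hρ hd hne
  refine le_trans ?_ hle
  have hUi : ¬ p ∣ (Subgroup.pi Set.univ fun i => (Q i : Subgroup (S i))).index := by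
    rw [Fin_index]
    intro h
    obtain ⟨i, _, hi⟩ := (Prime.dvd_finsetProd_iff hp.prime _).1 h
    exact (Q i).not_dvd_index hi
  have hU : IsPGroup p (Subgroup.pi Set.univ fun i => (Q i : Subgroup (S i))) :=
    Fin_pgroup _ fun i => (Q i).isPGroup'
  obtain ⟨g, hg⟩ := sylow_eq π.rangeRestrict (by
    rw [MonoidHom.range_eq_top.2 π.rangeRestrict_surjective, Subgroup.index_top]
    exact fun h => hp.one_lt.ne' (Nat.dvd_one.1 h))
    (Subgroup.pi Set.univ fun i => (Q i : Subgroup (S i))) hU hUi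
    (P.subtype (PiD_le π.range hidx P))
  have hg' : (P : Subgroup G).subgroupOf π.range =
      MulAut.conj g • (Subgroup.pi Set.univ fun i => (Q i : Subgroup (S i))).map
        π.rangeRestrict := hg
  rw [hg'] at hne' ⊢
  rw [ncard_conj]
  exact q1_surj π.rangeRestrict π.rangeRestrict_surjective _
    (q1_pi k _ _ hQ) W σ hσ hdW (nonempty_conj σ g _ hne')

end Pool.Agent.H.MP_7d3ffc_al.LC
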