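import Pool.Agent.H.MP_7d3ffc_al.LC.Bas

/-!
# Module LC/Irr: irreducible stable subspaces

`K` is a subgroup of the finite group `G`, `X` a `K`-stable subspace of `V`.
* `exists_irr`: a `K`-stable nonzero subspace of `X` of minimal dimension (`Nat.find` or well-founded
  induction on `finrank`); a stable `Y ≤ X1` which is not `0` has at least that dimension, so it is `X1`
  (`Submodule.eq_of_le_of_finrank_le`).
* `irr_dim`: let `σ` be the representation of `K` on `X1` (restriction), it is irreducible (by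
  minimality; its subrepresentations are the `K`-stable subspaces of `X1`). Apply `theoremA` (module ThmA) to
  the group `K`, its `p`-subgroup `P.subgroupOf K`, `σ`, `H = MonoidHom.ker σ`, `b = 0`: the commutator
  subgroup of `P.subgroupOf K` is contained in `H`, because `⁅P, P⁆` acts trivially on `X1`; `H` is normal
  (`Subgroup.Normal.conj_smul_eq_self`), so the `relIndex` is `1`; `1 ∈ Lin σ H`. `Lin σ (P.subgroupOf K)` is
  not empty: a nonzero `w` in `X1` is the sum of its projections. The index of `P.subgroupOf K` is not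
  divisible by `p` (it divides the index of `P` in `G`:
  `Subgroup.relIndex_dvd_index_of_le` or `Subgroup.relIndex_mul_index`). So
  `(p - 1) * padicValNat p (finrank X1) + 1 ≤ (Lin σ _).ncard ≤ (Lin ρ P).ncard < p`
  (the second inequality as in `constituent_sylow` in module DC/PiD or `lin_map` in DC/Red).
* `dim_mod`: `cnt` or rather `Cnt_main`, `Cnt_sum` (module DC/Cnt).
-/

namespace Pool.Agent.H.MP_7d3ffc_al.LC

open Pool.Agent.H.MP_7d3ffc_al Pool.Agent.H.MP_7d3ffc_al.DC Pool.Agent.H.MP_7d3ffc_al.DF Module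
open scoped Pointwise

variable {G : Type*} [Group G] [Finite G] {V : Type*} [AddCommGroup V] [Module ℂ V]
  [FiniteDimensional ℂ V]

theorem Irr_ind (ρ : Representation ℂ G V) (K : Subgroup G) (n : ℕ) :
    ∀ X : Submodule ℂ V, finrank ℂ X ≤ n → X ≠ ⊥ → (∀ k ∈ K, ∀ x ∈ X, ρ k x ∈ X) →
      ∃ X1 : Submodule ℂ V, X1 ≤ X ∧ X1 ≠ ⊥ ∧ (∀ k ∈ K, ∀ x ∈ X1, ρ k x ∈ X1) ∧
        ∀ Y : Submodule ℂ V, Y ≤ X1 → (∀ k ∈ K, ∀ x ∈ Y, ρ k x ∈ Y) → Y = ⊥ ∨ Y = X1 := by
  induction n with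
  | zero =>
    intro X hn hX _
    exact absurd (Submodule.finrank_eq_zero.1 (Nat.le_zero.1 hn)) hX
  | succ n ih =>
    intro X hn hX hK
    by_cases hall : ∀ Y : Submodule ℂ V, Y ≤ X → (∀ k ∈ K, ∀ x ∈ Y, ρ k x ∈ Y) → Y = ⊥ ∨ Y = X
    · exact ⟨X, le_rfl, hX, hK, hall⟩
    · push Not at hall
      obtain ⟨Y, hYX, hYK, hY0, hY1⟩ := hall
      have h1 : finrank ℂ Y < finrank ℂ X :=
        Submodule.finrank_lt_finrank_of_lt (lt_of_le_of_ne hYX hY1)
      obtain ⟨X1, h2, h3, h4, h5⟩ := ih Y (by omega) hY0 hYK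
      exact ⟨X1, h2.trans hYX, h3, h4, h5⟩

theorem exists_irr (ρ : Representation ℂ G V) (K : Subgroup G) (X : Submodule ℂ V) (hX : X ≠ ⊥)
    (hK : ∀ k ∈ K, ∀ x ∈ X, ρ k x ∈ X) : ∃ X1 : Submodule ℂ V, X1 ≤ X ∧ X1 ≠ ⊥ ∧
      (∀ k ∈ K, ∀ x ∈ X1, ρ k x ∈ X1) ∧
      ∀ Y : Submodule ℂ V, Y ≤ X1 → (∀ k ∈ K, ∀ x ∈ Y, ρ k x ∈ Y) → Y = ⊥ ∨ Y = X1 :=
  Irr_ind ρ K _ X le_rfl hX hK

/-- the representation on a stable subspace is irreducible if the subspace is minimal -/
theorem Irr_simple {K : Subgroup G} (τ : Representation ℂ K V) (S : Subrepresentation τ)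
    (h0 : S.toSubmodule ≠ ⊥) (h4 : ∀ Y : Submodule ℂ V, Y ≤ S.toSubmodule →
      (∀ (k : K), ∀ x ∈ Y, τ k x ∈ Y) → Y = ⊥ ∨ Y = S.toSubmodule) :
    S.toRepresentation.IsIrreducible := by
  have hnt : Nontrivial (Subrepresentation S.toRepresentation) := by
    refine ⟨⊥, ⊤, fun h => h0 ?_⟩
    rw [Submodule.eq_bot_iff]
    intro x hx
    have h1 : (⟨x, hx⟩ : S.toSubmodule) ∈
        (⊤ : Subrepresentation S.toRepresentation).toSubmodule := Submodule.mem_top
    rw [← h] at h1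
    have h2 : (⟨x, hx⟩ : S.toSubmodule) = 0 := (Submodule.mem_bot ℂ).1 h1
    exact congrArg Subtype.val h2
  refine @IsSimpleOrder.mk _ _ _ hnt fun C => ?_
  rcases h4 (C.toSubmodule.map S.toSubmodule.subtype) (Submodule.map_subtype_le _ _) (by
      rintro g _ ⟨c, hc, rfl⟩
      exact ⟨S.toRepresentation g c, C.apply_mem_toSubmodule g hc, rfl⟩) with h | h
  · left
    apply Subrepresentation.toSubmodule_injective
    show C.toSubmodule = ⊥
    rw [Submodule.eq_bot_iff]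
    intro c hc
    have h1 : S.toSubmodule.subtype c ∈ C.toSubmodule.map S.toSubmodule.subtype :=
      Submodule.mem_map_of_mem hc
    rw [h, Submodule.mem_bot] at h1
    exact Subtype.ext h1
  · right
    apply Subrepresentation.toSubmodule_injective
    show C.toSubmodule = ⊤
    rw [eq_top_iff]
    intro x _
    have hx : (x : V) ∈ C.toSubmodule.map S.toSubmodule.subtype := h.ge x.2
    obtain ⟨c, hc, hcx⟩ := hx
    have h1 : c = x := Subtype.ext hcx
    rw [← h1]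
    exact hc

theorem Irr_comm (P K : Subgroup G) {x : K} (hx : x ∈ ⁅P.subgroupOf K, P.subgroupOf K⁆) :
    (x : G) ∈ ⁅P, P⁆ := by
  have h1 : (⁅P.subgroupOf K, P.subgroupOf K⁆).map K.subtype ≤ ⁅P, P⁆ := by
    rw [Subgroup.map_commutator]
    have h2 : (P.subgroupOf K).map K.subtype ≤ P := by
      rintro _ ⟨y, hy, rfl⟩
      exact hy
    exact Subgroup.commutator_mono h2 h2
  exact h1 ⟨x, hx, rfl⟩

theorem irr_dim {p : ℕ} [Fact p.Prime] (P : Sylow p G) (ρ : Representation ℂ G V)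
    (K : Subgroup G) (hPK : (P : Subgroup G) ≤ K) (X1 : Submodule ℂ V)
    (h1 : X1 ≤ fixSp ρ ⁅(P : Subgroup G), (P : Subgroup G)⁆) (h2 : X1 ≠ ⊥)
    (h3 : ∀ k ∈ K, ∀ x ∈ X1, ρ k x ∈ X1)
    (h4 : ∀ Y : Submodule ℂ V, Y ≤ X1 → (∀ k ∈ K, ∀ x ∈ Y, ρ k x ∈ Y) → Y = ⊥ ∨ Y = X1)
    (hL : (Lin ρ (P : Subgroup G)).ncard < p) : ¬ p ∣ finrank ℂ X1 := by
  classical
  have hp : p.Prime := Fact.out
  intro hd
  obtain ⟨τ, hτ⟩ : ∃ τ : Representation ℂ K V, ∀ (n : K) (v : V), τ n v = ρ n v :=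
    ⟨ρ.comp K.subtype, fun _ _ => rfl⟩
  obtain ⟨S, hS⟩ : ∃ S : Subrepresentation τ, S.toSubmodule = X1 :=
    ⟨⟨X1, fun g v hv => by rw [hτ]; exact h3 g g.2 v hv⟩, rfl⟩
  subst hS
  have hirr : S.toRepresentation.IsIrreducible := by
    refine Irr_simple τ S h2 fun Y hY hYK => h4 Y hY fun k hk x hx => ?_
    have h5 := hYK ⟨k, hk⟩ x hx
    rw [hτ] at h5
    exact h5
  obtain ⟨σ, hσ⟩ : ∃ σ, σ = S.toRepresentation := ⟨_, rfl⟩
  rw [← hσ] at hirr
  have hσv : ∀ (n : K) (x : S.toSubmodule), ((σ n x : S.toSubmodule) : V) = ρ n x := by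
    intro n x
    rw [hσ]
    exact hτ n x
  obtain ⟨Q, hQ⟩ : ∃ Q, Q = (P : Subgroup G).subgroupOf K := ⟨_, rfl⟩
  have hQp : IsPGroup p Q := by
    rw [hQ]
    exact P.isPGroup'.comap_subtype
  -- a nonzero vector
  obtain ⟨w0, hw0, hw0n⟩ := Submodule.exists_mem_ne_zero_of_ne_bot h2
  obtain ⟨w, hw⟩ : ∃ w : S.toSubmodule, w ≠ 0 := ⟨⟨w0, hw0⟩, fun h => hw0n (congrArg Subtype.val h)⟩
  -- the commutator subgroup acts trivially
  have htriv : ∀ x : K, x ∈ ⁅Q, Q⁆ → ∀ y : S.toSubmodule, σ x y = y := by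
    intro x hx y
    rw [hQ] at hx
    exact Subtype.ext ((hσv x y).trans (h1 y.2 x (Irr_comm _ K hx)))
  obtain ⟨H, hH⟩ : ∃ H : Subgroup K, H = MonoidHom.ker (σ : K →* _) := ⟨_, rfl⟩
  have hHn : H.Normal := by
    rw [hH]
    infer_instance
  have hQH : ⁅Q, Q⁆ ≤ H := by
    intro x hx
    rw [hH, MonoidHom.mem_ker]
    exact LinearMap.ext fun y => htriv x hx y
  have hLH : (Lin σ H).Nonempty := by
    refine ⟨1, ?_⟩
    rw [mem_Lin_iff]
    refine ⟨w, hw, fun x => ?_⟩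
    have h5 : (x : K) ∈ MonoidHom.ker (σ : K →* _) := by
      rw [← hH]
      exact x.2
    have h6 : σ (x : K) = 1 := MonoidHom.mem_ker.1 h5
    rw [h6, MonoidHom.one_apply, Units.val_one, one_smul]
    rfl
  have hb : ∀ g : K, (MulAut.conj g • H).relIndex ⁅Q, Q⁆ ∣ p ^ 0 := by
    intro g
    rw [Subgroup.Normal.conj_smul_eq_self, Subgroup.relIndex_eq_one.2 hQH, pow_zero]
  have hne : (Lin σ Q).Nonempty := by
    have : Fintype Q := Fintype.ofFinite _
    have : Finite (Q →* ℂˣ) := Cnt_finite _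
    have : Fintype (Q →* ℂˣ) := Fintype.ofFinite _
    have h5 : ∑ μ : Q →* ℂˣ, proj σ Q μ w = w := by
      refine sum_proj_eq σ Q w fun x hx => ?_
      refine htriv x ?_ w
      rw [← Subgroup.map_subtype_commutator]
      exact ⟨x, hx, rfl⟩
    by_contra hcon
    rw [Set.not_nonempty_iff_eq_empty] at hcon
    apply hw
    rw [← h5]
    refine Finset.sum_eq_zero fun μ _ => ?_
    refine proj_eq_zero_of_notMem σ Q μ ?_ w
    rw [hcon]
    exact Set.notMem_empty μ
  have hA := theoremA Q hQp σ hirr H hLH 0 hb hne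
  have hidx : padicValNat p Q.index = 0 := by
    refine padicValNat.eq_zero_of_not_dvd fun h => ?_
    have h5 : Q.index ∣ (P : Subgroup G).index := by
      rw [hQ]
      exact Subgroup.relIndex_dvd_index_of_le hPK
    exact P.not_dvd_index (h.trans h5)
  rw [hidx, add_zero, mul_zero, add_zero] at hA
  have hcard : (Lin σ Q).ncard ≤ (Lin ρ (P : Subgroup G)).ncard := by
    subst hQ
    refine Set.ncard_le_ncard_of_injOn
      (fun μ => μ.comp (Subgroup.subgroupOfEquivOfLe hPK).symm.toMonoidHom) ?_ ?_ ?_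
    · intro μ hμ
      obtain ⟨z, hz0, hz⟩ := (mem_Lin_iff _ _ _).mp hμ
      rw [mem_Lin_iff]
      refine ⟨(z : V), fun h => hz0 (Subtype.ext h), fun x => ?_⟩
      have h1 := congrArg Subtype.val (hz ((Subgroup.subgroupOfEquivOfLe hPK).symm x))
      rw [hσv] at h1
      exact h1
    · intro μ _ ν _ h
      refine MonoidHom.ext fun x => ?_
      have h1 := DFunLike.congr_fun h (Subgroup.subgroupOfEquivOfLe hPK x)
      simpa using h1
    · have : Finite ((P : Subgroup G) →* ℂˣ) := Cnt_finite _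
      exact Set.toFinite _
  have hpos : 1 ≤ padicValNat p (finrank ℂ S.toSubmodule) := by
    refine one_le_padicValNat_of_dvd ?_ hd
    intro h
    exact h2 (Submodule.finrank_eq_zero.1 h)
  have h7 : (p - 1) * 1 ≤ (p - 1) * padicValNat p (finrank ℂ S.toSubmodule) :=
    Nat.mul_le_mul_left _ hpos
  have h8 := hp.one_lt
  omega

theorem dim_mod {p : ℕ} [Fact p.Prime] (P : Subgroup G) (hP : IsPGroup p P)
    (ρ : Representation ℂ G V) :
    finrank ℂ V ≡ finrank ℂ (fixSp ρ ⁅P, P⁆) [MOD p] := by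
  have h1 := Cnt_main (Nat.card P) P V (ρ.comp P.subtype) le_rfl hP
  have h2 : Representation.invariants ((ρ.comp P.subtype).comp (commutator P).subtype) =
      fixSp ρ ⁅P, P⁆ := by
    ext v
    constructor
    · intro hv x hx
      rw [← Subgroup.map_subtype_commutator] at hx
      obtain ⟨y, hy, rfl⟩ := hx
      exact hv ⟨y, hy⟩
    · rintro hv ⟨x, hx⟩
      refine hv (x : G) ?_
      rw [← Subgroup.map_subtype_commutator]
      exact ⟨x, hx, rfl⟩
  rw [h2] at h1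
  exact h1

end Pool.Agent.H.MP_7d3ffc_al.LC
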