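import Mathlib

/-!
# Module LC/Rt0: positive roots

`Φ` is a reduced crystallographic root pairing with a base `b`. `j` a positive root different from the simple
root `i`. Write `root j = ∑ f l • root l` with natural numbers `f l` (`exists_root_eq_sum_int`; positive because
of the height). There is `l ≠ i` in the support with `f l > 0` (otherwise `root j = f i • root i`, so
`j = i` since `Φ` is reduced and `j` is positive). The coefficient of `root k = z • root i + n • root j` at
`l` is `n * f l > 0`, so all coefficients are nonnegative (`pos_or_neg_of_sum_smul_root_mem`) and the height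
is positive; `k ≠ i` because the coefficient of `root i` at `l` is `0` (linear independence:
`b.linearIndependentInt` or the argument in `height_eq_sum`).
-/

namespace Pool.Agent.H.MP_7d3ffc_al.LC

variable {ι M N : Type*} [AddCommGroup M] [Module ℚ M] [AddCommGroup N] [Module ℚ N] [Finite ι]
  {Φ : RootPairing ι ℚ M N} [Φ.IsCrystallographic] [Φ.IsReduced] {b : Φ.Base}

omit [Finite ι] [Φ.IsCrystallographic] [Φ.IsReduced] in
theorem Rt0_negAux {i j : ι} (hi : b.IsPos i) (hj : b.IsPos j) : Φ.root i ≠ -Φ.root j := by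
  intro h
  let := Φ.indexNeg
  have h1 : i = -j := by
    apply Φ.root.injective
    simpa using h
  rw [h1, RootPairing.Base.isPos_iff, b.height_reflectionPerm_self] at hi
  rw [RootPairing.Base.isPos_iff] at hj
  omega

omit [Finite ι] [Φ.IsCrystallographic] in
theorem Rt0_li {i j : ι} (hi : i ∈ b.support) (hj : b.IsPos j) (hij : j ≠ i) :
    ∀ s t : ℚ, s • Φ.root i + t • Φ.root j = 0 → s = 0 ∧ t = 0 := by
  rw [← LinearIndependent.pair_iff]
  refine RootPairing.IsReduced.linearIndependent Φ hij.symm fun contra => ?_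
  exact Rt0_negAux (b.isPos_of_mem_support hi) hj contra

theorem Rt0_pos {i j k : ι} (hi : i ∈ b.support) (hj : b.IsPos j) (hij : j ≠ i) {z : ℤ} {n : ℕ}
    (hn : 0 < n) (hk : Φ.root k = z • Φ.root i + n • Φ.root j) : b.IsPos k ∧ k ≠ i := by
  classical
  obtain ⟨f, hf0, hf1, hf2⟩ := b.exists_root_eq_sum_int j
  have hli := Rt0_li hi hj hij
  have hfpos : ∀ l, 0 ≤ f l := by
    rcases hf1 with h | h
    · exact fun l => h.le l
    · exfalso
      rw [RootPairing.Base.isPos_iff, RootPairing.Base.height_eq_sum hf2] at hj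
      exact absurd (Finset.sum_nonpos fun l _ => h.le l) (not_le.mpr hj)
  obtain ⟨l, hl, hli', hfl⟩ : ∃ l ∈ b.support, l ≠ i ∧ 0 < f l := by
    by_contra hcon
    push Not at hcon
    have h0 : ∀ l ∈ b.support, l ≠ i → f l = 0 := fun l hl hli' =>
      le_antisymm (hcon l hl hli') (hfpos l)
    have h1 : Φ.root j = f i • Φ.root i := by
      rw [hf2]
      refine Finset.sum_eq_single_of_mem i hi fun l hl hli' => ?_
      rw [h0 l hl hli', zero_smul]
    have h2 := hli (-(f i : ℚ)) 1 (by
      rw [h1, one_smul, neg_smul, Int.cast_smul_eq_zsmul, neg_add_cancel])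
    exact one_ne_zero h2.2
  obtain ⟨g, hg⟩ : ∃ g : ι → ℤ, g = fun m => z * (Pi.single i 1 : ι → ℤ) m + n * f m := ⟨_, rfl⟩
  have hgsum : ∑ m ∈ b.support, g m • Φ.root m = Φ.root k := by
    have h1 : Φ.root i = ∑ m ∈ b.support, (Pi.single i 1 : ι → ℤ) m • Φ.root m := by
      rw [Finset.sum_eq_single_of_mem i hi (by simp_all)]
      simp
    rw [hk]
    have h2 : z • Φ.root i = ∑ m ∈ b.support, z • (Pi.single i 1 : ι → ℤ) m • Φ.root m := by
      rw [← Finset.smul_sum, ← h1]
    have h3 : n • Φ.root j = ∑ m ∈ b.support, (n : ℤ) • f m • Φ.root m := by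
      rw [← Finset.smul_sum, ← hf2, natCast_zsmul]
    rw [h2, h3, ← Finset.sum_add_distrib]
    refine Finset.sum_congr rfl fun m _ => ?_
    rw [hg, smul_smul, smul_smul, ← add_smul]
  have hgsupp : g.support ⊆ b.support := by
    intro m hm
    by_contra hmb
    apply hm
    have h1 : f m = 0 := by
      by_contra h
      exact hmb (hf0 h)
    have h2 : (Pi.single i 1 : ι → ℤ) m = 0 := by
      rw [Pi.single_apply, if_neg]
      rintro rfl
      exact hmb hi
    rw [hg]
    change z * (Pi.single i 1 : ι → ℤ) m + n * f m = 0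
    rw [h1, h2, mul_zero, mul_zero, add_zero]
  have hgl : 0 < g l := by
    rw [hg]
    change 0 < z * (Pi.single i 1 : ι → ℤ) l + n * f l
    rw [Pi.single_apply, if_neg hli', mul_zero, zero_add]
    exact mul_pos (by exact_mod_cast hn) hfl
  refine ⟨?_, ?_⟩
  · have hg0 : 0 < g := by
      rcases b.pos_or_neg_of_sum_smul_root_mem g ⟨k, hgsum.symm⟩ hgsupp with h | h
      · exact h
      · exact absurd (h.le l) (not_le.mpr hgl)
    rw [RootPairing.Base.isPos_iff, RootPairing.Base.height_eq_sum hgsum.symm]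
    exact Finset.sum_pos' (fun m _ => hg0.le m) ⟨l, hl, hgl⟩
  · rintro rfl
    have h1 := hli ((z : ℚ) - 1) n (by
      rw [sub_smul, one_smul, Int.cast_smul_eq_zsmul, Nat.cast_smul_eq_nsmul, sub_add_eq_add_sub,
        ← hk, sub_self])
    have h2 : (n : ℚ) ≠ 0 := by exact_mod_cast hn.ne'
    exact h2 h1.2

/-- a positive root is not the negative of a positive root -/
theorem Rt0_neg {i j : ι} (hi : b.IsPos i) (hj : b.IsPos j) : Φ.root i ≠ -Φ.root j :=
  Rt0_negAux hi hj

end Pool.Agent.H.MP_7d3ffc_al.LC
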