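import Pool.Agent.H.MP_7d3ffc_al.LC.Rt0

/-!
# Module LC/Rt1: root groups and the radicals of the minimal parabolic subgroups

`x i : F i → G` are additive families (root groups) with the commutator relations `Rcomm`. `Rq b x i` is the
subgroup generated by the `x j c`, `j` positive, `j ≠ i`.

* `Rt1_norm`: (i) `x i c` normalizes `Rq b x i`: `x i c * x j a * (x i c)⁻¹ = ⁅x i c, x j a⁆ * x j a` and the
  commutator is in the group generated by the `x k d` with `root k = m • root i + n • root j`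
  (`m, n > 0`; `Rt0_pos` with `z = m`; the hypotheses of `Rcomm`: `Rt0_neg`). (ii) the same for `x i' c` with
  `root i' = -root i` (`Rt0_pos` with `z = -m`; `i' ≠ j` since `j` is positive and `i'` is not). The
  normalizer of a closure: it suffices that all conjugates of the generators by `x i c` and by
  `(x i c)⁻¹ = x i (-c)` are in it (`x i 0 = 1` from additivity).
* `Rt1_comm`: let `P` be generated by the `x j c`, `j` positive. Every element of `P` is `q * x i c` with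
  `q` in `Q = Rq b x i` (closure induction, `Rt1_norm`), and
  `⁅q * x, q' * x'⁆ = q * (x * q' * x⁻¹) * (x' * q⁻¹ * x'⁻¹) * q'⁻¹` for commuting `x, x'`. So
  `⁅P, P⁆ ≤ Q` (`Subgroup.commutator_le`).
-/

namespace Pool.Agent.H.MP_7d3ffc_al.LC

variable {ι M N : Type*} [AddCommGroup M] [Module ℚ M] [AddCommGroup N] [Module ℚ N] [Finite ι]
  {Φ : RootPairing ι ℚ M N} [Φ.IsCrystallographic] [Φ.IsReduced] {b : Φ.Base}
  {G : Type*} [Group G] {F : ι → Type*} [∀ i, AddGroup (F i)]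

/-- Chevalley's commutator relations: the commutator of `x i a` and `x j c` for `i ≠ ±j` is a product of
elements `x k d` with `root k = m • root i + n • root j`, `m, n > 0` -/
def Rcomm (Φ : RootPairing ι ℚ M N) (x : ∀ i, F i → G) : Prop :=
  ∀ i j, i ≠ j → Φ.root i ≠ -Φ.root j → ∀ a c,
    x i a * x j c * (x i a)⁻¹ * (x j c)⁻¹ ∈ Subgroup.closure
    {g : G | ∃ k, ∃ m n : ℕ, 0 < m ∧ 0 < n ∧ Φ.root k = m • Φ.root i + n • Φ.root j ∧
      ∃ d, g = x k d}

/-- the group generated by the root groups of the positive roots -/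
def Rpos (b : Φ.Base) (x : ∀ i, F i → G) : Subgroup G :=
  Subgroup.closure {g : G | ∃ j, b.IsPos j ∧ ∃ c, g = x j c}

/-- the group generated by the root groups of the positive roots different from `i` -/
def Rq (b : Φ.Base) (x : ∀ i, F i → G) (i : ι) : Subgroup G :=
  Subgroup.closure {g : G | ∃ j, b.IsPos j ∧ j ≠ i ∧ ∃ c, g = x j c}

theorem Rt1_zero {A : Type*} [AddGroup A] {f : A → G} (hadd : ∀ a c, f (a + c) = f a * f c) :
    f 0 = 1 := by
  have h := hadd 0 0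
  rw [add_zero] at h
  exact mul_eq_left.1 h.symm

theorem Rt1_neg {A : Type*} [AddGroup A] {f : A → G} (hadd : ∀ a c, f (a + c) = f a * f c)
    (c : A) : f (-c) = (f c)⁻¹ := by
  refine eq_inv_of_mul_eq_one_left ?_
  rw [← hadd, neg_add_cancel, Rt1_zero hadd]

omit [∀ i, AddGroup (F i)] in
theorem Rt1_gen {x : ∀ i, F i → G} (hcomm : Rcomm Φ x) {i i' : ι} (hi : i ∈ b.support)
    (hi' : i' = i ∨ Φ.root i' = -Φ.root i) (c : F i') {j : ι} (hj : b.IsPos j) (hij : j ≠ i)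
    (a : F j) : x i' c * x j a * (x i' c)⁻¹ ∈ Rq b x i := by
  have hgen : x j a ∈ Rq b x i := Subgroup.subset_closure ⟨j, hj, hij, a, rfl⟩
  have hip := RootPairing.Base.isPos_of_mem_support hi
  have h1 : i' ≠ j := by
    rintro rfl
    rcases hi' with h | h
    · exact hij h
    · exact Rt0_neg hj hip h
  have h2 : Φ.root i' ≠ -Φ.root j := by
    intro h
    rcases hi' with h3 | h3
    · rw [h3] at h
      exact Rt0_neg hip hj h
    · rw [h3, neg_inj] at h
      exact hij (Φ.root.injective h).symm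
  have h3 : x i' c * x j a * (x i' c)⁻¹ * (x j a)⁻¹ ∈ Rq b x i := by
    refine (Subgroup.closure_le (Rq b x i)).2 ?_ (hcomm i' j h1 h2 c a)
    rintro g ⟨k, m, n, hm, hn, hk, d, rfl⟩
    obtain ⟨z, hz⟩ : ∃ z : ℤ, Φ.root k = z • Φ.root i + n • Φ.root j := by
      rcases hi' with h4 | h4
      · exact ⟨m, by rw [hk, h4, natCast_zsmul]⟩
      · exact ⟨-m, by rw [hk, h4, neg_smul, natCast_zsmul, smul_neg]⟩
    obtain ⟨h5, h6⟩ := Rt0_pos hi hj hij hn hz
    exact Subgroup.subset_closure ⟨k, h5, h6, d, rfl⟩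
  have h4 := mul_mem h3 hgen
  rwa [inv_mul_cancel_right] at h4

omit [∀ i, AddGroup (F i)] in
theorem Rt1_conj {x : ∀ i, F i → G} (hcomm : Rcomm Φ x) {i i' : ι} (hi : i ∈ b.support)
    (hi' : i' = i ∨ Φ.root i' = -Φ.root i) (c : F i') {q : G} (hq : q ∈ Rq b x i) :
    x i' c * q * (x i' c)⁻¹ ∈ Rq b x i := by
  have h : Rq b x i ≤ (Rq b x i).comap (MulAut.conj (x i' c)).toMonoidHom := by
    refine (Subgroup.closure_le _).2 ?_
    rintro g ⟨j, hj, hij, a, rfl⟩
    exact Rt1_gen hcomm hi hi' c hj hij a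
  exact h hq

theorem Rt1_norm {x : ∀ i, F i → G} (hadd : ∀ i a c, x i (a + c) = x i a * x i c)
    (hcomm : Rcomm Φ x) {i i' : ι} (hi : i ∈ b.support)
    (hi' : i' = i ∨ Φ.root i' = -Φ.root i) (c : F i') :
    x i' c ∈ Subgroup.normalizer (Rq b x i : Set G) := by
  rw [Subgroup.mem_normalizer_iff]
  intro h
  refine ⟨fun hh => Rt1_conj hcomm hi hi' c hh, fun hh => ?_⟩
  have h1 := Rt1_conj hcomm hi hi' (-c) hh
  rw [Rt1_neg (hadd i')] at h1
  have e : (x i' c)⁻¹ * (x i' c * h * (x i' c)⁻¹) * (x i' c)⁻¹⁻¹ = h := by group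
  rwa [e] at h1

theorem Rt1_dec {x : ∀ i, F i → G} (hadd : ∀ i a c, x i (a + c) = x i a * x i c)
    (hcomm : Rcomm Φ x) {i : ι} (hi : i ∈ b.support) {p : G} (hp : p ∈ Rpos b x) :
    ∃ q ∈ Rq b x i, ∃ c, p = q * x i c := by
  induction hp using Subgroup.closure_induction with
  | mem g hg =>
    obtain ⟨j, hj, c, rfl⟩ := hg
    by_cases hij : j = i
    · subst hij
      exact ⟨1, one_mem _, c, (one_mul _).symm⟩
    · refine ⟨x j c, Subgroup.subset_closure ⟨j, hj, hij, c, rfl⟩, 0, ?_⟩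
      rw [Rt1_zero (hadd i), mul_one]
  | one => exact ⟨1, one_mem _, 0, by rw [Rt1_zero (hadd i), mul_one]⟩
  | mul g g' _ _ h h' =>
    obtain ⟨q, hq, c, rfl⟩ := h
    obtain ⟨q', hq', c', rfl⟩ := h'
    refine ⟨q * (x i c * q' * (x i c)⁻¹), mul_mem hq (Rt1_conj hcomm hi (Or.inl rfl) c hq'),
      c + c', ?_⟩
    rw [hadd]
    group
  | inv g _ h =>
    obtain ⟨q, hq, c, rfl⟩ := h
    refine ⟨x i (-c) * q⁻¹ * (x i (-c))⁻¹, Rt1_conj hcomm hi (Or.inl rfl) (-c) (inv_mem hq),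
      -c, ?_⟩
    rw [Rt1_neg (hadd i)]
    group

theorem Rt1_comm {x : ∀ i, F i → G} (hadd : ∀ i a c, x i (a + c) = x i a * x i c)
    (hcomm : Rcomm Φ x) {i : ι} (hi : i ∈ b.support) (hc : ∀ a c, x i a * x i c = x i c * x i a) :
    ⁅Rpos b x, Rpos b x⁆ ≤ Rq b x i := by
  rw [Subgroup.commutator_le]
  intro g hg g' hg'
  obtain ⟨q, hq, c, rfl⟩ := Rt1_dec hadd hcomm hi hg
  obtain ⟨q', hq', c', rfl⟩ := Rt1_dec hadd hcomm hi hg'
  have h1 := Rt1_conj hcomm hi (Or.inl rfl) c hq'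
  have h2 := Rt1_conj hcomm hi (Or.inl rfl) c' (inv_mem hq)
  have h3 : x i c' = x i c * x i c' * (x i c)⁻¹ := by
    rw [hc c c', mul_inv_cancel_right]
  have e : q * x i c * (q' * x i c') * (q * x i c)⁻¹ * (q' * x i c')⁻¹ =
      q * (x i c * q' * (x i c)⁻¹) * (x i c' * q⁻¹ * (x i c')⁻¹) * q'⁻¹ := by
    calc q * x i c * (q' * x i c') * (q * x i c)⁻¹ * (q' * x i c')⁻¹
        = q * (x i c * q' * (x i c)⁻¹) * ((x i c * x i c' * (x i c)⁻¹) * q⁻¹ *
          (x i c')⁻¹) * q'⁻¹ := by group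
      _ = _ := by rw [← h3]
  rw [commutatorElement_def]
  rw [e]
  exact mul_mem (mul_mem (mul_mem hq h1) h2) (inv_mem hq')

end Pool.Agent.H.MP_7d3ffc_al.LC
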