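import Pool.Agent.H.MP_7d3ffc_al.LC.Rt1
import Pool.Agent.H.MP_7d3ffc_al.LC.Cor
import Pool.Agent.H.MP_7d3ffc_al.SP.Sd

/-!
# Module LC/Rt2: groups with root groups over fields with more than `p` elements
-/

namespace Pool.Agent.H.MP_7d3ffc_al.LC

open Pool.Agent.H.MP_7d3ffc_al Module

theorem Rt2_le {G : Type*} [Group G] {ι M N : Type*} [AddCommGroup M] [Module ℚ M]
    [AddCommGroup N] [Module ℚ N] {Φ : RootPairing ι ℚ M N} {b : Φ.Base}
    {F : ι → Type*} [∀ i, AddGroup (F i)] {x : ∀ i, F i → G} (i : ι) : Rq b x i ≤ Rpos b x :=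
  Subgroup.closure_mono fun _ ⟨j, hj, _, c, hc⟩ => ⟨j, hj, c, hc⟩

theorem of_roots {G : Type*} [Group G] [Finite G] {p : ℕ} [Fact p.Prime] (P : Sylow p G)
    {ι M N : Type*} [AddCommGroup M] [Module ℚ M] [AddCommGroup N] [Module ℚ N] [Finite ι]
    (Φ : RootPairing ι ℚ M N) [Φ.IsCrystallographic] [Φ.IsReduced] (b : Φ.Base)
    {F : ι → Type*} [∀ i, Field (F i)] [∀ i, Finite (F i)] [∀ i, CharP (F i) p]
    (hq : ∀ i, p < Nat.card (F i)) (x : ∀ i, F i → G)
    (hadd : ∀ i a c, x i (a + c) = x i a * x i c) (hcomm : Rcomm Φ x) (hU : Rpos b x = P)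
    (h : ∀ i, (F i)ˣ → G)
    (hh : ∀ i, b.IsPos i → ∀ u, h i u ∈ Subgroup.normalizer ((P : Subgroup G) : Set G))
    (hx : ∀ i, b.IsPos i → ∀ (u : (F i)ˣ) (c : F i),
      h i u * x i c * (h i u)⁻¹ = x i ((u : F i) ^ 2 * c))
    (hgen : Subgroup.normalizer ((P : Subgroup G) : Set G) ⊔ Subgroup.closure
      {g : G | ∃ i ∈ b.support, ∃ i', (i' = i ∨ Φ.root i' = -Φ.root i) ∧ ∃ c, g = x i' c} = ⊤)
    {V : Type*} [AddCommGroup V] [Module ℂ V] [FiniteDimensional ℂ V]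
    (ρ : Representation ℂ G V) (hρ : ρ.IsIrreducible) (hd : p ∣ finrank ℂ V)
    (hne : (Lin ρ (P : Subgroup G)).Nonempty) : p ≤ (Lin ρ (P : Subgroup G)).ncard := by
  refine of_gen P ?_ (fun μ hμ => ?_) ρ hρ hd hne
  · rw [eq_top_iff, ← hgen]
    refine sup_le ?_ ?_
    · exact le_iSup₂_of_le (f := fun (Q : Subgroup G)
        (_ : Q ∈ {Q : Subgroup G | ⁅(P : Subgroup G), (P : Subgroup G)⁆ ≤ Q ∧
          Q ≤ (P : Subgroup G)}) => Subgroup.normalizer (Q : Set G)) (P : Subgroup G)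
        ⟨Subgroup.commutator_le_self _, le_rfl⟩ le_rfl
    · rw [Subgroup.closure_le]
      rintro g ⟨i, hi, i', hi', c, rfl⟩
      have h1 := Rt1_norm hadd hcomm hi hi' c
      refine (le_iSup₂_of_le (f := fun (Q : Subgroup G)
        (_ : Q ∈ {Q : Subgroup G | ⁅(P : Subgroup G), (P : Subgroup G)⁆ ≤ Q ∧
          Q ≤ (P : Subgroup G)}) => Subgroup.normalizer (Q : Set G)) (Rq b x i)
        ⟨?_, ?_⟩ le_rfl) h1
      · rw [← hU]
        refine Rt1_comm hadd hcomm hi fun a c => ?_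
        rw [← hadd, add_comm, hadd]
      · rw [← hU]
        exact Rt2_le i
  · have h1 : ∃ i, b.IsPos i ∧ ∃ c, ∃ hc : x i c ∈ (P : Subgroup G), μ ⟨x i c, hc⟩ ≠ 1 := by
      by_contra h1
      push Not at h1
      apply hμ
      have h2 : Rpos b x ≤ (μ.ker).map (P : Subgroup G).subtype := by
        unfold Rpos
        rw [Subgroup.closure_le]
        rintro g ⟨j, hj, c, rfl⟩
        have h3 : x j c ∈ (P : Subgroup G) := by
          rw [← hU]
          exact Subgroup.subset_closure ⟨j, hj, c, rfl⟩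
        exact ⟨⟨x j c, h3⟩, h1 j hj c h3, rfl⟩
      ext y
      have h3 : (y : G) ∈ (μ.ker).map (P : Subgroup G).subtype := h2 (by rw [hU]; exact y.2)
      obtain ⟨z, hz, hzy⟩ := h3
      have h4 : z = y := Subtype.ext hzy
      rw [← h4]
      exact congrArg _ hz
    obtain ⟨i, hi, c, hc, hc1⟩ := h1
    have h2 : ∀ c, x i c ∈ (P : Subgroup G) := fun c => by
      rw [← hU]
      exact Subgroup.subset_closure ⟨i, hi, c, rfl⟩
    exact SP.orb_root (P : Subgroup G) (hq i) μ (fun c => ⟨x i c, h2 c⟩)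
      (fun a c => Subtype.ext (hadd i a c)) (h i) (fun u => hh i hi u) 2 (Or.inr rfl)
      (fun u c => hx i hi u c) ⟨c, hc1⟩

end Pool.Agent.H.MP_7d3ffc_al.LC
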